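import Pool.Agent.Lib.MP_fa6223_co.Defs

section

/-!
# L1: averaging over odd shifts

PROOF. `N ≥ 1`, so `ZMod N` is finite (`haveI : NeZero N := ⟨by omega⟩`). Enough: `∑ h ∈ range N, W_h ≤ #U ^ 2`, where
`W_h = #{x ∈ U | x + (2h+1) ∈ U}` (`Finset.exists_le_of_sum_le`: then some `h` has `N * W_h ≤ #U^2`).
The sum is the number of triples `(x, y, h)`, `x, y ∈ U`, `h < N`, `2h + 1 = y - x` in `ZMod N`.
* `N` odd: `2` is a unit of `ZMod N`, so for given `x, y` there is at most one `h < N` (`2h = 2h'` in `ZMod N` gives `N ∣ 2(h-h')`, `N ∣ h-h'`,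
  `h = h'`). Total at most `#U^2`.
* `N` even: let `U₀, U₁` be the elements of `U` with even, odd `val` (`y - x = 2h+1` forces different parities, as `N` is even: apply
  `ZMod.castHom (2 ∣ N) (ZMod 2)`), and for given `x, y` there are at most two `h < N` (`N ∣ 2(h-h')`: `h ≡ h' mod N/2`). The total is at most
  `2 * (#U₀ * #U₁ + #U₁ * #U₀) = 4 #U₀ #U₁ ≤ (#U₀ + #U₁)^2 = #U^2`.
  (Other way for `N` even: the map `h ↦ x + (2h+1)` from `range (N/2)` is injective with values of the other parity, and the values for `h` and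
  `h + N/2` are equal.)
-/

set_option autoImplicit false

namespace Pool.Agent.SG

open Finset

private theorem L1_odd {N : ℕ} (hN : 1 ≤ N) (ho : ¬ 2 ∣ N) (d : ZMod N) :
    ((range N).filter fun h => d = ((2 * h + 1 : ℕ) : ZMod N)).card ≤ 1 := by
  rw [Finset.card_le_one]
  intro a ha b hb
  simp only [mem_filter, mem_range] at ha hb
  have h1 : ((2 * a + 1 : ℕ) : ZMod N) = ((2 * b + 1 : ℕ) : ZMod N) := ha.2.symm.trans hb.2
  rw [ZMod.natCast_eq_natCast_iff] at h1
  have h2 : 2 * a ≡ 2 * b [MOD N] := Nat.ModEq.add_right_cancel' 1 h1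
  have hc : Nat.gcd N 2 = 1 := by
    have h3 : Nat.Coprime 2 N := (Nat.Prime.coprime_iff_not_dvd Nat.prime_two).2 ho
    exact h3.symm
  have h3 : a ≡ b [MOD N] := Nat.ModEq.cancel_left_of_coprime hc h2
  exact Nat.ModEq.eq_of_lt_of_lt h3 ha.1 hb.1

private theorem L1_even {M : ℕ} (hM : 1 ≤ M) (d : ZMod (2 * M)) :
    ((range (2 * M)).filter fun h => d = ((2 * h + 1 : ℕ) : ZMod (2 * M))).card ≤ 2 := by
  have h0 : ((range (2 * M)).filter fun h => d = ((2 * h + 1 : ℕ) : ZMod (2 * M))).card ≤ (range 2).card := by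
    refine Finset.card_le_card_of_injOn (fun h => h / M) ?_ ?_
    · intro a ha
      simp only [coe_filter, mem_range, Set.mem_setOf_eq] at ha
      simp only [coe_range, Set.mem_Iio]
      rw [Nat.div_lt_iff_lt_mul (by omega)]
      exact ha.1
    · intro a ha b hb hab
      simp only [coe_filter, mem_range, Set.mem_setOf_eq] at ha hb
      have h1 : ((2 * a + 1 : ℕ) : ZMod (2 * M)) = ((2 * b + 1 : ℕ) : ZMod (2 * M)) := ha.2.symm.trans hb.2
      rw [ZMod.natCast_eq_natCast_iff] at h1
      have h2 : 2 * a ≡ 2 * b [MOD 2 * M] := Nat.ModEq.add_right_cancel' 1 h1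
      have h3 : a ≡ b [MOD M] := Nat.ModEq.mul_left_cancel' (by norm_num) h2
      have h4 : a % M = b % M := h3
      have h5 : a / M = b / M := hab
      have h6 := Nat.div_add_mod a M
      have h7 := Nat.div_add_mod b M
      rw [← h6, ← h7, h4, h5]
  simpa using h0

private theorem L1_sum {N : ℕ} (V : Finset (ZMod N)) :
    ∑ h ∈ range N, (V.filter fun x => x + ((2 * h + 1 : ℕ) : ZMod N) ∈ V).card =
      ∑ x ∈ V, ∑ y ∈ V, ((range N).filter fun h => y - x = ((2 * h + 1 : ℕ) : ZMod N)).card := by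
  have h1 : ∀ h ∈ range N, (V.filter fun x => x + ((2 * h + 1 : ℕ) : ZMod N) ∈ V).card =
      ∑ x ∈ V, ∑ y ∈ V, if y - x = ((2 * h + 1 : ℕ) : ZMod N) then 1 else 0 := by
    intro h _
    rw [Finset.card_filter]
    refine Finset.sum_congr rfl fun x _ => ?_
    have h2 : ∀ y ∈ V, (if y - x = ((2 * h + 1 : ℕ) : ZMod N) then 1 else 0) =
        if x + ((2 * h + 1 : ℕ) : ZMod N) = y then 1 else 0 := by
      intro y _
      refine if_congr ?_ rfl rfl
      rw [sub_eq_iff_eq_add, add_comm]
      exact eq_comm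
    rw [Finset.sum_congr rfl h2, Finset.sum_ite_eq]
  rw [Finset.sum_congr rfl h1, Finset.sum_comm]
  refine Finset.sum_congr rfl fun x _ => ?_
  rw [Finset.sum_comm]
  refine Finset.sum_congr rfl fun y _ => ?_
  rw [Finset.card_filter]

private theorem L1_main {N : ℕ} (hN : 1 ≤ N) (V : Finset (ZMod N)) :
    ∑ h ∈ range N, (V.filter fun x => x + ((2 * h + 1 : ℕ) : ZMod N) ∈ V).card ≤ V.card ^ 2 := by
  rw [L1_sum]
  by_cases ho : 2 ∣ N
  · obtain ⟨M, rfl⟩ := ho
    have hM : 1 ≤ M := by omega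
    let par : ZMod (2 * M) →+* ZMod 2 := ZMod.castHom (Dvd.intro M rfl) (ZMod 2)
    set V0 := V.filter fun x => par x = 0 with hV0
    set V1 := V.filter fun x => ¬ par x = 0 with hV1
    have hc : V0.card + V1.card = V.card := Finset.card_filter_add_card_filter_not _
    have hz : ∀ a : ZMod 2, a = 0 ∨ a = 1 := by decide
    have hb : ∀ x ∈ V, ∀ y ∈ V, ((range (2 * M)).filter fun h => y - x = ((2 * h + 1 : ℕ) : ZMod (2 * M))).card ≤
        if (par x = 0 ↔ par y = 0) then 0 else 2 := by
      intro x _ y _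
      by_cases hxy : (par x = 0 ↔ par y = 0)
      · rw [if_pos hxy]
        rw [Nat.le_zero, Finset.card_eq_zero, Finset.filter_eq_empty_iff]
        intro h _ hh
        have h1 : par (y - x) = par ((2 * h + 1 : ℕ) : ZMod (2 * M)) := by rw [hh]
        rw [map_sub, map_natCast] at h1
        have h2 : ((2 * h + 1 : ℕ) : ZMod 2) = 1 := by
          push_cast
          have : (2 : ZMod 2) = 0 := by decide
          rw [this]
          simp
        rw [h2] at h1
        rcases hz (par x) with h3 | h3 <;> rcases hz (par y) with h4 | h4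
        · rw [h3, h4] at h1
          exact absurd h1 (by decide)
        · have := hxy.1 h3
          rw [h4] at this
          exact absurd this (by decide)
        · have := hxy.2 h4
          rw [h3] at this
          exact absurd this (by decide)
        · rw [h3, h4] at h1
          exact absurd h1 (by decide)
      · rw [if_neg hxy]
        exact L1_even hM _
    have h1 : ∑ x ∈ V, ∑ y ∈ V, ((range (2 * M)).filter fun h => y - x = ((2 * h + 1 : ℕ) : ZMod (2 * M))).card ≤
        ∑ x ∈ V, ∑ y ∈ V, if (par x = 0 ↔ par y = 0) then 0 else 2 :=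
      Finset.sum_le_sum fun x hx => Finset.sum_le_sum fun y hy => hb x hx y hy
    have h2 : ∑ x ∈ V, ∑ y ∈ V, (if (par x = 0 ↔ par y = 0) then 0 else 2) = 4 * (V0.card * V1.card) := by
      have h3 : ∀ x ∈ V, ∑ y ∈ V, (if (par x = 0 ↔ par y = 0) then 0 else 2) =
          if par x = 0 then 2 * V1.card else 2 * V0.card := by
        intro x _
        by_cases hx : par x = 0
        · rw [if_pos hx]
          have h4 : ∀ y ∈ V, (if (par x = 0 ↔ par y = 0) then 0 else 2) = if ¬ par y = 0 then 2 else 0 := by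
            intro y _
            by_cases hy : par y = 0
            · simp [hx, hy]
            · simp [hx, hy]
          rw [Finset.sum_congr rfl h4, ← Finset.sum_filter, Finset.sum_const, smul_eq_mul, mul_comm]
        · rw [if_neg hx]
          have h4 : ∀ y ∈ V, (if (par x = 0 ↔ par y = 0) then 0 else 2) = if par y = 0 then 2 else 0 := by
            intro y _
            by_cases hy : par y = 0
            · simp [hx, hy]
            · simp [hx, hy]
          rw [Finset.sum_congr rfl h4, ← Finset.sum_filter, Finset.sum_const, smul_eq_mul, mul_comm]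
      rw [Finset.sum_congr rfl h3, Finset.sum_ite, Finset.sum_const, Finset.sum_const, smul_eq_mul, smul_eq_mul]
      change V0.card * (2 * V1.card) + V1.card * (2 * V0.card) = _
      ring
    have h5 : 4 * (V0.card * V1.card) ≤ (V0.card + V1.card) ^ 2 := by
      have : (4 * (V0.card * V1.card) : ℤ) ≤ ((V0.card : ℤ) + V1.card) ^ 2 := by nlinarith [sq_nonneg ((V0.card : ℤ) - V1.card)]
      exact_mod_cast this
    rw [hc] at h5
    exact h1.trans (h2.trans_le h5)
  · have h1 : ∑ x ∈ V, ∑ y ∈ V, ((range N).filter fun h => y - x = ((2 * h + 1 : ℕ) : ZMod N)).card ≤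
        ∑ x ∈ V, ∑ y ∈ V, 1 :=
      Finset.sum_le_sum fun x _ => Finset.sum_le_sum fun y _ => L1_odd hN ho _
    refine h1.trans (le_of_eq ?_)
    simp only [Finset.sum_const, smul_eq_mul, mul_one]
    ring

theorem odd_shift {N : ℕ} (hN : 1 ≤ N) (U : Set (ZMod N)) :
    ∃ h : ℕ, N * {x : ZMod N | x ∈ U ∧ x + ((2 * h + 1 : ℕ) : ZMod N) ∈ U}.ncard ≤ U.ncard ^ 2 := by
  classical
  haveI : NeZero N := ⟨by omega⟩
  set V : Finset (ZMod N) := U.toFinset with hV
  have hU : U.ncard = V.card := by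
    rw [hV, Set.ncard_eq_toFinset_card']
  have hW : ∀ h : ℕ, {x : ZMod N | x ∈ U ∧ x + ((2 * h + 1 : ℕ) : ZMod N) ∈ U}.ncard =
      (V.filter fun x => x + ((2 * h + 1 : ℕ) : ZMod N) ∈ V).card := by
    intro h
    rw [← Set.ncard_coe_finset]
    congr 1
    ext x
    simp [hV]
  by_contra hcon
  push Not at hcon
  have h1 : ∑ h ∈ range N, U.ncard ^ 2 < ∑ h ∈ range N, N * (V.filter fun x => x + ((2 * h + 1 : ℕ) : ZMod N) ∈ V).card := by
    refine Finset.sum_lt_sum_of_nonempty ⟨0, by simp; omega⟩ fun h _ => ?_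
    have h2 := hcon h
    rw [hW h] at h2
    exact h2
  rw [← Finset.mul_sum, Finset.sum_const, card_range, smul_eq_mul, hU] at h1
  have h3 := Nat.mul_le_mul_left N (L1_main hN V)
  omega

end Pool.Agent.SG
end

section

/-!
# L2: the layer step

One new generator `g` (odd), modulus `N → t N` (`t` a power of two), radius `r → r + t`: the density of the uncovered set is squared.

PROOF. `U := {x | x ∉ Sp b r}`. `odd_shift hN U` gives `h`; `g := 2h + 1`, `W := {x | x ∈ U ∧ x + g ∈ U}`, `N * #W ≤ #U^2`. `g` is coprime to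
`t = 2^α`. `t ≥ 1`, `ZMod (t*N)` is finite. Put `b' i := ((t * (b i).val : ℕ) : ZMod (t*N))` for `i < k` and `b' (last) := (g : ZMod (t*N))`
(`Fin.snoc`). CLAIM: `{y | y ∉ Sp b' (r+t)} ⊆` image of `range t ×ˢ W` under `(j, x) ↦ j * g + t * x.val` in `ZMod (t*N)`; so its cardinality is at
most `t * #W` and `N * (t * #W) ≤ t * #U^2`.
Proof of the claim: `y : ZMod (t*N)`, `Y := y.val`. As `g` is coprime to `t` there is `j < t` with `j * g ≡ Y mod t` (for instance
`j = (Y * g⁻¹ in ZMod t).val`; or `Nat.exists_mul_emod_eq_one_of_coprime`, `Int.gcd_eq_gcd_ab`), so `Y = j g + t z`, `z : ℤ`. Put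
`x := (z : ZMod N)`. Then `y = j g + t z = j g + t x.val` in `ZMod (t*N)` since `t (z - x.val)` is divisible by `t N`
(`(ZMod.intCast_zmod_eq_zero_iff_dvd)`, `ZMod.intCast_eq_intCast_iff`).
(i) If `x ∈ Sp b r`: `x = ∑ l_i b_i`, `∑ |l_i| ≤ r`. Then `N ∣ z - ∑ l_i (b i).val`, so `t N ∣ t z - ∑ l_i t (b i).val`, so
`y = j g + ∑ l_i b'_i ∈ Sp b' (r + j) ⊆ Sp b' (r + t)` (coefficients `Fin.snoc l j`; `Fin.sum_univ_castSucc`).
(ii) If `x + g ∈ Sp b r`: `N ∣ z + g - ∑ l_i (b i).val`, and `Y = (j - t) g + t (z + g)`, so `y = (j - t) g + ∑ l_i b'_i`, `|j - t| ≤ t`.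
So `y ∉ Sp b' (r + t)` gives `x ∉ Sp b r`, `x + g ∉ Sp b r`, i.e. `x ∈ W`.
(A useful private lemma: if `z : ℤ` and `(z : ZMod N) ∈ Sp b r`, `c : ℤ`, then `((c * g + t * z : ℤ) : ZMod (t*N)) ∈ Sp b' (r + c.natAbs)`.)
-/

set_option autoImplicit false

namespace Pool.Agent.SG

open Finset

private theorem L2_dvd {N : ℕ} [NeZero N] (z : ℤ) : (N : ℤ) ∣ z - ((z : ZMod N).val : ℤ) := by
  rw [← ZMod.intCast_zmod_eq_zero_iff_dvd]
  push_cast
  rw [ZMod.natCast_val, ZMod.cast_id', id, sub_self]

private theorem L2_key {N k r : ℕ} [NeZero N] (t : ℕ) (b : Fin k → ZMod N) (g : ℕ) (z c : ℤ)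
    (hz : (z : ZMod N) ∈ Sp b r) (s : ℕ) (hs : c.natAbs ≤ s) :
    ((c * g + t * z : ℤ) : ZMod (t * N)) ∈
      Sp (Fin.snoc (α := fun _ => ZMod (t * N)) (fun i => ((t * (b i).val : ℕ) : ZMod (t * N)))
        ((g : ℕ) : ZMod (t * N))) (r + s) := by
  obtain ⟨l, hl, hx⟩ := hz
  refine ⟨Fin.snoc (α := fun _ => ℤ) l c, ?_, ?_⟩
  · rw [Fin.sum_univ_castSucc]
    simp only [Fin.snoc_castSucc, Fin.snoc_last]
    omega
  · rw [Fin.sum_univ_castSucc]
    simp only [Fin.snoc_castSucc, Fin.snoc_last]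
    have h1 : (N : ℤ) ∣ z - ∑ i, l i * ((b i).val : ℤ) := by
      rw [← ZMod.intCast_zmod_eq_zero_iff_dvd]
      push_cast
      simp only [ZMod.natCast_val, ZMod.cast_id', id]
      rw [hx, sub_self]
    obtain ⟨w, hw⟩ := h1
    have h2 : (c * g + t * z : ℤ) = (c * g + t * ∑ i, l i * ((b i).val : ℤ)) + (t * N) * w := by
      linear_combination (t : ℤ) * hw
    rw [h2]
    push_cast
    have h3 : ((t : ZMod (t * N)) * (N : ZMod (t * N))) = 0 := by
      rw [← Nat.cast_mul, ZMod.natCast_self]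
    rw [h3, zero_mul, add_zero, add_comm, Finset.mul_sum]
    congr 1
    refine Finset.sum_congr rfl fun i _ => by ring

theorem layer {N k r t : ℕ} (hN : 1 ≤ N) (ht : ∃ α : ℕ, t = 2 ^ α) (b : Fin k → ZMod N) :
    ∃ b' : Fin (k + 1) → ZMod (t * N),
      N * {x | x ∉ Sp b' (r + t)}.ncard ≤ t * {x | x ∉ Sp b r}.ncard ^ 2 := by
  classical
  haveI : NeZero N := ⟨by omega⟩
  obtain ⟨α, hα⟩ := ht
  have ht0 : 0 < t := by rw [hα]; positivity
  haveI : NeZero (t * N) := ⟨(Nat.mul_pos ht0 (by omega)).ne'⟩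
  obtain ⟨h, hh⟩ := odd_shift hN {x | x ∉ Sp b r}
  obtain ⟨g, hg⟩ : ∃ g, g = 2 * h + 1 := ⟨_, rfl⟩
  rw [← hg] at hh
  obtain ⟨W, hW⟩ : ∃ W : Set (ZMod N), W = {x : ZMod N | x ∈ {x | x ∉ Sp b r} ∧
    x + ((g : ℕ) : ZMod N) ∈ {x | x ∉ Sp b r}} := ⟨_, rfl⟩
  rw [← hW] at hh
  have hcop : IsCoprime (g : ℤ) (t : ℤ) := by
    rw [Nat.isCoprime_iff_coprime, hα, hg]
    exact Nat.Coprime.pow_right α (by simp)
  obtain ⟨u, v, huv⟩ := hcop
  refine ⟨Fin.snoc (α := fun _ => ZMod (t * N)) (fun i => ((t * (b i).val : ℕ) : ZMod (t * N)))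
        ((g : ℕ) : ZMod (t * N)), ?_⟩
  obtain ⟨F, hF⟩ : ∃ F : ℕ × ZMod N → ZMod (t * N),
    F = fun p => ((p.1 * g + t * p.2.val : ℕ) : ZMod (t * N)) := ⟨_, rfl⟩
  have hsub : {y | y ∉ Sp (Fin.snoc (α := fun _ => ZMod (t * N))
      (fun i => ((t * (b i).val : ℕ) : ZMod (t * N))) ((g : ℕ) : ZMod (t * N))) (r + t)} ⊆
      ((Finset.range t ×ˢ W.toFinset).image F : Finset (ZMod (t * N))) := by
    intro y hy
    obtain ⟨j, z, hj0, hjt, hY⟩ : ∃ j z : ℤ, 0 ≤ j ∧ j < t ∧ (y.val : ℤ) = j * g + t * z := by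
      have ht1 : (0 : ℤ) < t := by exact_mod_cast ht0
      refine ⟨((y.val : ℤ) * u) % t, ((y.val : ℤ) * u) / t * g + y.val * v,
        Int.emod_nonneg _ ht1.ne', Int.emod_lt_of_pos _ ht1, ?_⟩
      have h1 := Int.emod_add_mul_ediv ((y.val : ℤ) * u) t
      linear_combination (g : ℤ) * (-h1) - (y.val : ℤ) * huv
    have hyz : y = ((j * g + t * z : ℤ) : ZMod (t * N)) := by
      rw [← hY]
      push_cast
      rw [ZMod.natCast_val, ZMod.cast_id', id]
    have hx1 : (z : ZMod N) ∉ Sp b r := by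
      intro hx
      apply hy
      rw [hyz]
      exact L2_key t b g z j hx t (by omega)
    have hx2 : (z : ZMod N) + ((g : ℕ) : ZMod N) ∉ Sp b r := by
      intro hx
      apply hy
      rw [hyz]
      have h3 : (j * g + t * z : ℤ) = (j - t) * g + t * (z + g) := by ring
      rw [h3]
      exact L2_key t b g (z + g) (j - t) (by push_cast; exact hx) t (by omega)
    rw [Finset.coe_image]
    refine ⟨(j.toNat, (z : ZMod N)), ?_, ?_⟩
    · rw [Finset.mem_coe, Finset.mem_product, Finset.mem_range, Set.mem_toFinset, hW]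
      exact ⟨by omega, hx1, hx2⟩
    · rw [hyz, hF]
      obtain ⟨w, hw⟩ := L2_dvd (N := N) z
      have h4 : (j * g + t * z : ℤ) = ((j.toNat * g + t * (z : ZMod N).val : ℕ) : ℤ) + (t * N) * w := by
        push_cast
        rw [Int.toNat_of_nonneg hj0]
        linear_combination (t : ℤ) * hw
      rw [h4]
      push_cast
      have h3 : ((t : ZMod (t * N)) * (N : ZMod (t * N))) = 0 := by
        rw [← Nat.cast_mul, ZMod.natCast_self]
      rw [h3, zero_mul, add_zero]
  have hcard : {y | y ∉ Sp (Fin.snoc (α := fun _ => ZMod (t * N))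
      (fun i => ((t * (b i).val : ℕ) : ZMod (t * N))) ((g : ℕ) : ZMod (t * N))) (r + t)}.ncard ≤
      t * W.ncard := by
    refine (Set.ncard_le_ncard hsub (Finset.finite_toSet _)).trans ?_
    rw [Set.ncard_coe_finset]
    refine Finset.card_image_le.trans ?_
    rw [Finset.card_product, Finset.card_range, Set.ncard_eq_toFinset_card']
  calc N * _ ≤ N * (t * W.ncard) := Nat.mul_le_mul_left N hcard
    _ = t * (N * W.ncard) := by ring
    _ ≤ t * {x | x ∉ Sp b r}.ncard ^ 2 := Nat.mul_le_mul_left t hh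

end Pool.Agent.SG
end

section

/-!
# A1: the numbers `a(m,s)`: symmetry, recursion, monotonicity

PROOF. The sum over `range (s + 1)` is equal to the sum over `range (K + 1)` for every `K ≥ s` and every `K ≥ m` also gives the
same value (`Nat.choose_eq_zero_of_lt`), so `a m s = ∑ i ∈ range (m + s + 1), C(m,i) C(s,i) 2^i`: symmetric.
`a_succ_succ`: by Pascal `C(m+1,i) C(s+1,i) = (C(m,i)+C(m,i-1))(C(s,i)+C(s,i-1))`; it is convenient to prove first
(S) `a (m+1) s = a m s + 2 * ∑ i, C(m,i) C(s,i+1) 2^i` and (S') `∑ i, C(m,i) C(s+1,i+1) 2^i = ∑ i, C(m,i) C(s,i+1) 2^i + a m s`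
(`Finset.sum_range_succ'`, `Nat.choose_succ_succ`); then `a (m+1) (s+1) - a m (s+1) = 2 X(s+1) = 2 X(s) + 2 a m s` and
`a (m+1) s - a m s = 2 X(s)`, so `a (m+1) (s+1) - a m (s+1) = a (m+1) s - a m s + 2 a m s`.
`a_mono`: `Nat.choose_le_choose` termwise, or the recursion.
-/

set_option autoImplicit false

namespace Pool.Agent.SG

open Finset

private theorem A1_ext (m s K : ℕ) (h : s + 1 ≤ K) :
    a m s = ∑ i ∈ range K, m.choose i * s.choose i * 2 ^ i := by
  unfold a
  refine Finset.sum_subset (Finset.range_mono h) ?_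
  intro i _ hi
  rw [Finset.mem_range, not_lt] at hi
  rw [Nat.choose_eq_zero_of_lt (show s < i by omega)]
  simp

theorem a_zero_right (m : ℕ) : a m 0 = 1 := by
  simp [a]

theorem a_symm (m s : ℕ) : a m s = a s m := by
  rw [A1_ext m s (m + s + 1) (by omega), A1_ext s m (m + s + 1) (by omega)]
  refine Finset.sum_congr rfl fun i _ => ?_
  rw [Nat.mul_comm (m.choose i)]

theorem a_zero_left (s : ℕ) : a 0 s = 1 := by
  rw [a_symm, a_zero_right]

private theorem A1_S (m s K : ℕ) (h : s + 1 ≤ K) :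
    a (m + 1) s = a m s + 2 * ∑ i ∈ range K, m.choose i * s.choose (i + 1) * 2 ^ i := by
  rw [A1_ext (m + 1) s (K + 1) (by omega), A1_ext m s (K + 1) (by omega), Finset.sum_range_succ',
    Finset.sum_range_succ', Finset.mul_sum]
  simp only [Nat.choose_zero_right, pow_zero, mul_one]
  rw [add_right_comm, ← Finset.sum_add_distrib]
  congr 1
  refine Finset.sum_congr rfl fun i _ => ?_
  rw [Nat.choose_succ_succ m i, pow_succ]
  ring

private theorem A1_S' (m s K : ℕ) (h : s + 1 ≤ K) :
    ∑ i ∈ range K, m.choose i * (s + 1).choose (i + 1) * 2 ^ i =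
      ∑ i ∈ range K, m.choose i * s.choose (i + 1) * 2 ^ i + a m s := by
  rw [A1_ext m s K h, ← Finset.sum_add_distrib]
  refine Finset.sum_congr rfl fun i _ => ?_
  rw [Nat.choose_succ_succ s i]
  ring

theorem a_succ_succ (m s : ℕ) : a (m + 1) (s + 1) = a m (s + 1) + a (m + 1) s + a m s := by
  have h1 := A1_S m (s + 1) (s + 2) (by omega)
  have h2 := A1_S m s (s + 2) (by omega)
  have h3 := A1_S' m s (s + 2) (by omega)
  rw [h3] at h1
  omega

theorem a_mono {m m' s s' : ℕ} (h : m ≤ m') (h' : s ≤ s') : a m s ≤ a m' s' := by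
  rw [A1_ext m s (s' + 1) (by omega), A1_ext m' s' (s' + 1) (by omega)]
  refine Finset.sum_le_sum fun i _ => ?_
  exact Nat.mul_le_mul_right _ (Nat.mul_le_mul (Nat.choose_le_choose i h) (Nat.choose_le_choose i h'))

theorem one_le_a (m s : ℕ) : 1 ≤ a m s := by
  rw [← a_zero_right 0]
  exact a_mono (Nat.zero_le _) (Nat.zero_le _)

end Pool.Agent.SG
end

section

/-!
# B1: the ball of radius `r` in `ℤ^k` has `a(k,r)` elements

PROOF. `mem_Bl`: if `∑ |l_i| ≤ r` then every `|l_i| ≤ r`. `card_Bl`: induction on `k`, for all `r`. `k = 0`: one point. Step: the first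
coordinate `j = l 0` of a point of `Bl (k+1) r` has `|j| ≤ r` and the tail is in `Bl k (r - |j|)` (`Fin.consEquiv` / `Fin.cons`,
`Fin.sum_univ_succ`; `Finset.card_sigma` or `Finset.card_eq_sum_card_fiberwise` over `j ∈ Icc (-r) r`), so
`card (Bl (k+1) r) = ∑ j ∈ Icc (-r) r, a k (r - |j|) = a k r + 2 ∑ j ∈ range r, a k j`; and by `a_succ_succ` (induction on `r`)
`a (k+1) r = a k r + 2 ∑ j ∈ range r, a k j` (for `r = 0` both sides are `1`).
(One may also prove `card (Bl (k+1) (r+1)) = card (Bl k (r+1)) + card (Bl (k+1) r) + card (Bl k r)` by bijections: first coordinate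
`0`, first coordinate `> 0` (subtract `1`: first coordinate `≥ 0` in `Bl (k+1) r`), first coordinate `< 0`.)
-/

set_option autoImplicit false

namespace Pool.Agent.SG

open Finset

theorem mem_Bl {k r : ℕ} {l : Fin k → ℤ} : l ∈ Bl k r ↔ ∑ i, (l i).natAbs ≤ r := by
  unfold Bl
  rw [Finset.mem_filter, Fintype.mem_piFinset]
  constructor
  · exact fun h => h.2
  · intro h
    refine ⟨fun i => ?_, h⟩
    have h1 : (l i).natAbs ≤ ∑ i, (l i).natAbs :=
      Finset.single_le_sum (f := fun i => (l i).natAbs) (fun _ _ => Nat.zero_le _)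
        (Finset.mem_univ i)
    rw [Finset.mem_Icc]
    omega

private theorem B1_sum (g : ℕ → ℕ) (r : ℕ) :
    ∑ j ∈ Finset.Icc (-(r : ℤ)) r, g j.natAbs = g 0 + 2 * ∑ i ∈ range r, g (i + 1) := by
  induction r with
  | zero => simp
  | succ r ih =>
    have h1 : Finset.Icc (-((r + 1 : ℕ) : ℤ)) ((r + 1 : ℕ) : ℤ) =
        insert (-((r + 1 : ℕ) : ℤ)) (insert (((r + 1 : ℕ) : ℤ)) (Finset.Icc (-(r : ℤ)) r)) := by
      ext x
      rw [Finset.mem_insert, Finset.mem_insert, Finset.mem_Icc, Finset.mem_Icc]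
      omega
    have h2 : (((r + 1 : ℕ) : ℤ)) ∉ Finset.Icc (-(r : ℤ)) r := by
      rw [Finset.mem_Icc]
      omega
    have h3 : (-((r + 1 : ℕ) : ℤ)) ∉ insert (((r + 1 : ℕ) : ℤ)) (Finset.Icc (-(r : ℤ)) r) := by
      rw [Finset.mem_insert, Finset.mem_Icc]
      omega
    rw [h1, Finset.sum_insert h3, Finset.sum_insert h2, ih, Finset.sum_range_succ, Int.natAbs_neg,
      Int.natAbs_natCast]
    ring

private theorem B1_rec (k r : ℕ) : a (k + 1) r = a k r + 2 * ∑ j ∈ range r, a k j := by
  induction r with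
  | zero => rw [a_zero_right, a_zero_right]; simp
  | succ r ih =>
    rw [a_succ_succ, ih, Finset.sum_range_succ]
    ring

theorem card_Bl (k r : ℕ) : (Bl k r).card = a k r := by
  induction k generalizing r with
  | zero =>
    rw [a_zero_left]
    apply Finset.card_eq_one.2
    refine ⟨fun i => i.elim0, ?_⟩
    ext l
    rw [mem_Bl, Finset.mem_singleton]
    constructor
    · intro _
      funext i
      exact i.elim0
    · intro _
      simp
  | succ k ih =>
    have h1 : ∀ l ∈ Bl (k + 1) r, l 0 ∈ Finset.Icc (-(r : ℤ)) r := by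
      intro l hl
      rw [mem_Bl, Fin.sum_univ_succ] at hl
      rw [Finset.mem_Icc]
      omega
    rw [Finset.card_eq_sum_card_fiberwise h1]
    have h2 : ∀ j ∈ Finset.Icc (-(r : ℤ)) r,
        ((Bl (k + 1) r).filter fun l => l 0 = j).card = a k (r - j.natAbs) := by
      intro j hj
      rw [Finset.mem_Icc] at hj
      rw [← ih]
      refine Finset.card_nbij' (fun l i => l i.succ) (fun l => Fin.cons j l) ?_ ?_ ?_ ?_
      · intro l hl
        rw [Finset.mem_coe, Finset.mem_filter, mem_Bl, Fin.sum_univ_succ] at hl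
        obtain ⟨hl1, hl2⟩ := hl
        rw [Finset.mem_coe, mem_Bl]
        rw [hl2] at hl1
        change ∑ i : Fin k, (l i.succ).natAbs ≤ r - j.natAbs
        omega
      · intro l hl
        rw [Finset.mem_coe, mem_Bl] at hl
        rw [Finset.mem_coe, Finset.mem_filter, mem_Bl, Fin.sum_univ_succ]
        simp only [Fin.cons_zero, Fin.cons_succ]
        refine ⟨?_, trivial⟩
        omega
      · intro l hl
        rw [Finset.mem_coe, Finset.mem_filter] at hl
        obtain ⟨-, hl2⟩ := hl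
        funext i
        refine Fin.cases ?_ (fun i => ?_) i
        · simp only [Fin.cons_zero]
          exact hl2.symm
        · simp only [Fin.cons_succ]
      · intro l _
        funext i
        simp only [Fin.cons_succ]
    rw [Finset.sum_congr rfl h2, B1_sum (fun t => a k (r - t)) r, B1_rec]
    have h3 : ∑ i ∈ range r, a k (r - (i + 1)) = ∑ j ∈ range r, a k j := by
      rw [← Finset.sum_range_reflect (fun j => a k j) r]
      refine Finset.sum_congr rfl fun i _ => ?_
      rw [Nat.sub_sub, Nat.add_comm 1 i]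
    simp only [Nat.sub_zero]
    rw [h3]

end Pool.Agent.SG
end

section

/-!
# M1: a random tuple covers a large part (second moment)

PROOF. `card_ker`: let `μ j ≠ 0`; translation in the coordinate `j` shows that all fibres of the surjective linear form `b ↦ ∑ μ_i b_i` have
the same size (or: rank-nullity / `Module.card_eq_pow_finrank`; or the map `b ↦ (∑ μ_i b_i, b without j)` is a bijection; or
`AddMonoidHom` : `card domain = card kernel * card range`, `Nat.card`-version `AddSubgroup.card_eq_card_quotient_mul_card_addSubgroup`).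
`exists_cover`: for `b` let `N b x := #{l ∈ Bl k r | ∑ l_i b_i = x}`; `∑ x, N b x = #(Bl k r) = a` (`card_Bl`). `∑ x, (N b x)^2` is the
number of pairs `(l, l') ∈ Bl × Bl` with the same value at `b`. Sum over `b`: pairs with `l = l'` give `a p^k`; for `l ≠ l'` the vector
`l - l'` has entries of absolute value `≤ 2r < p`, not all `0`, so it is nonzero modulo `p` (`ZMod.intCast_zmod_eq_zero_iff_dvd`,
`Int.eq_zero_of_abs_lt_dvd`) and `card_ker` gives `p^k / p` tuples `b`. So `∑ b, ∑ x, (N b x)^2 ≤ p^k (a + a^2/p)` and there is `b` with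
`∑ x, (N b x)^2 ≤ a + a^2/p` (`Finset.exists_le_of_sum_le`). Cauchy-Schwarz over the set `S` of the `x` with `N b x ≠ 0`
(`sq_sum_le_card_mul_sum_sq`): `a^2 ≤ #S (a + a^2/p)`, i.e. `a p ≤ #S (p + a)`. The complement `U` of `S` is the set of the statement
and `#U = p - #S`, so `#U (1 + a/p) = (p - #S)(p + a)/p ≤ (p (p+a) - a p)/p = p`.
-/

set_option autoImplicit false

namespace Pool.Agent.SG

open Finset
open scoped Classical

theorem card_ker {p k : ℕ} [Fact p.Prime] (μ : Fin k → ZMod p) (hμ : μ ≠ 0) :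
    (univ.filter fun b : Fin k → ZMod p => ∑ i, μ i * b i = 0).card * p = p ^ k := by
  obtain ⟨j, hj⟩ : ∃ j, μ j ≠ 0 := by
    by_contra hcon
    push Not at hcon
    exact hμ (funext hcon)
  have hs : ∀ (b : Fin k → ZMod p) (t : ZMod p),
      ∑ i, μ i * (b + Pi.single j t : Fin k → ZMod p) i = ∑ i, μ i * b i + μ j * t := by
    intro b t
    simp only [Pi.add_apply, mul_add, Finset.sum_add_distrib]
    congr 1
    rw [Finset.sum_eq_single j]
    · rw [Pi.single_eq_same]
    · intro i _ hi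
      rw [Pi.single_eq_of_ne hi, mul_zero]
    · intro h
      exact absurd (Finset.mem_univ j) h
  have hfib : ∀ c : ZMod p,
      (univ.filter fun b : Fin k → ZMod p => ∑ i, μ i * b i = c).card =
      (univ.filter fun b : Fin k → ZMod p => ∑ i, μ i * b i = 0).card := by
    intro c
    refine Finset.card_bij' (fun b _ => b + Pi.single j (-(c / μ j)))
      (fun b _ => b + Pi.single j (c / μ j)) ?_ ?_ ?_ ?_
    · intro b hb
      rw [Finset.mem_filter] at hb ⊢
      refine ⟨Finset.mem_univ _, ?_⟩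
      rw [hs, hb.2]
      field_simp
      ring
    · intro b hb
      rw [Finset.mem_filter] at hb ⊢
      refine ⟨Finset.mem_univ _, ?_⟩
      rw [hs, hb.2]
      field_simp
      ring
    · intro b _
      funext i
      simp only [Pi.add_apply, add_assoc]
      rcases eq_or_ne i j with h | h
      · subst h
        simp
      · simp [Pi.single_eq_of_ne h]
    · intro b _
      funext i
      simp only [Pi.add_apply, add_assoc]
      rcases eq_or_ne i j with h | h
      · subst h
        simp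
      · simp [Pi.single_eq_of_ne h]
  have htot := Finset.card_eq_sum_card_fiberwise
    (f := fun b : Fin k → ZMod p => ∑ i, μ i * b i) (s := univ) (t := univ)
    (fun _ _ => Finset.mem_coe.mpr (Finset.mem_univ _))
  rw [Finset.sum_congr rfl (fun c _ => hfib c), Finset.sum_const, Finset.card_univ,
    Finset.card_univ, ZMod.card, Fintype.card_fun, ZMod.card, Fintype.card_fin,
    smul_eq_mul] at htot
  rw [htot, mul_comm]

theorem exists_cover {p k r : ℕ} [Fact p.Prime] (hr : 2 * r < p) :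
    ∃ b : Fin k → ZMod p,
      ((univ.filter fun x : ZMod p => x ∉ Sp b r).card : ℝ) * (1 + (a k r : ℝ) / p) ≤ p := by
  have hp : 0 < p := (Fact.out : p.Prime).pos
  have hpR : (0 : ℝ) < p := by exact_mod_cast hp
  have hBc : (Bl k r).card = a k r := card_Bl k r
  have ha0 : (0 : ℝ) < (a k r : ℝ) := by
    rw [← hBc]
    have : (0 : Fin k → ℤ) ∈ Bl k r := by
      rw [mem_Bl]
      simp
    exact_mod_cast Finset.card_pos.mpr ⟨_, this⟩
  let val : (Fin k → ZMod p) → (Fin k → ℤ) → ZMod p := fun b l => ∑ i, (l i : ZMod p) * b i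
  have habs : ∀ l ∈ Bl k r, ∀ i, |l i| ≤ (r : ℤ) := by
    intro l hl i
    rw [mem_Bl] at hl
    have h1 : (l i).natAbs ≤ ∑ i, (l i).natAbs :=
      Finset.single_le_sum (f := fun i => (l i).natAbs) (fun _ _ => Nat.zero_le _)
        (Finset.mem_univ i)
    have h2 : (l i).natAbs ≤ r := h1.trans hl
    rw [Int.abs_eq_natAbs]
    exact_mod_cast h2
  have hpair : ∀ l ∈ Bl k r, ∀ l' ∈ Bl k r, l ≠ l' →
      ((univ.filter fun b : Fin k → ZMod p => val b l = val b l').card : ℝ) =
        (p : ℝ) ^ k / p := by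
    intro l hl l' hl' hne
    have hμ : (fun i => ((l i - l' i : ℤ) : ZMod p)) ≠ 0 := by
      intro h0
      apply hne
      funext i
      have h1 : ((l i - l' i : ℤ) : ZMod p) = 0 := congrFun h0 i
      rw [ZMod.intCast_zmod_eq_zero_iff_dvd] at h1
      have h2 : |l i - l' i| < p := by
        have h3 := habs l hl i
        have h4 := habs l' hl' i
        have h5 : (2 * r : ℤ) < p := by exact_mod_cast hr
        rw [abs_le] at h3 h4
        rw [abs_lt]
        constructor <;> linarith [h3.1, h3.2, h4.1, h4.2]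
      have h3 := Int.eq_zero_of_abs_lt_dvd h1 h2
      linarith
    have h1 := card_ker _ hμ
    have h2 : (univ.filter fun b : Fin k → ZMod p => val b l = val b l') =
        univ.filter fun b : Fin k → ZMod p => ∑ i, ((l i - l' i : ℤ) : ZMod p) * b i = 0 := by
      apply Finset.filter_congr
      intro b _
      show (∑ i, (l i : ZMod p) * b i = ∑ i, (l' i : ZMod p) * b i) ↔ _
      push_cast
      simp only [sub_mul, Finset.sum_sub_distrib, sub_eq_zero]
    rw [h2, eq_div_iff hpR.ne']
    exact_mod_cast h1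
  -- the number of pairs
  let Nn : (Fin k → ZMod p) → ZMod p → ℝ := fun b x =>
    ∑ l ∈ Bl k r, if val b l = x then (1 : ℝ) else 0
  have hNsum : ∀ b, ∑ x, Nn b x = (a k r : ℝ) := by
    intro b
    show ∑ x, ∑ l ∈ Bl k r, (if val b l = x then (1 : ℝ) else 0) = _
    rw [Finset.sum_comm]
    simp only [Finset.sum_ite_eq, Finset.mem_univ, if_true]
    rw [Finset.sum_const, nsmul_eq_mul, mul_one, hBc]
  have hNsq : ∀ b, ∑ x, Nn b x ^ 2 =
      ∑ l ∈ Bl k r, ∑ l' ∈ Bl k r, if val b l = val b l' then (1 : ℝ) else 0 := by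
    intro b
    have h1 : ∀ x, Nn b x ^ 2 = ∑ l ∈ Bl k r, ∑ l' ∈ Bl k r,
        if val b l = x then (if val b l' = x then (1 : ℝ) else 0) else 0 := by
      intro x
      rw [sq]
      show (∑ l ∈ Bl k r, if val b l = x then (1 : ℝ) else 0) *
        (∑ l ∈ Bl k r, if val b l = x then (1 : ℝ) else 0) = _
      rw [Finset.sum_mul_sum]
      refine Finset.sum_congr rfl fun l _ => Finset.sum_congr rfl fun l' _ => ?_
      split_ifs <;> simp
    rw [Finset.sum_congr rfl fun x _ => h1 x, Finset.sum_comm]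
    refine Finset.sum_congr rfl fun l _ => ?_
    rw [Finset.sum_comm]
    refine Finset.sum_congr rfl fun l' _ => ?_
    rw [Finset.sum_ite_eq]
    simp only [Finset.mem_univ, if_true]
    by_cases h : val b l = val b l'
    · rw [if_pos h, if_pos h.symm]
    · rw [if_neg h, if_neg (fun h' => h h'.symm)]
  have hcardb : (univ : Finset (Fin k → ZMod p)).card = p ^ k := by
    rw [Finset.card_univ, Fintype.card_fun, ZMod.card, Fintype.card_fin]
  have htotal : ∑ b : Fin k → ZMod p, ∑ x, Nn b x ^ 2 ≤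
      ∑ _b : Fin k → ZMod p, ((a k r : ℝ) + (a k r : ℝ) ^ 2 / p) := by
    rw [Finset.sum_const, hcardb, nsmul_eq_mul, Finset.sum_congr rfl fun b _ => hNsq b,
      Finset.sum_comm]
    have h1 : ∀ l ∈ Bl k r, ∑ b : Fin k → ZMod p, ∑ l' ∈ Bl k r,
        (if val b l = val b l' then (1 : ℝ) else 0) ≤
        (p : ℝ) ^ k + (a k r : ℝ) * ((p : ℝ) ^ k / p) := by
      intro l hl
      rw [Finset.sum_comm]
      have h2 : ∀ l' ∈ Bl k r, ∑ b : Fin k → ZMod p,
          (if val b l = val b l' then (1 : ℝ) else 0) ≤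
          (if l = l' then (p : ℝ) ^ k else 0) + (p : ℝ) ^ k / p := by
        intro l' hl'
        have h3 : ∑ b : Fin k → ZMod p, (if val b l = val b l' then (1 : ℝ) else 0) =
            ((univ.filter fun b : Fin k → ZMod p => val b l = val b l').card : ℝ) := by
          rw [Finset.sum_boole]
        rw [h3]
        by_cases h : l = l'
        · rw [if_pos h]
          have h4 : ((univ.filter fun b : Fin k → ZMod p => val b l = val b l').card : ℝ) ≤
              (p : ℝ) ^ k := by
            have := Finset.card_le_card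
              (Finset.filter_subset (fun b : Fin k → ZMod p => val b l = val b l') univ)
            rw [hcardb] at this
            exact_mod_cast this
          have h5 : (0 : ℝ) ≤ (p : ℝ) ^ k / p := by positivity
          linarith
        · rw [if_neg h, hpair l hl l' hl' h, zero_add]
      refine (Finset.sum_le_sum h2).trans (le_of_eq ?_)
      rw [Finset.sum_add_distrib, Finset.sum_ite_eq, if_pos hl, Finset.sum_const, hBc,
        nsmul_eq_mul]
    refine (Finset.sum_le_sum h1).trans (le_of_eq ?_)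
    rw [Finset.sum_const, hBc, nsmul_eq_mul]
    push_cast
    ring
  obtain ⟨b, _, hb⟩ := Finset.exists_le_of_sum_le (s := (univ : Finset (Fin k → ZMod p)))
    ⟨0, Finset.mem_univ _⟩ htotal
  refine ⟨b, ?_⟩
  set S : Finset (ZMod p) := univ.filter fun x : ZMod p => x ∈ Sp b r with hS
  have hU : ((univ.filter fun x : ZMod p => x ∉ Sp b r).card : ℝ) + (S.card : ℝ) = p := by
    have h1 := Finset.card_filter_add_card_filter_not (s := (univ : Finset (ZMod p)))
      (fun x : ZMod p => x ∈ Sp b r)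
    rw [Finset.card_univ, ZMod.card] at h1
    rw [hS]
    have h2 : (((univ.filter fun x : ZMod p => x ∈ Sp b r).card +
      (univ.filter fun x : ZMod p => x ∉ Sp b r).card : ℕ) : ℝ) = p := by rw [h1]
    push_cast at h2
    linarith
  have hzero : ∀ x, x ∉ S → Nn b x = 0 := by
    intro x hx
    apply Finset.sum_eq_zero
    intro l hl
    rw [if_neg]
    intro h
    apply hx
    rw [hS, Finset.mem_filter]
    exact ⟨Finset.mem_univ _, l, mem_Bl.mp hl, h⟩
  have hsumS : ∑ x ∈ S, Nn b x = (a k r : ℝ) := by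
    rw [← hNsum b]
    exact Finset.sum_subset (Finset.subset_univ _) fun x _ hx => hzero x hx
  have hsqS : ∑ x ∈ S, Nn b x ^ 2 ≤ ∑ x, Nn b x ^ 2 :=
    Finset.sum_le_sum_of_subset_of_nonneg (Finset.subset_univ _) fun _ _ _ => sq_nonneg _
  have hcs := sq_sum_le_card_mul_sum_sq (s := S) (f := Nn b)
  rw [hsumS] at hcs
  have hc1 : (a k r : ℝ) ^ 2 ≤ (S.card : ℝ) * ((a k r : ℝ) + (a k r : ℝ) ^ 2 / p) :=
    hcs.trans (mul_le_mul_of_nonneg_left (hsqS.trans hb) (Nat.cast_nonneg _))
  have hc2 : (a k r : ℝ) ≤ (S.card : ℝ) * (1 + (a k r : ℝ) / p) := by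
    have e : (S.card : ℝ) * ((a k r : ℝ) + (a k r : ℝ) ^ 2 / p) =
        (a k r : ℝ) * ((S.card : ℝ) * (1 + (a k r : ℝ) / p)) := by ring
    rw [e, sq] at hc1
    exact le_of_mul_le_mul_left hc1 ha0
  have e2 : ((univ.filter fun x : ZMod p => x ∉ Sp b r).card : ℝ) * (1 + (a k r : ℝ) / p) =
      (p : ℝ) * (1 + (a k r : ℝ) / p) - (S.card : ℝ) * (1 + (a k r : ℝ) / p) := by
    rw [← hU]
    ring
  have e3 : (p : ℝ) * (1 + (a k r : ℝ) / p) = p + a k r := by
    field_simp
  rw [e2, e3]
  linarith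

end Pool.Agent.SG
end

section

/-!
# M2: completion in `J` stages

PROOF. `stage`: `∑ c, #{x ∈ U | ∀ i, x - c_i ∈ U} = ∑ x ∈ U, ∏ i, #{y | x - y ∈ U} = #U * #U ^ t = #U^(t+1)` (exchange the sums; the number
of `c : Fin t → ZMod p` with all `x - c_i ∈ U` is `#U ^ t`: `Fintype.card_piFinset` for `Fintype.piFinset fun _ => U.image (x - ·)`), and there
are `p ^ t` tuples `c` (`Finset.exists_le_of_sum_le`).
`complete`: let `d j := k + j * t` and claim by induction on `j`: there is `b : Fin (k + j*t) → ZMod p` such that the set `U_j` of the points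
outside `Sp b (r + j)` has `#U_j ≤ p ε^((t+1)^j)`, `ε := 1 / (1 + a(k,r)/p)`. `j = 0`: `exists_cover` (cast `Fin (k + 0 * t)`).
Step: `stage` for `U_j` gives `c : Fin t → ZMod p`; `b' := Fin.append b c : Fin (k + j*t + t)` (cast along `k + (j+1)*t = k + j*t + t`,
`Fin.cast`; a general lemma `Sp (b ∘ Fin.cast h) r = Sp b r` by `subst`). If `x ∉ Sp b' (r + j + 1)` then `x ∉ Sp b (r+j)` and `x - c_i ∉ Sp b (r+j)`
for all `i` (append the coefficient vector `Pi.single i 1` or `0`; `Fin.sum_univ_add`, `Fin.append_left`, `Fin.append_right`), so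
`U_(j+1) ⊆ {x ∈ U_j | ∀ i, x - c_i ∈ U_j}` and `#U_(j+1) ≤ #U_j^(t+1)/p^t ≤ p (ε^((t+1)^j))^(t+1)`.
At the end `#U_J ≤ p / (1 + a/p)^((t+1)^J) < 1`, so `U_J = ∅`.
-/

set_option autoImplicit false

namespace Pool.Agent.SG

open Finset
open scoped Classical

private lemma m2_cast {n m m' : ℕ} (h : m = m') (b : Fin m' → ZMod n) (r : ℕ) :
    Sp (b ∘ Fin.cast h) r = Sp b r := by
  subst h
  rfl

private lemma m2_mono {n m r r' : ℕ} {b : Fin m → ZMod n} (h : r ≤ r') {x : ZMod n}
    (hx : x ∈ Sp b r) : x ∈ Sp b r' := by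
  obtain ⟨l, h1, h2⟩ := hx
  exact ⟨l, h1.trans h, h2⟩

private lemma m2_append {n m t r : ℕ} {b : Fin m → ZMod n} (c : Fin t → ZMod n) {y : ZMod n}
    (hy : y ∈ Sp b r) (μ : Fin t → ℤ) :
    y + ∑ i, (μ i : ZMod n) * c i ∈ Sp (Fin.append b c) (r + ∑ i, (μ i).natAbs) := by
  obtain ⟨l, h1, h2⟩ := hy
  refine ⟨Fin.append l μ, ?_, ?_⟩
  · rw [Fin.sum_univ_add]
    simp only [Fin.append_left, Fin.append_right]
    omega
  · rw [Fin.sum_univ_add]
    simp only [Fin.append_left, Fin.append_right]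
    rw [h2]

theorem stage {p : ℕ} [Fact p.Prime] (U : Finset (ZMod p)) (t : ℕ) :
    ∃ c : Fin t → ZMod p,
      (U.filter fun x => ∀ i, x - c i ∈ U).card * p ^ t ≤ U.card ^ (t + 1) := by
  have hc : ∀ x, (univ.filter fun c : Fin t → ZMod p => ∀ i, x - c i ∈ U).card = U.card ^ t := by
    intro x
    have e : (univ.filter fun c : Fin t → ZMod p => ∀ i, x - c i ∈ U) =
        Fintype.piFinset (fun _ => U.image (fun y => x - y)) := by
      ext c
      simp only [mem_filter, mem_univ, true_and, Fintype.mem_piFinset, mem_image]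
      constructor
      · intro h i
        exact ⟨x - c i, h i, by ring⟩
      · intro h i
        obtain ⟨y, hy, e⟩ := h i
        rw [← e, sub_sub_cancel]
        exact hy
    rw [e, Fintype.card_piFinset, prod_const, card_univ, Fintype.card_fin,
      card_image_of_injective _ sub_right_injective]
  have hs : ∑ c : Fin t → ZMod p, (U.filter fun x => ∀ i, x - c i ∈ U).card =
      U.card ^ (t + 1) := by
    calc ∑ c : Fin t → ZMod p, (U.filter fun x => ∀ i, x - c i ∈ U).card
        = ∑ c : Fin t → ZMod p, ∑ x ∈ U, if ∀ i, x - c i ∈ U then 1 else 0 := by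
          refine sum_congr rfl fun c _ => ?_
          rw [card_filter]
      _ = ∑ x ∈ U, ∑ c : Fin t → ZMod p, if ∀ i, x - c i ∈ U then 1 else 0 := sum_comm
      _ = ∑ x ∈ U, U.card ^ t := by
          refine sum_congr rfl fun x _ => ?_
          rw [← card_filter]
          exact hc x
      _ = U.card ^ (t + 1) := by
          rw [sum_const, smul_eq_mul, pow_succ']
  have hsum : ∑ c : Fin t → ZMod p, (U.filter fun x => ∀ i, x - c i ∈ U).card * p ^ t ≤
      ∑ _c : Fin t → ZMod p, U.card ^ (t + 1) := by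
    rw [← sum_mul, hs, sum_const, card_univ, Fintype.card_fun, ZMod.card, Fintype.card_fin,
      smul_eq_mul, mul_comm]
  obtain ⟨c, _, h⟩ := exists_le_of_sum_le univ_nonempty hsum
  exact ⟨c, h⟩

theorem complete {p k r : ℕ} [Fact p.Prime] (hr : 2 * r < p) (t J : ℕ)
    (h : (p : ℝ) < (1 + (a k r : ℝ) / p) ^ ((t + 1) ^ J)) :
    ∃ b : Fin (k + J * t) → ZMod p, ∀ x, x ∈ Sp b (r + J) := by
  have hp : (0 : ℝ) < p := by
    have := (Fact.out : p.Prime).pos
    exact_mod_cast this
  obtain ⟨A, hA⟩ : ∃ A : ℝ, A = 1 + (a k r : ℝ) / p := ⟨_, rfl⟩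
  have hA0 : 0 < A := by
    rw [hA]
    positivity
  rw [← hA] at h
  have key : ∀ j : ℕ, ∃ b : Fin (k + j * t) → ZMod p,
      ((univ.filter fun x : ZMod p => x ∉ Sp b (r + j)).card : ℝ) ≤ p * (A⁻¹) ^ ((t + 1) ^ j) := by
    intro j
    induction j with
    | zero =>
      obtain ⟨b, hb⟩ := exists_cover (k := k) hr
      refine ⟨b ∘ Fin.cast (by rw [zero_mul, add_zero]), ?_⟩
      rw [m2_cast, add_zero, pow_zero, pow_one]
      rw [← hA] at hb
      rw [← div_eq_mul_inv, le_div_iff₀ hA0]
      exact hb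
    | succ j ih =>
      obtain ⟨b, hb⟩ := ih
      obtain ⟨U, hU⟩ : ∃ U : Finset (ZMod p), U = univ.filter fun x => x ∉ Sp b (r + j) := ⟨_, rfl⟩
      have hmU : ∀ x, x ∈ U ↔ x ∉ Sp b (r + j) := fun x => by
        rw [hU, mem_filter]
        exact ⟨fun hx => hx.2, fun hx => ⟨mem_univ _, hx⟩⟩
      rw [← hU] at hb
      obtain ⟨c, hc⟩ := stage U t
      refine ⟨Fin.append b c ∘ Fin.cast (by ring), ?_⟩
      rw [m2_cast]
      have hsub : (univ.filter fun x : ZMod p => x ∉ Sp (Fin.append b c) (r + (j + 1))) ⊆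
          U.filter fun x => ∀ i, x - c i ∈ U := by
        intro x hx
        have hx' := (mem_filter.1 hx).2
        rw [mem_filter, hmU]
        constructor
        · intro h1
          apply hx'
          have h2 := m2_append c h1 (fun _ => 0)
          refine m2_mono ?_ (b := Fin.append b c) (r := r + j + ∑ _i : Fin t, (0 : ℤ).natAbs) ?_
          · simp
          · have e : x + ∑ i : Fin t, (((0 : ℤ) : ZMod p)) * c i = x := by simp
            rw [e] at h2
            exact h2
        · intro i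
          rw [hmU]
          intro h1
          apply hx'
          have h2 := m2_append c h1 (Pi.single i 1)
          have e1 : ∑ i' : Fin t, ((Pi.single i (1 : ℤ) : Fin t → ℤ) i').natAbs = 1 := by
            rw [sum_eq_single i]
            · simp
            · intro b _ hb
              rw [Pi.single_eq_of_ne hb]
              rfl
            · intro h
              exact absurd (mem_univ _) h
          have e2 : ∑ i' : Fin t, (((Pi.single i (1 : ℤ) : Fin t → ℤ) i' : ℤ) : ZMod p) * c i' =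
              c i := by
            rw [sum_eq_single i]
            · simp
            · intro b _ hb
              rw [Pi.single_eq_of_ne hb, Int.cast_zero, zero_mul]
            · intro h
              exact absurd (mem_univ _) h
          rw [e1, e2, sub_add_cancel] at h2
          exact m2_mono (by omega) h2
      have h3 : ((univ.filter fun x : ZMod p => x ∉ Sp (Fin.append b c) (r + (j + 1))).card : ℝ) *
          (p : ℝ) ^ t ≤ (p * (A⁻¹) ^ ((t + 1) ^ j)) ^ (t + 1) := by
        calc _ ≤ ((U.filter fun x => ∀ i, x - c i ∈ U).card : ℝ) * (p : ℝ) ^ t := by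
              have := card_le_card hsub
              gcongr
          _ ≤ (U.card : ℝ) ^ (t + 1) := by exact_mod_cast hc
          _ ≤ _ := by gcongr
      have h4 : (p * (A⁻¹) ^ ((t + 1) ^ j)) ^ (t + 1) =
          p * (A⁻¹) ^ ((t + 1) ^ (j + 1)) * (p : ℝ) ^ t := by
        rw [mul_pow, ← pow_mul, ← pow_succ, pow_succ (p : ℝ) t]
        ring
      rw [h4] at h3
      exact le_of_mul_le_mul_right h3 (by positivity)
  obtain ⟨b, hb⟩ := key J
  refine ⟨b, ?_⟩
  have h1 : ((univ.filter fun x : ZMod p => x ∉ Sp b (r + J)).card : ℝ) < 1 := by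
    refine lt_of_le_of_lt hb ?_
    rw [inv_pow, ← div_eq_mul_inv, div_lt_one (by positivity)]
    exact h
  have h2 : (univ.filter fun x : ZMod p => x ∉ Sp b (r + J)).card = 0 := by
    have : (univ.filter fun x : ZMod p => x ∉ Sp b (r + J)).card < 1 := by exact_mod_cast h1
    omega
  intro x
  by_contra hx
  have h3 := card_eq_zero.1 h2
  have h4 : x ∈ (univ.filter fun x : ZMod p => x ∉ Sp b (r + J)) :=
    mem_filter.2 ⟨mem_univ _, hx⟩
  rw [h3] at h4
  exact absurd h4 (notMem_empty _)

end Pool.Agent.SG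
end
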