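import Pool.Agent.Lib.MP_fa6223_co.Defs
import Pool.Agent.Lib.MP_fa6223_co.Mg.G001

section

/-!
# L8: the choice of the height `t` of a layer

PROOF. `choose_t`: if `s < 4m` take `t = 1`: `(1+4m/s)(1+4s/m) ≤ 5 * 17 = 85`. If `s ≥ 4m` let `α` be the largest with `4 * 2^α * m ≤ s`
(`Nat.log 2 (s/(4m))`, `t = 2^α`), so `4tm ≤ s < 8tm`; `(1+4m/s)^t ≤ exp(4mt/s) ≤ exp 1 ≤ 2.72` (`Real.add_one_le_exp`, `Real.exp_one_lt_d9`),
`1 + 4s/m ≤ 1 + 32t ≤ 33t`, and `2.72 * 33 ≤ 90 ≤ 128`.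
-/

set_option autoImplicit false

namespace Pool.Agent.SG

theorem choose_t {m s : ℕ} (hm : 1 ≤ m) (h : m ≤ s) :
    ∃ t : ℕ, 1 ≤ t ∧ (∃ α : ℕ, t = 2 ^ α) ∧ t * m ≤ s ∧
      (1 + 4 * (m : ℝ) / s) ^ t * (1 + 4 * (s : ℝ) / m) ≤ 128 * t := by
  have hm0 : (0 : ℝ) < m := by exact_mod_cast hm
  have hs1 : 1 ≤ s := hm.trans h
  have hs0 : (0 : ℝ) < s := by exact_mod_cast hs1
  have hms : (m : ℝ) ≤ s := by exact_mod_cast h
  by_cases h4 : s < 4 * m
  · refine ⟨1, le_rfl, ⟨0, rfl⟩, by omega, ?_⟩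
    have h4' : (s : ℝ) ≤ 4 * m := by exact_mod_cast h4.le
    have e1 : 4 * (m : ℝ) / s ≤ 4 := by
      rw [div_le_iff₀ hs0]
      linarith
    have e2 : 4 * (s : ℝ) / m ≤ 16 := by
      rw [div_le_iff₀ hm0]
      linarith
    have e3 : 0 ≤ 4 * (m : ℝ) / s := by positivity
    have e4 : 0 ≤ 4 * (s : ℝ) / m := by positivity
    rw [pow_one]
    calc (1 + 4 * (m : ℝ) / s) * (1 + 4 * (s : ℝ) / m) ≤ (1 + 4) * (1 + 16) :=
          mul_le_mul (by linarith) (by linarith) (by linarith) (by norm_num)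
      _ ≤ 128 * ((1 : ℕ) : ℝ) := by norm_num
  · obtain ⟨q, hq⟩ : ∃ q : ℕ, q = s / (4 * m) := ⟨_, rfl⟩
    have hm4 : 0 < 4 * m := by omega
    have hq1 : 1 ≤ q := by
      rw [hq]
      exact Nat.div_pos (by omega) hm4
    have hqs : q * (4 * m) ≤ s := by
      rw [hq]
      exact Nat.div_mul_le_self _ _
    have hsq : s < (q + 1) * (4 * m) := by
      rw [hq]
      have e := Nat.lt_div_mul_add (a := s) hm4
      calc s < s / (4 * m) * (4 * m) + 4 * m := e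
        _ = (s / (4 * m) + 1) * (4 * m) := by ring
    obtain ⟨α, hα⟩ : ∃ α : ℕ, α = Nat.log 2 q := ⟨_, rfl⟩
    obtain ⟨t, ht⟩ : ∃ t : ℕ, t = 2 ^ α := ⟨_, rfl⟩
    have ht1 : 1 ≤ t := by rw [ht]; exact Nat.one_le_two_pow
    have htq : t ≤ q := by rw [ht, hα]; exact Nat.pow_log_le_self 2 (by omega)
    have hqt : q < 2 * t := by
      have := Nat.lt_pow_succ_log_self (b := 2) (by norm_num) q
      rw [← hα, pow_succ] at this
      rw [ht]
      omega
    have h5 : 4 * (t * m) ≤ s := by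
      calc 4 * (t * m) = t * (4 * m) := by ring
        _ ≤ q * (4 * m) := Nat.mul_le_mul_right _ htq
        _ ≤ s := hqs
    have h6 : s < 8 * (t * m) := by
      calc s < (q + 1) * (4 * m) := hsq
        _ ≤ (2 * t) * (4 * m) := Nat.mul_le_mul_right _ (by omega)
        _ = 8 * (t * m) := by ring
    refine ⟨t, ht1, ⟨α, ht⟩, by omega, ?_⟩
    have h5' : 4 * ((t : ℝ) * m) ≤ s := by exact_mod_cast h5
    have h6' : (s : ℝ) ≤ 8 * ((t : ℝ) * m) := by exact_mod_cast h6.le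
    have ht1' : (1 : ℝ) ≤ t := by exact_mod_cast ht1
    have e1 : (1 + 4 * (m : ℝ) / s) ^ t ≤ 2.72 := by
      have e2 : 1 + 4 * (m : ℝ) / s ≤ Real.exp (4 * m / s) := by
        linarith [Real.add_one_le_exp (4 * (m : ℝ) / s)]
      have e3 : (1 + 4 * (m : ℝ) / s) ^ t ≤ Real.exp (4 * m / s) ^ t :=
        pow_le_pow_left₀ (by positivity) e2 t
      refine e3.trans ?_
      rw [← Real.exp_nat_mul]
      have e4 : (t : ℝ) * (4 * m / s) ≤ 1 := by
        rw [← mul_div_assoc, div_le_iff₀ hs0]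
        linarith
      have e5 := Real.exp_le_exp.2 e4
      have e6 := Real.exp_one_lt_d9
      linarith
    have e2 : 1 + 4 * (s : ℝ) / m ≤ 33 * t := by
      have e3 : 4 * (s : ℝ) / m ≤ 32 * t := by
        rw [div_le_iff₀ hm0]
        linarith
      linarith
    have e3 : 0 ≤ 1 + 4 * (s : ℝ) / m := by positivity
    calc (1 + 4 * (m : ℝ) / s) ^ t * (1 + 4 * (s : ℝ) / m) ≤ 2.72 * (33 * t) :=
          mul_le_mul e1 e2 e3 (by norm_num)
      _ ≤ 128 * t := by linarith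

end Pool.Agent.SG
end

section

/-!
# B2: basic properties of `f m s`

PROOF. `spans_le`: enumerate `A` by `e : Fin k ≃ A`, `k = A.card` (`A.equivFin`); the map `Bl k s → ZMod n`, `l ↦ ∑ l_i e_i`, is onto
(`Spans`), so `n = card (ZMod n) ≤ card (Bl k s) = a k s ≤ a m s` (`card_Bl`, `a_mono`, `ZMod.card`, `NeZero n`).
`isGreatest_f`: the set is nonempty (`n = 1`, `A = ∅`: `ZMod 1` has one element) and bounded by `a m s`, so `sSup` is its maximum
(`Nat.sSup_mem`, `le_csSup`). `le_f_of_Sp`: `A := univ.image b` has at most `m` elements; for `x` and `l : Fin m → ℤ` put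
`l' y := ∑ i with b i = y, l i`; `∑ y ∈ A, |l' y| ≤ ∑ i, |l i|` and `∑ y ∈ A, l' y • y = ∑ i, l i • b i`
(`Finset.sum_fiberwise_of_maps_to`, `Finset.abs_sum_le_sum_abs`, `zsmul_eq_mul`, `Int.natCast_natAbs`).
-/

set_option autoImplicit false

namespace Pool.Agent.SG

open Finset

theorem spans_le {n m s : ℕ} (hn : 1 ≤ n) {A : Finset (ZMod n)} (hA : A.card ≤ m) (h : Spans s A) :
    n ≤ a m s := by
  have hne : NeZero n := ⟨by omega⟩
  have hsurj : ∀ x : ZMod n, x ∈ (Bl A.card s).image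
      (fun l => ∑ i, l i • ((A.equivFin.symm i : A) : ZMod n)) := by
    intro x
    obtain ⟨l, hl1, hl2⟩ := h x
    refine Finset.mem_image.2 ⟨fun i => l (A.equivFin.symm i : A), mem_Bl.2 ?_, ?_⟩
    · have h1 : ∑ i, (l (A.equivFin.symm i : A)).natAbs = ∑ y : A, (l y).natAbs :=
        Equiv.sum_comp A.equivFin.symm (fun y : A => (l y).natAbs)
      have h2 : ∑ y : A, (l y).natAbs = ∑ y ∈ A, (l y).natAbs :=
        Finset.sum_coe_sort A (fun y => (l y).natAbs)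
      have h3 : ((∑ y ∈ A, (l y).natAbs : ℕ) : ℤ) = ∑ y ∈ A, |l y| := by
        push_cast
        rfl
      beta_reduce
      rw [h1, h2]
      have h4 : ((∑ y ∈ A, (l y).natAbs : ℕ) : ℤ) ≤ (s : ℤ) := by rw [h3]; exact hl1
      exact_mod_cast h4
    · have h1 : ∑ i, l (A.equivFin.symm i : A) • ((A.equivFin.symm i : A) : ZMod n) =
          ∑ y : A, l y • (y : ZMod n) :=
        Equiv.sum_comp A.equivFin.symm (fun y : A => l y • (y : ZMod n))
      have h2 : ∑ y : A, l y • (y : ZMod n) = ∑ y ∈ A, l y • y :=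
        Finset.sum_coe_sort A (fun y => l y • y)
      beta_reduce
      rw [h1, h2, hl2]
  have hcard : Fintype.card (ZMod n) ≤ (Bl A.card s).card := by
    have h1 : (univ : Finset (ZMod n)) ⊆ (Bl A.card s).image
      (fun l => ∑ i, l i • ((A.equivFin.symm i : A) : ZMod n)) := fun x _ => hsurj x
    exact (Finset.card_le_card h1).trans Finset.card_image_le
  rw [ZMod.card, card_Bl] at hcard
  exact hcard.trans (a_mono hA le_rfl)

theorem isGreatest_f (m s : ℕ) :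
    IsGreatest {n : ℕ | 1 ≤ n ∧ ∃ A : Finset (ZMod n), A.card ≤ m ∧ Spans s A} (f m s) := by
  have hne : {n : ℕ | 1 ≤ n ∧ ∃ A : Finset (ZMod n), A.card ≤ m ∧ Spans s A}.Nonempty := by
    refine ⟨1, le_refl 1, ∅, Nat.zero_le m, fun x => ⟨fun _ => 0, ?_, ?_⟩⟩
    · rw [Finset.sum_empty]
      exact Int.natCast_nonneg s
    · exact Subsingleton.elim (α := Fin 1) _ _
  have hbdd : BddAbove {n : ℕ | 1 ≤ n ∧ ∃ A : Finset (ZMod n), A.card ≤ m ∧ Spans s A} := by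
    refine ⟨a m s, ?_⟩
    rintro n ⟨hn, A, hA, h⟩
    exact spans_le hn hA h
  exact ⟨Nat.sSup_mem hne hbdd, fun n hn => le_csSup hbdd hn⟩

theorem f_le_a (m s : ℕ) : f m s ≤ a m s := by
  obtain ⟨hn, A, hA, h⟩ := (isGreatest_f m s).1
  exact spans_le hn hA h

theorem one_le_f (m s : ℕ) : 1 ≤ f m s := by
  exact (isGreatest_f m s).1.1

theorem le_f_of_Sp {n m s : ℕ} (hn : 1 ≤ n) (b : Fin m → ZMod n) (h : ∀ x, x ∈ Sp b s) :
    n ≤ f m s := by
  refine (isGreatest_f m s).2 ⟨hn, univ.image b, ?_, fun x => ?_⟩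
  · refine Finset.card_image_le.trans ?_
    rw [Finset.card_univ, Fintype.card_fin]
  · obtain ⟨l, hl1, hl2⟩ := h x
    have hmaps : ∀ i ∈ (univ : Finset (Fin m)), b i ∈ univ.image b := fun i hi =>
      Finset.mem_image_of_mem b hi
    refine ⟨fun y => ∑ i with b i = y, l i, ?_, ?_⟩
    · calc ∑ y ∈ univ.image b, |∑ i with b i = y, l i|
          ≤ ∑ y ∈ univ.image b, ∑ i with b i = y, |l i| :=
            Finset.sum_le_sum fun y _ => Finset.abs_sum_le_sum_abs _ _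
        _ = ∑ i, |l i| := Finset.sum_fiberwise_of_maps_to hmaps _
        _ = ((∑ i, (l i).natAbs : ℕ) : ℤ) := by
            push_cast
            rfl
        _ ≤ (s : ℤ) := by exact_mod_cast hl1
    · rw [← hl2, ← Finset.sum_fiberwise_of_maps_to hmaps]
      refine Finset.sum_congr rfl fun y _ => ?_
      rw [Finset.sum_smul]
      refine Finset.sum_congr rfl fun i hi => ?_
      rw [(Finset.mem_filter.1 hi).2, zsmul_eq_mul]

end Pool.Agent.SG
end

section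

/-!
# S1: scaling

PROOF of `scale`. Let `α j := (b j).val` (an integer in `[0, n)`) for `1 ≤ j ≤ m`. `d 0 := n`, `d (j+1) := α (j+1) + K d j`; `c 0 := 1`,
`c (j+1) := - K d j`; `N := K d m`. (Use functions on `ℕ` with `α j = 0` for `j > m`.) `d j ≥ K^j n`, so `N ≥ K^(m+1) n`.
(I) For all integers `y`, `z 0..z m`: with `x 0 := y - K (n z 0 + ∑_{1≤j≤m} α j z j)`, `x (j+1) := K z (j+1) - z j`:
`∑_{j≤m} c j x j = y - N z m` (induction on `m`, or `Finset.sum_range_succ` and `K d j = d (j+1) - α (j+1)`; in the step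
`m → m+1` the difference is `- K α (m+1) z (m+1) - K d m (K z (m+1) - z m) = - K d (m+1) z (m+1) + K d m z m`).
(II) Let `y` be an integer, `θ := y/N` (real), `w j := K^(m-j) θ`; `K w (j+1) = w j`, and `n w 0 + ∑_{1≤j≤m} α j w j = d m θ = y/K`
(`d j = n K^j + ∑_{1≤i≤j} α i K^(j-i)`). By `hb` there are integers `λ j` with `∑ |λ j| ≤ s₀` and, modulo `n`,
`round (y/K) - ∑_{j≥1} α j round (w j) = λ 0 + ∑_{j≥1} α j λ j`. Put `z j := round (w j) + λ j` (`j ≥ 1`); then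
`round (y/K) - λ 0 - ∑_{j≥1} α j z j` is divisible by `n` (`ZMod.intCast_eq_intCast_iff`, `ZMod.natCast_zmod_val`), `= n z 0`. Errors
`e 0 := |n z 0 + ∑_{j≥1} α j z j - y/K| = |round (y/K) - λ 0 - y/K| ≤ 1/2 + |λ 0|`, `e j := |z j - w j| ≤ 1/2 + |λ j|` (`abs_sub_round`),
`ρ := ∑_{j≤m} e j ≤ s₀ + (m+1)/2`, and `|z 0 - w 0| ≤ (e 0 + ∑ α j e j)/n ≤ ρ`. `|x 0| = K e 0`, `|x (j+1)| ≤ K e (j+1) + |z j - w j|`, so
`∑ |x j| ≤ K ρ + ρ + ρ ≤ (K+2)(s₀ + (m+1)/2) ≤ R`, and `∑ c j x j = y` in `ℤ_N` by (I). So every element `y` of `ℤ_N` is in `Sp g R`,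
`g j := (c j : ZMod N)`.
`normalise`: `b j ≠ 0` for some `j` (otherwise `Sp b s = {0}`, but `1 ≠ 0`); `b' := (b j)⁻¹ • (b ∘ Equiv.swap 0 j)`; if
`b j * x = ∑ l_i b_i` then `x = ∑ l_(σ i) b'_i` (`Equiv.sum_comp`).
`scale_f`: `m = m' + 1`, `normalise`, `scale`, `le_f_of_Sp` (`N ≥ 1`).
-/

set_option autoImplicit false

namespace Pool.Agent.SG

open Finset

private def S1_d (n K : ℕ) (α : ℕ → ℕ) : ℕ → ℕ
  | 0 => n
  | j + 1 => α (j + 1) + K * S1_d n K α j

private def S1_c (n K : ℕ) (α : ℕ → ℕ) : ℕ → ℤ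
  | 0 => 1
  | j + 1 => -((K : ℤ) * (S1_d n K α j : ℤ))

private def S1_x (n K : ℕ) (α : ℕ → ℕ) (m : ℕ) (y : ℤ) (z : ℕ → ℤ) : ℕ → ℤ
  | 0 => y - K * (n * z 0 + ∑ j ∈ range m, (α (j + 1) : ℤ) * z (j + 1))
  | j + 1 => K * z (j + 1) - z j

private theorem S1_d_ge (n K : ℕ) (α : ℕ → ℕ) (j : ℕ) : K ^ j * n ≤ S1_d n K α j := by
  induction j with
  | zero => simp [S1_d]
  | succ j ih =>
    have h1 : K * (K ^ j * n) ≤ K * S1_d n K α j := Nat.mul_le_mul_left _ ih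
    have h2 : K ^ (j + 1) * n = K * (K ^ j * n) := by ring
    rw [h2]
    exact h1.trans (Nat.le_add_left _ _)

private theorem S1_I (n K : ℕ) (α : ℕ → ℕ) (m : ℕ) (y : ℤ) (z : ℕ → ℤ) :
    ∑ j ∈ range (m + 1), S1_c n K α j * S1_x n K α m y z j =
      y - K * S1_d n K α m * z m := by
  have h1 : ∀ m, ∑ j ∈ range m, -((K : ℤ) * (S1_d n K α j : ℤ)) * (K * z (j + 1) - z j) =
      K * (n * z 0 + ∑ j ∈ range m, (α (j + 1) : ℤ) * z (j + 1)) - K * S1_d n K α m * z m := by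
    intro m
    induction m with
    | zero => simp [S1_d]; ring
    | succ m ih =>
      rw [sum_range_succ, ih, sum_range_succ]
      have e : ((S1_d n K α (m + 1) : ℕ) : ℤ) = (α (m + 1) : ℤ) + K * (S1_d n K α m : ℤ) := by
        rw [S1_d]; push_cast; ring
      rw [e]
      ring
  rw [sum_range_succ']
  have h2 : ∑ j ∈ range m, S1_c n K α (j + 1) * S1_x n K α m y z (j + 1) =
      ∑ j ∈ range m, -((K : ℤ) * (S1_d n K α j : ℤ)) * (K * z (j + 1) - z j) := rfl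
  have h3 : S1_c n K α 0 * S1_x n K α m y z 0 =
      1 * (y - K * (n * z 0 + ∑ j ∈ range m, (α (j + 1) : ℤ) * z (j + 1))) := rfl
  rw [h2, h3, h1 m]
  ring

private theorem S1_w (n K : ℕ) (α : ℕ → ℕ) (w : ℕ → ℝ) (m : ℕ)
    (hw : ∀ j < m, (K : ℝ) * w (j + 1) = w j) :
    (n : ℝ) * w 0 + ∑ j ∈ range m, (α (j + 1) : ℝ) * w (j + 1) = (S1_d n K α m : ℝ) * w m := by
  induction m with
  | zero => simp [S1_d]
  | succ m ih =>
    rw [sum_range_succ, ← add_assoc, ih fun j hj => hw j (by omega), ← hw m (by omega)]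
    have e : ((S1_d n K α (m + 1) : ℕ) : ℝ) = (α (m + 1) : ℝ) + K * (S1_d n K α m : ℝ) := by
      rw [S1_d]; push_cast; ring
    rw [e]
    ring

private theorem S1_sum {n K m : ℕ} (hn : 1 ≤ n) (hK : 1 ≤ K) {α : ℕ → ℕ} (hα : ∀ j, α j ≤ n)
    {y : ℤ} {z : ℕ → ℤ} {w e : ℕ → ℝ} (hw : ∀ j < m, (K : ℝ) * w (j + 1) = w j)
    (hy : (n : ℝ) * w 0 + ∑ j ∈ range m, (α (j + 1) : ℝ) * w (j + 1) = y / K)
    (he0 : |(n : ℝ) * z 0 + ∑ j ∈ range m, (α (j + 1) : ℝ) * z (j + 1) - y / K| ≤ e 0)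
    (he : ∀ j < m, |(z (j + 1) : ℝ) - w (j + 1)| ≤ e (j + 1)) :
    ∑ j ∈ range (m + 1), |(S1_x n K α m y z j : ℝ)| ≤ (K + 2) * ∑ j ∈ range (m + 1), e j := by
  have hn' : (0 : ℝ) < n := by exact_mod_cast hn
  have hK' : (0 : ℝ) < K := by exact_mod_cast hK
  set ρ := ∑ j ∈ range (m + 1), e j with hρ
  have e0 : 0 ≤ e 0 := (abs_nonneg _).trans he0
  have e1 : ∀ j < m, 0 ≤ e (j + 1) := fun j hj => (abs_nonneg _).trans (he j hj)
  have hρ' : ρ = ∑ j ∈ range m, e (j + 1) + e 0 := sum_range_succ' _ _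
  have hs0 : 0 ≤ ∑ j ∈ range m, e (j + 1) := sum_nonneg fun j hj => e1 j (mem_range.1 hj)
  have hρ0 : 0 ≤ ρ := by linarith
  have hz0 : |(z 0 : ℝ) - w 0| ≤ ρ := by
    have h1 : (n : ℝ) * ((z 0 : ℝ) - w 0) =
        ((n : ℝ) * z 0 + ∑ j ∈ range m, (α (j + 1) : ℝ) * z (j + 1) - y / K) -
          ∑ j ∈ range m, (α (j + 1) : ℝ) * ((z (j + 1) : ℝ) - w (j + 1)) := by
      rw [← hy]
      simp only [mul_sub, sum_sub_distrib]
      ring
    have h2 : |∑ j ∈ range m, (α (j + 1) : ℝ) * ((z (j + 1) : ℝ) - w (j + 1))| ≤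
        n * ∑ j ∈ range m, e (j + 1) := by
      refine (abs_sum_le_sum_abs _ _).trans ?_
      rw [mul_sum]
      refine sum_le_sum fun j hj => ?_
      rw [abs_mul, Nat.abs_cast]
      exact mul_le_mul (by exact_mod_cast hα _) (he j (mem_range.1 hj)) (abs_nonneg _) hn'.le
    have h3 : (n : ℝ) * |(z 0 : ℝ) - w 0| ≤ n * ρ := by
      rw [← abs_of_pos hn', ← abs_mul, h1, abs_of_pos hn', hρ', mul_add]
      refine (abs_sub _ _).trans ?_
      have h4 : e 0 ≤ n * e 0 := le_mul_of_one_le_left e0 (by exact_mod_cast hn)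
      linarith
    exact le_of_mul_le_mul_left h3 hn'
  have hzs : ∑ j ∈ range m, |(z j : ℝ) - w j| ≤ 2 * ρ := by
    have h1 : ∀ j ∈ range m, |(z j : ℝ) - w j| ≤ (if j = 0 then ρ else 0) + e j := by
      intro j hj
      have hj' := mem_range.1 hj
      rcases Nat.eq_zero_or_pos j with rfl | hj0
      · rw [if_pos rfl]
        linarith
      · obtain ⟨i, rfl⟩ : ∃ i, j = i + 1 := ⟨j - 1, by omega⟩
        rw [if_neg (by omega), zero_add]
        exact he i (by omega)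
    refine (sum_le_sum h1).trans ?_
    rw [sum_add_distrib, sum_ite_eq']
    have h2 : ∑ j ∈ range m, e j ≤ ρ := by
      refine sum_le_sum_of_subset_of_nonneg (range_subset_range.2 (Nat.le_succ m)) fun j hj _ => ?_
      have hj' := mem_range.1 hj
      rcases Nat.eq_zero_or_pos j with rfl | hj0
      · exact e0
      · obtain ⟨i, rfl⟩ : ∃ i, j = i + 1 := ⟨j - 1, by omega⟩
        exact e1 i (by omega)
    split_ifs <;> linarith
  rw [sum_range_succ']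
  have h5 : |(S1_x n K α m y z 0 : ℝ)| ≤ K * e 0 := by
    have h6 : (S1_x n K α m y z 0 : ℝ) =
        -(K * ((n : ℝ) * z 0 + ∑ j ∈ range m, (α (j + 1) : ℝ) * z (j + 1) - y / K)) := by
      unfold S1_x
      push_cast
      field_simp
      ring
    rw [h6, abs_neg, abs_mul, abs_of_pos hK']
    exact mul_le_mul_of_nonneg_left he0 hK'.le
  have h7 : ∑ j ∈ range m, |(S1_x n K α m y z (j + 1) : ℝ)| ≤
      ∑ j ∈ range m, (K * e (j + 1) + |(z j : ℝ) - w j|) := by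
    refine sum_le_sum fun j hj => ?_
    have hj' := mem_range.1 hj
    have h8 : (S1_x n K α m y z (j + 1) : ℝ) =
        K * ((z (j + 1) : ℝ) - w (j + 1)) - ((z j : ℝ) - w j) := by
      unfold S1_x
      push_cast
      rw [← hw j hj']
      ring
    rw [h8]
    refine (abs_sub _ _).trans ?_
    rw [abs_mul, abs_of_pos hK']
    exact add_le_add_left (mul_le_mul_of_nonneg_left (he j hj') hK'.le) _
  rw [sum_add_distrib, ← mul_sum] at h7
  have h9 : ((K : ℝ) + 2) * ρ = K * ∑ j ∈ range m, e (j + 1) + K * e 0 + 2 * ρ := by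
    rw [add_mul, hρ']
    ring
  rw [h9]
  linarith

theorem scale {n m s₀ K R : ℕ} (hn : 1 ≤ n) (hK : 1 ≤ K) (b : Fin (m + 1) → ZMod n)
    (hb : ∀ x, x ∈ Sp b s₀) (hb0 : b 0 = 1) (hR : (K + 2) * (2 * s₀ + (m + 1)) ≤ 2 * R) :
    ∃ N : ℕ, K ^ (m + 1) * n ≤ N ∧ ∃ g : Fin (m + 1) → ZMod N, ∀ x, x ∈ Sp g R := by
  have hne : NeZero n := ⟨by omega⟩
  set α : ℕ → ℕ := fun j => if h : j < m + 1 then (b ⟨j, h⟩).val else 0 with hα
  have hαn : ∀ j, α j ≤ n := by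
    intro j
    simp only [hα]
    split_ifs with h
    · exact (ZMod.val_lt _).le
    · exact Nat.zero_le _
  have hαb : ∀ i : Fin (m + 1), ((α i : ℕ) : ZMod n) = b i := by
    intro i
    simp only [hα]
    rw [dif_pos i.2]
    exact ZMod.natCast_zmod_val _
  have hd0 : 1 ≤ S1_d n K α m :=
    (Nat.mul_pos (pow_pos (by omega) m) (by omega)).trans_le (S1_d_ge n K α m)
  refine ⟨K * S1_d n K α m, ?_, fun i => ((S1_c n K α i : ℤ) : ZMod _), ?_⟩
  · have h1 := Nat.mul_le_mul_left K (S1_d_ge n K α m)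
    have h2 : K ^ (m + 1) * n = K * (K ^ m * n) := by ring
    rw [h2]
    exact h1
  intro x
  obtain ⟨y, rfl⟩ := ZMod.intCast_surjective x
  have hK' : (0 : ℝ) < K := by exact_mod_cast hK
  have hd' : (0 : ℝ) < S1_d n K α m := by exact_mod_cast hd0
  set θ : ℝ := y / (K * S1_d n K α m) with hθ
  set w : ℕ → ℝ := fun j => (K : ℝ) ^ (m - j) * θ with hw
  have hw1 : ∀ j < m, (K : ℝ) * w (j + 1) = w j := by
    intro j hj
    simp only [hw]
    have e : m - j = (m - (j + 1)) + 1 := by omega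
    rw [e, pow_succ]
    ring
  have hw2 : (n : ℝ) * w 0 + ∑ j ∈ range m, (α (j + 1) : ℝ) * w (j + 1) = y / K := by
    rw [S1_w n K α w m hw1]
    simp only [hw, hθ, Nat.sub_self, pow_zero, one_mul]
    field_simp
  obtain ⟨l, hl1, hl2⟩ := hb (((round ((y : ℝ) / K) : ℤ) : ZMod n) -
    ∑ j ∈ range m, ((α (j + 1) : ℕ) : ZMod n) * ((round (w (j + 1)) : ℤ) : ZMod n))
  set L : ℕ → ℤ := fun j => if h : j < m + 1 then l ⟨j, h⟩ else 0 with hL
  have hLl : ∀ i : Fin (m + 1), L i = l i := by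
    intro i
    simp only [hL]
    rw [dif_pos i.2]
  have hl3 : ∑ j ∈ range (m + 1), (L j).natAbs ≤ s₀ := by
    rw [← Fin.sum_univ_eq_sum_range (fun j => (L j).natAbs)]
    refine le_of_eq_of_le (sum_congr rfl fun i _ => ?_) hl1
    rw [hLl]
  have hl4 : ∑ j ∈ range (m + 1), ((L j : ℤ) : ZMod n) * ((α j : ℕ) : ZMod n) =
      ((round ((y : ℝ) / K) : ℤ) : ZMod n) -
    ∑ j ∈ range m, ((α (j + 1) : ℕ) : ZMod n) * ((round (w (j + 1)) : ℤ) : ZMod n) := by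
    rw [← Fin.sum_univ_eq_sum_range (fun j => ((L j : ℤ) : ZMod n) * ((α j : ℕ) : ZMod n)), ← hl2]
    refine sum_congr rfl fun i _ => ?_
    rw [hLl, hαb]
  rw [sum_range_succ'] at hl4
  have hα0 : ((α 0 : ℕ) : ZMod n) = 1 := by
    have h1 := hαb 0
    rw [hb0] at h1
    exact h1
  rw [hα0, mul_one] at hl4
  have hdvd : (n : ℤ) ∣ round ((y : ℝ) / K) - L 0 -
      ∑ j ∈ range m, (α (j + 1) : ℤ) * (round (w (j + 1)) + L (j + 1)) := by
    rw [← ZMod.intCast_zmod_eq_zero_iff_dvd]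
    push_cast
    have h1 : ∑ j ∈ range m, ((α (j + 1) : ℕ) : ZMod n) *
        (((round (w (j + 1)) : ℤ) : ZMod n) + ((L (j + 1) : ℤ) : ZMod n)) =
        ∑ j ∈ range m, ((α (j + 1) : ℕ) : ZMod n) * ((round (w (j + 1)) : ℤ) : ZMod n) +
        ∑ j ∈ range m, ((L (j + 1) : ℤ) : ZMod n) * ((α (j + 1) : ℕ) : ZMod n) := by
      rw [← sum_add_distrib]
      exact sum_congr rfl fun j _ => by ring
    rw [h1]
    linear_combination (-1 : ZMod n) * hl4
  obtain ⟨z0, hz0⟩ := hdvd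
  set z : ℕ → ℤ := fun j => if j = 0 then z0 else round (w j) + L j with hz
  have hz1 : z 0 = z0 := rfl
  have hz2 : ∀ j, z (j + 1) = round (w (j + 1)) + L (j + 1) := fun j => if_neg (Nat.succ_ne_zero j)
  have hz3 : (n : ℤ) * z 0 + ∑ j ∈ range m, (α (j + 1) : ℤ) * z (j + 1) =
      round ((y : ℝ) / K) - L 0 := by
    have h1 : ∑ j ∈ range m, (α (j + 1) : ℤ) * z (j + 1) =
        ∑ j ∈ range m, (α (j + 1) : ℤ) * (round (w (j + 1)) + L (j + 1)) :=
      sum_congr rfl fun j _ => by rw [hz2]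
    rw [h1, hz1, ← hz0]
    ring
  have he0 : |(n : ℝ) * z 0 + ∑ j ∈ range m, (α (j + 1) : ℝ) * z (j + 1) - y / K| ≤
      1 / 2 + |(L 0 : ℝ)| := by
    have h1 : (n : ℝ) * z 0 + ∑ j ∈ range m, (α (j + 1) : ℝ) * z (j + 1) =
        (round ((y : ℝ) / K) : ℝ) - L 0 := by exact_mod_cast hz3
    rw [h1]
    have h2 := abs_sub_round ((y : ℝ) / K)
    have h3 : (round ((y : ℝ) / K) : ℝ) - L 0 - y / K =
        -((y : ℝ) / K - round ((y : ℝ) / K)) - L 0 := by ring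
    rw [h3]
    refine (abs_sub _ _).trans ?_
    rw [abs_neg]
    linarith
  have he : ∀ j < m, |(z (j + 1) : ℝ) - w (j + 1)| ≤ 1 / 2 + |(L (j + 1) : ℝ)| := by
    intro j _
    rw [hz2]
    push_cast
    have h2 := abs_sub_round (w (j + 1))
    have h3 : (round (w (j + 1)) : ℝ) + L (j + 1) - w (j + 1) =
        L (j + 1) - (w (j + 1) - round (w (j + 1))) := by ring
    rw [h3]
    refine (abs_sub _ _).trans ?_
    linarith
  have hfin := S1_sum (e := fun j => 1 / 2 + |(L j : ℝ)|) hn hK hαn hw1 hw2 he0 he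
  refine ⟨fun i => S1_x n K α m y z i, ?_, ?_⟩
  · rw [Fin.sum_univ_eq_sum_range (fun j => (S1_x n K α m y z j).natAbs)]
    have h1 : ((∑ j ∈ range (m + 1), (S1_x n K α m y z j).natAbs : ℕ) : ℝ) ≤ R := by
      push_cast
      have h2 : ∑ j ∈ range (m + 1), (((S1_x n K α m y z j).natAbs : ℕ) : ℝ) =
          ∑ j ∈ range (m + 1), |(S1_x n K α m y z j : ℝ)| :=
        sum_congr rfl fun j _ => by rw [Nat.cast_natAbs, Int.cast_abs]
      have h3 : ∑ j ∈ range (m + 1), (1 / 2 + |(L j : ℝ)|) ≤ (m + 1) / 2 + s₀ := by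
        rw [sum_add_distrib, sum_const, card_range, nsmul_eq_mul]
        have h4 : ∑ j ∈ range (m + 1), |(L j : ℝ)| ≤ s₀ := by
          have h5 : ((∑ j ∈ range (m + 1), (L j).natAbs : ℕ) : ℝ) ≤ s₀ := by exact_mod_cast hl3
          rw [Nat.cast_sum] at h5
          refine le_of_eq_of_le (sum_congr rfl fun j _ => ?_) h5
          rw [Nat.cast_natAbs, Int.cast_abs]
        push_cast
        linarith
      have h6 : (((K + 2) * (2 * s₀ + (m + 1)) : ℕ) : ℝ) ≤ ((2 * R : ℕ) : ℝ) := by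
        exact_mod_cast hR
      push_cast at h6
      have h7 := mul_le_mul_of_nonneg_left h3 (by positivity : (0 : ℝ) ≤ (K : ℝ) + 2)
      rw [h2]
      refine hfin.trans (h7.trans ?_)
      linarith
    exact_mod_cast h1
  · have h1 := congrArg (Int.cast : ℤ → ZMod (K * S1_d n K α m)) (S1_I n K α m y z)
    have h2 : ((K : ℤ) : ZMod (K * S1_d n K α m)) * ((S1_d n K α m : ℤ) : ZMod _) = 0 := by
      have h3 := ZMod.natCast_self (K * S1_d n K α m)
      push_cast at h3 ⊢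
      exact h3
    refine (Fin.sum_univ_eq_sum_range (fun j => ((S1_x n K α m y z j : ℤ) :
      ZMod (K * S1_d n K α m)) * ((S1_c n K α j : ℤ) : ZMod (K * S1_d n K α m))) (m + 1)).trans ?_
    rw [Int.cast_sum, Int.cast_sub, Int.cast_mul, Int.cast_mul, h2, zero_mul, sub_zero] at h1
    rw [← h1]
    refine sum_congr rfl fun j _ => ?_
    rw [Int.cast_mul]
    exact mul_comm _ _

theorem normalise {p m s : ℕ} [Fact p.Prime] (b : Fin (m + 1) → ZMod p)
    (hb : ∀ x, x ∈ Sp b s) : ∃ b' : Fin (m + 1) → ZMod p, b' 0 = 1 ∧ ∀ x, x ∈ Sp b' s := by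
  obtain ⟨j, hj⟩ : ∃ j, b j ≠ 0 := by
    by_contra hcon
    push Not at hcon
    obtain ⟨l, -, hl⟩ := hb 1
    have h1 : ∑ i, (l i : ZMod p) * b i = 0 := sum_eq_zero fun i _ => by rw [hcon, mul_zero]
    rw [h1] at hl
    exact zero_ne_one hl
  refine ⟨fun i => (b j)⁻¹ * b (Equiv.swap 0 j i), ?_, fun x => ?_⟩
  · show (b j)⁻¹ * b (Equiv.swap 0 j 0) = 1
    rw [Equiv.swap_apply_left, inv_mul_cancel₀ hj]
  · obtain ⟨l, hl1, hl2⟩ := hb (b j * x)
    refine ⟨fun i => l (Equiv.swap 0 j i), ?_, ?_⟩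
    · rw [Equiv.sum_comp (Equiv.swap 0 j) (fun i => (l i).natAbs)]
      exact hl1
    · have h1 : ∑ i, (l (Equiv.swap 0 j i) : ZMod p) * ((b j)⁻¹ * b (Equiv.swap 0 j i)) =
          ∑ i, (l i : ZMod p) * ((b j)⁻¹ * b i) :=
        Equiv.sum_comp (Equiv.swap 0 j) (fun i => (l i : ZMod p) * ((b j)⁻¹ * b i))
      rw [h1]
      have h2 : ∑ i, (l i : ZMod p) * ((b j)⁻¹ * b i) = (b j)⁻¹ * ∑ i, (l i : ZMod p) * b i := by
        rw [mul_sum]
        exact sum_congr rfl fun i _ => by ring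
      rw [h2, hl2, ← mul_assoc, inv_mul_cancel₀ hj, one_mul]

theorem scale_f {p m s₀ K R : ℕ} (hp : p.Prime) (hm : 1 ≤ m) (hK : 1 ≤ K) (b : Fin m → ZMod p)
    (hb : ∀ x, x ∈ Sp b s₀) (hR : (K + 2) * (2 * s₀ + m) ≤ 2 * R) : K ^ m * p ≤ f m R := by
  obtain ⟨m, rfl⟩ : ∃ m', m = m' + 1 := ⟨m - 1, by omega⟩
  have hfact : Fact p.Prime := ⟨hp⟩
  obtain ⟨b', hb0, hb'⟩ := normalise b hb
  obtain ⟨N, hN, g, hg⟩ := scale hp.one_lt.le hK b' hb' hb0 hR
  have hN1 : 1 ≤ N := (Nat.mul_pos (pow_pos (by omega) _) hp.pos).trans_le hN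
  exact hN.trans (le_f_of_Sp hN1 g hg)

end Pool.Agent.SG
end
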