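import Pool.Agent.Lib.MP_fa6223_co.Mg.G001
import Pool.Agent.Lib.MP_fa6223_co.Mg.G003

section

/-!
# L3: `J` layers, and the complete covering

PROOF. `layers`: induction on `J` (`N'` is a variable, so no casts between moduli: in the step take the new modulus `t * N'` and
`t * (t ^ J * N) = t ^ (J+1) * N`; `Fin (k + J + 1)` is `Fin (k + (J+1))` by definition; `r + J*t + t = r + (J+1)*t`: rewrite in the radius only).
`J = 0`: `N' = N`, `b' = b` (`pow_zero`, `one_mul`, `zero_mul`, `add_zero`). Step: `layer` for `b'` gives `N' * u'' ≤ t * u'^2`, so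
`u''/(t N') ≤ (u'/N')^2 ≤ ((u/N)^(2^J))^2 = (u/N)^(2^(J+1))` (all reals, `N' ≥ 1`, `t ≥ 1`).
`complete2`: `exists_cover` gives `b` with `u * (1 + a/p) ≤ p` for `u` = number of uncovered elements (turn the `Finset.filter` card into the
`ncard` of `{x | x ∉ Sp b r}`: `Set.ncard_eq_toFinset_card'` or `Set.ncard_coe_finset` after `ext`), so `u/p ≤ 1/(1+a/p)`. `layers` with `N = p`:
`u'/N' ≤ (1+a/p)^(-2^J) < 1/(t^J p) = 1/N'`, so `u' < 1`, `u' = 0`, and the set is empty (`Set.ncard_eq_zero`, `Set.toFinite`; `ZMod N'` is finite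
since `N' ≥ 1`).
-/

set_option autoImplicit false

namespace Pool.Agent.SG

open Finset

theorem layers {N k r t : ℕ} (hN : 1 ≤ N) (ht : ∃ α : ℕ, t = 2 ^ α) (b : Fin k → ZMod N) (J : ℕ) :
    ∃ N' : ℕ, N' = t ^ J * N ∧ ∃ b' : Fin (k + J) → ZMod N',
      ({x | x ∉ Sp b' (r + J * t)}.ncard : ℝ) / N' ≤
        (({x | x ∉ Sp b r}.ncard : ℝ) / N) ^ (2 ^ J) := by
  have ht1 : 1 ≤ t := by
    obtain ⟨α, hα⟩ := ht
    rw [hα]
    exact Nat.one_le_two_pow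
  induction J with
  | zero =>
    refine ⟨N, by rw [pow_zero, one_mul], b, ?_⟩
    have e0 : r + 0 * t = r := by omega
    rw [e0, pow_zero, pow_one]
  | succ J ih =>
    obtain ⟨N', hN', b', h'⟩ := ih
    have hN1 : 1 ≤ N' := by
      rw [hN']
      exact Nat.mul_pos (Nat.pow_pos ht1) hN
    obtain ⟨b'', h''⟩ := layer (r := r + J * t) hN1 ht b'
    refine ⟨t * N', by rw [hN', pow_succ]; ring, b'', ?_⟩
    have e : r + (J + 1) * t = r + J * t + t := by ring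
    rw [e]
    have hNR : (0 : ℝ) < (N' : ℝ) := by exact_mod_cast hN1
    have htR : (0 : ℝ) < (t : ℝ) := by exact_mod_cast ht1
    have h1 : ((N' * {x | x ∉ Sp b'' (r + J * t + t)}.ncard : ℕ) : ℝ) ≤
        ((t * {x | x ∉ Sp b' (r + J * t)}.ncard ^ 2 : ℕ) : ℝ) := by exact_mod_cast h''
    push_cast at h1
    have h2 : ({x | x ∉ Sp b'' (r + J * t + t)}.ncard : ℝ) / ((t * N' : ℕ) : ℝ) ≤
        (({x | x ∉ Sp b' (r + J * t)}.ncard : ℝ) / N') ^ 2 := by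
      rw [div_pow, div_le_div_iff₀ (by push_cast; positivity) (by positivity)]
      push_cast
      have h3 := mul_le_mul_of_nonneg_right h1 hNR.le
      nlinarith
    refine h2.trans ?_
    have h4 : (({x | x ∉ Sp b' (r + J * t)}.ncard : ℝ) / N') ^ 2 ≤
        ((({x | x ∉ Sp b r}.ncard : ℝ) / N) ^ (2 ^ J)) ^ 2 :=
      pow_le_pow_left₀ (by positivity) h' 2
    refine h4.trans ?_
    rw [← pow_mul, ← pow_succ]

theorem complete2 {p k r t : ℕ} (hp : p.Prime) (hr : 2 * r < p) (ht : ∃ α : ℕ, t = 2 ^ α) (J : ℕ)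
    (h : (t : ℝ) ^ J * p < (1 + (a k r : ℝ) / p) ^ (2 ^ J)) :
    ∃ N' : ℕ, N' = t ^ J * p ∧ ∃ b' : Fin (k + J) → ZMod N', ∀ x, x ∈ Sp b' (r + J * t) := by
  classical
  have hfact : Fact p.Prime := ⟨hp⟩
  have ht1 : 1 ≤ t := by
    obtain ⟨α, hα⟩ := ht
    rw [hα]
    exact Nat.one_le_two_pow
  have hpR : (0 : ℝ) < (p : ℝ) := by exact_mod_cast hp.pos
  obtain ⟨b, hb⟩ := exists_cover (k := k) hr
  obtain ⟨N', hN', b', h'⟩ := layers (k := k) (r := r) hp.one_le ht b J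
  refine ⟨N', hN', b', ?_⟩
  have hN1 : 1 ≤ N' := by
    rw [hN']
    exact Nat.mul_pos (Nat.pow_pos ht1) hp.pos
  have hne : NeZero N' := ⟨by omega⟩
  have hc : {x | x ∉ Sp b r}.ncard = (univ.filter fun x : ZMod p => x ∉ Sp b r).card := by
    rw [← Set.ncard_coe_finset]
    congr 1
    ext x
    simp
  obtain ⟨A, hA⟩ : ∃ A : ℝ, A = 1 + (a k r : ℝ) / p := ⟨_, rfl⟩
  rw [← hA] at hb h
  have hA0 : 0 < A := by
    rw [hA]
    positivity
  have h1 : ({x | x ∉ Sp b r}.ncard : ℝ) / p ≤ 1 / A := by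
    rw [div_le_div_iff₀ hpR hA0, one_mul, hc]
    exact hb
  have h2 : (({x | x ∉ Sp b r}.ncard : ℝ) / p) ^ (2 ^ J) ≤ (1 / A) ^ (2 ^ J) :=
    pow_le_pow_left₀ (by positivity) h1 _
  have h3 := h'.trans h2
  have hNR : (0 : ℝ) < (N' : ℝ) := by exact_mod_cast hN1
  have hNe : (N' : ℝ) = (t : ℝ) ^ J * p := by
    rw [hN']
    push_cast
    ring
  have hAJ : (0 : ℝ) < A ^ (2 ^ J) := by positivity
  have h4 : ({x | x ∉ Sp b' (r + J * t)}.ncard : ℝ) < 1 := by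
    rw [div_le_iff₀ hNR] at h3
    refine lt_of_le_of_lt h3 ?_
    rw [one_div, inv_pow, hNe, inv_mul_eq_div, div_lt_one hAJ]
    exact h
  have h5 : {x | x ∉ Sp b' (r + J * t)}.ncard = 0 := by
    have h6 : {x | x ∉ Sp b' (r + J * t)}.ncard < 1 := by exact_mod_cast h4
    omega
  have h7 : {x | x ∉ Sp b' (r + J * t)} = ∅ := (Set.ncard_eq_zero (Set.toFinite _)).mp h5
  intro x
  by_contra hx
  have h8 : x ∈ {x | x ∉ Sp b' (r + J * t)} := hx
  rw [h7] at h8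
  exact h8

end Pool.Agent.SG
end

section

/-!
# A2: ratios of consecutive numbers `a(m,s)`

PROOF. `a_step`: the identity (I) `(s+1) (a(m,s+1) - a(m,s)) = ∑ i, i C(m,i) C(s+1,i) 2^i`, since
`(s+1) (C(s+1,i) - C(s,i)) = (s+1) C(s,i-1) = i C(s+1,i)` (`Nat.succ_mul_choose_eq` / `Nat.add_one_mul_choose_eq`).
For `m = 0` the right side is `0` and `a 0 _ = 1`. For `m = m' + 1`: `i C(m'+1,i) = (m'+1) C(m',i-1) = (m'+1) (C(m'+1,i) - C(m',i))`, so
the right side is `(m'+1) (a(m'+1,s+1) - a(m',s+1)) = (m'+1) (a(m'+1,s) + a(m',s)) ≤ 2 (m'+1) a(m'+1,s)` (`a_succ_succ`, `a_mono`).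
ALTERNATIVE: prove `(s+1) (a(m,s+1) - a(m,s)) = m (a(m,s) + a(m-1,s))` by induction from the recursion.
`a_step'`: `a_symm`. `a_le_pow`: induction on `m` with `a_step'` (`(m+1) a(m+1,s) ≤ (m+1+2s) a(m,s) ≤ (m+1)(1+2s) a(m,s)`).
`a_le_pow'`: `a_symm`.
-/

set_option autoImplicit false

namespace Pool.Agent.SG

open Finset

private theorem A2_one (s : ℕ) : a 1 s = 2 * s + 1 := by
  induction s with
  | zero => rw [a_zero_right]
  | succ s ih =>
    rw [a_succ_succ 0 s, ih, a_zero_left, a_zero_left]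
    ring

private theorem A2_one' (m : ℕ) : a m 1 = 2 * m + 1 := by
  rw [a_symm, A2_one]

private theorem A2_id (m : ℕ) : ∀ s : ℕ,
    ((s : ℤ) + 1) * (a m (s + 1) + a m s) = ((m : ℤ) + 1) * (a (m + 1) s + a m s) := by
  induction m with
  | zero =>
    intro s
    rw [a_zero_left, a_zero_left, zero_add, A2_one]
    push_cast
    ring
  | succ m ihm =>
    intro s
    induction s with
    | zero =>
      rw [a_zero_right, a_zero_right, zero_add, A2_one']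
      push_cast
      ring
    | succ s ihs =>
      have h1 := ihm (s + 1)
      have h2 := ihm s
      have e1 : (a (m + 1) (s + 1 + 1) : ℤ) = a m (s + 1 + 1) + a (m + 1) (s + 1) + a m (s + 1) := by
        exact_mod_cast a_succ_succ m (s + 1)
      have e2 : (a (m + 1 + 1) (s + 1) : ℤ) = a (m + 1) (s + 1) + a (m + 1 + 1) s + a (m + 1) s := by
        exact_mod_cast a_succ_succ (m + 1) s
      have e3 : (a (m + 1) (s + 1) : ℤ) = a m (s + 1) + a (m + 1) s + a m s := by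
        exact_mod_cast a_succ_succ m s
      push_cast at h1 h2 ihs ⊢
      rw [e1, e2]
      linear_combination h1 + ihs + h2 + ((s : ℤ) - m) * e3

theorem a_step (m s : ℕ) : (s + 1) * a m (s + 1) ≤ (s + 1 + 2 * m) * a m s := by
  rcases m with _ | m
  · rw [a_zero_left, a_zero_left]
  · have h1 := A2_id m s
    have e3 : (a (m + 1) (s + 1) : ℤ) = a m (s + 1) + a (m + 1) s + a m s := by
      exact_mod_cast a_succ_succ m s
    have h2 : (a m s : ℤ) ≤ a (m + 1) s := by exact_mod_cast a_mono (Nat.le_succ m) (le_refl s)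
    have h3 : (0 : ℤ) ≤ (m : ℤ) + 1 := by positivity
    have h4 := mul_le_mul_of_nonneg_left h2 h3
    have h5 : ((s : ℤ) + 1) * a (m + 1) (s + 1) ≤ ((s : ℤ) + 1 + 2 * ((m : ℤ) + 1)) * a (m + 1) s := by
      rw [e3]
      linarith
    exact_mod_cast h5

theorem a_step' (m s : ℕ) : (m + 1) * a (m + 1) s ≤ (m + 1 + 2 * s) * a m s := by
  rw [a_symm (m + 1) s, a_symm m s]
  exact a_step s m

theorem a_le_pow (m s : ℕ) : a m s ≤ (2 * s + 1) ^ m := by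
  induction m with
  | zero => rw [a_zero_left, pow_zero]
  | succ m ih =>
    have h1 := a_step' m s
    have h2 : (m + 1 + 2 * s) * a m s ≤ ((m + 1) * (2 * s + 1)) * (2 * s + 1) ^ m := by
      apply Nat.mul_le_mul _ ih
      nlinarith [Nat.zero_le (m * s)]
    have h3 : (m + 1) * a (m + 1) s ≤ (m + 1) * (2 * s + 1) ^ (m + 1) := by
      calc (m + 1) * a (m + 1) s ≤ _ := h1
        _ ≤ _ := h2
        _ = (m + 1) * (2 * s + 1) ^ (m + 1) := by ring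
    exact Nat.le_of_mul_le_mul_left h3 (Nat.succ_pos m)

theorem a_le_pow' (m s : ℕ) : a m s ≤ (2 * m + 1) ^ s := by
  rw [a_symm]
  exact a_le_pow s m

end Pool.Agent.SG
end

section

/-!
# A3: estimates with binomial coefficients

PROOF. `a_le_choose`: `C(m,i) C(s,i) 2^i ≤ 2^m C(m,i) C(s,i)` (both sides are `0` if `i > m`), and Vandermonde:
`∑ i, C(m,i) C(s,i) = ∑ i, C(m,m-i) C(s,i) ≤ C(m+s,m)` (`Nat.add_choose_eq`, sum over the antidiagonal of `m`).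
`choose_le_a`: the term `i = m` (if `m ≤ s`; otherwise the left side is `0`).
`three_pow_le_a`: `a_mono` to `a k k`, and `a (k+1) (k+1) ≥ 3 a k k` (`a_succ_succ`, `a_mono`).
`four_mul_le_a`: `a_mono` to `a 2 r = ∑ i, C(2,i) C(r,i) 2^i = 1 + 4 r + 2 r (r-1) ≥ 4 r` (the terms `i = 0`, `i = 1`).
-/

set_option autoImplicit false

namespace Pool.Agent.SG

open Finset

theorem a_le_choose (m s : ℕ) : a m s ≤ 2 ^ m * (m + s).choose m := by
  have h1 : (m + s).choose m = ∑ j ∈ range (m + 1), m.choose j * s.choose j := by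
    rw [add_comm m s, Nat.add_choose_eq, Finset.Nat.sum_antidiagonal_eq_sum_range_succ_mk]
    apply Finset.sum_congr rfl
    intro i hi
    have hi' : i ≤ m := Nat.lt_succ_iff.mp (mem_range.mp hi)
    simp only
    rw [Nat.choose_symm hi', mul_comm]
  have h2 : a m s ≤ ∑ i ∈ range (s + 1), 2 ^ m * (m.choose i * s.choose i) := by
    unfold a
    apply Finset.sum_le_sum
    intro i _
    by_cases hi : i ≤ m
    · rw [mul_comm (2 ^ m)]
      exact Nat.mul_le_mul le_rfl (Nat.pow_le_pow_right (by norm_num) hi)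
    · rw [Nat.choose_eq_zero_of_lt (not_le.mp hi)]
      simp
  refine h2.trans ?_
  rw [← Finset.mul_sum, h1]
  apply Nat.mul_le_mul le_rfl
  have h3 : ∑ i ∈ range (s + 1), m.choose i * s.choose i
      ≤ ∑ i ∈ range (m + s + 1), m.choose i * s.choose i := by
    apply Finset.sum_le_sum_of_subset
    intro i hi
    rw [mem_range] at hi ⊢
    omega
  refine h3.trans (le_of_eq ?_)
  symm
  apply Finset.sum_subset
  · intro i hi
    rw [mem_range] at hi ⊢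
    omega
  · intro i _ hi
    rw [mem_range, not_lt] at hi
    rw [Nat.choose_eq_zero_of_lt (by omega : m < i)]
    simp

theorem choose_le_a (m s : ℕ) : 2 ^ m * s.choose m ≤ a m s := by
  by_cases h : m ≤ s
  · have h1 : m.choose m * s.choose m * 2 ^ m ≤ a m s := by
      unfold a
      exact Finset.single_le_sum (f := fun i => m.choose i * s.choose i * 2 ^ i)
        (fun i _ => Nat.zero_le _) (mem_range.mpr (by omega))
    rw [Nat.choose_self, one_mul, mul_comm] at h1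
    exact h1
  · rw [Nat.choose_eq_zero_of_lt (not_le.mp h)]
    simp

theorem three_pow_le_a {m s k : ℕ} (h : k ≤ m) (h' : k ≤ s) : 3 ^ k ≤ a m s := by
  refine le_trans ?_ (a_mono h h')
  clear h h'
  induction k with
  | zero => simpa using one_le_a 0 0
  | succ k ih =>
    rw [a_succ_succ, pow_succ]
    have h1 : a k k ≤ a k (k + 1) := a_mono le_rfl (Nat.le_succ k)
    have h2 : a k k ≤ a (k + 1) k := a_mono (Nat.le_succ k) le_rfl
    omega

theorem four_mul_le_a {k : ℕ} (hk : 2 ≤ k) (r : ℕ) : 4 * r ≤ a k r := by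
  refine le_trans ?_ (a_mono hk (le_refl r))
  rcases Nat.eq_zero_or_pos r with h | h
  · subst h
    simp
  · have h1 : (2 : ℕ).choose 1 * r.choose 1 * 2 ^ 1 ≤ a 2 r := by
      unfold a
      exact Finset.single_le_sum (f := fun i => (2 : ℕ).choose i * r.choose i * 2 ^ i)
        (fun i _ => Nat.zero_le _) (mem_range.mpr (by omega))
    have h2 : (2 : ℕ).choose 1 * r.choose 1 * 2 ^ 1 = 4 * r := by
      simp
      ring
    omega

end Pool.Agent.SG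
end

section

/-!
# L4: the numbers `a(m,s)` along the layers

PROOF. `a_layer`: induction on `t`: `a (k+1) r + 2 t a k r ≤ a (k+1) (r+t)`; the step is `a_succ_succ`:
`a (k+1) (r+t+1) = a k (r+t+1) + a (k+1) (r+t) + a k (r+t) ≥ a (k+1) (r+t) + 2 a k r` (`a_mono`). So `t a k r ≤ a (k+1) (r+t)`.
`a_layers`: induction on `J`: `t^(J+1) a k r = t (t^J a k r) ≤ t a (k+J) (r+Jt) ≤ a (k+J+1) (r+Jt+t)`.
`lemR2`: induction on `J` (as `lemR` in R1.lean, whose private lemmas you may copy). Step from `J` to `J+1` (`2(J+1) ≤ m`, `2(J+1)t ≤ s`): put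
`m' = m - J`, `s' = s - J t`. Then `m' - 1 ≥ m/2`, `s' - t ≥ s/2`. For `i ≤ t`: `a m' s' ≤ (1+4m/s)^i a m' (s'-i)` (induction on `i`; `a_step`:
`a m' (r+1) ≤ (1 + 2m'/(r+1)) a m' r`, here `r + 1 = s' - i ≥ s/2`, `m' ≤ m`), and `a m' (s'-t) ≤ (1+4s/m) a (m'-1) (s'-t)` (`a_step'`:
`a (n+1) r ≤ (1 + 2r/(n+1)) a n r`, here `n + 1 = m' ≥ m/2`, `r ≤ s`).
-/

set_option autoImplicit false

namespace Pool.Agent.SG

private theorem L4_s {m s m' r : ℕ} (hs : 1 ≤ s) (h1 : m' ≤ m) (h2 : s ≤ 2 * (r + 1)) :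
    (a m' (r + 1) : ℝ) ≤ (1 + 4 * (m : ℝ) / s) * a m' r := by
  have h : ((r : ℝ) + 1) * a m' (r + 1) ≤ (r + 1 + 2 * m') * a m' r := by
    exact_mod_cast a_step m' r
  have hs0 : (0 : ℝ) < s := by exact_mod_cast hs
  have hr : (0 : ℝ) < (r : ℝ) + 1 := by positivity
  have h3 : (a m' (r + 1) : ℝ) ≤ ((r + 1 + 2 * m') / (r + 1)) * a m' r := by
    rw [div_mul_eq_mul_div, le_div_iff₀ hr]
    linarith
  refine h3.trans (mul_le_mul_of_nonneg_right ?_ (Nat.cast_nonneg _))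
  rw [div_le_iff₀ hr]
  have h4 : (s : ℝ) ≤ 2 * (r + 1) := by exact_mod_cast h2
  have h5 : (m' : ℝ) ≤ m := by exact_mod_cast h1
  have h6 : 2 * (m : ℝ) ≤ 4 * m / s * (r + 1) := by
    rw [div_mul_eq_mul_div, le_div_iff₀ hs0]
    have : (0 : ℝ) ≤ m := Nat.cast_nonneg _
    nlinarith
  linarith

private theorem L4_m {m s n r : ℕ} (hm : 1 ≤ m) (h1 : r ≤ s) (h2 : m ≤ 2 * (n + 1)) :
    (a (n + 1) r : ℝ) ≤ (1 + 4 * (s : ℝ) / m) * a n r := by
  have h : ((n : ℝ) + 1) * a (n + 1) r ≤ (n + 1 + 2 * r) * a n r := by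
    exact_mod_cast a_step' n r
  have hm0 : (0 : ℝ) < m := by exact_mod_cast hm
  have hr : (0 : ℝ) < (n : ℝ) + 1 := by positivity
  have h3 : (a (n + 1) r : ℝ) ≤ ((n + 1 + 2 * r) / (n + 1)) * a n r := by
    rw [div_mul_eq_mul_div, le_div_iff₀ hr]
    linarith
  refine h3.trans (mul_le_mul_of_nonneg_right ?_ (Nat.cast_nonneg _))
  rw [div_le_iff₀ hr]
  have h4 : (m : ℝ) ≤ 2 * (n + 1) := by exact_mod_cast h2
  have h5 : (r : ℝ) ≤ s := by exact_mod_cast h1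
  have h6 : 2 * (s : ℝ) ≤ 4 * s / m * (n + 1) := by
    rw [div_mul_eq_mul_div, le_div_iff₀ hm0]
    have : (0 : ℝ) ≤ s := Nat.cast_nonneg _
    nlinarith
  linarith

private theorem L4_si {m s m' r : ℕ} (hs : 1 ≤ s) (h1 : m' ≤ m) (t : ℕ) (h0 : t ≤ r)
    (h2 : s ≤ 2 * (r - t)) :
    (a m' r : ℝ) ≤ (1 + 4 * (m : ℝ) / s) ^ t * a m' (r - t) := by
  induction t with
  | zero => simp
  | succ t ih =>
    have h3 := ih (by omega) (by omega)
    refine h3.trans ?_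
    have h4 : r - t = (r - (t + 1)) + 1 := by omega
    have h5 := L4_s (m := m) (s := s) (m' := m') (r := r - (t + 1)) hs h1 (by omega)
    rw [h4, pow_succ, mul_assoc]
    exact mul_le_mul_of_nonneg_left h5 (by positivity)

theorem a_layer (k r t : ℕ) : t * a k r ≤ a (k + 1) (r + t) := by
  have key : ∀ t : ℕ, a (k + 1) r + 2 * t * a k r ≤ a (k + 1) (r + t) := by
    intro t
    induction t with
    | zero => simp
    | succ t ih =>
      have h1 : a (k + 1) (r + t + 1) = a k (r + t + 1) + a (k + 1) (r + t) + a k (r + t) :=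
        a_succ_succ k (r + t)
      have h2 : a k r ≤ a k (r + t) := a_mono le_rfl (by omega)
      have h3 : a k r ≤ a k (r + t + 1) := a_mono le_rfl (by omega)
      have h4 : r + (t + 1) = r + t + 1 := by omega
      rw [h4, h1]
      have h5 : 2 * (t + 1) * a k r = 2 * t * a k r + a k r + a k r := by ring
      rw [h5]
      omega
  have h := key t
  have h2 : t * a k r ≤ 2 * t * a k r := Nat.mul_le_mul_right _ (by omega)
  omega

theorem a_layers (k r t J : ℕ) : t ^ J * a k r ≤ a (k + J) (r + J * t) := by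
  induction J with
  | zero => simp
  | succ J ih =>
    have h1 := a_layer (k + J) (r + J * t) t
    have h2 : r + (J + 1) * t = r + J * t + t := by ring
    rw [h2, ← add_assoc k J 1, pow_succ]
    calc t ^ J * t * a k r = t * (t ^ J * a k r) := by ring
      _ ≤ t * a (k + J) (r + J * t) := Nat.mul_le_mul_left _ ih
      _ ≤ _ := h1

theorem lemR2 {m s t : ℕ} (hm : 1 ≤ m) (hs : 1 ≤ s) (J : ℕ) (h1 : 2 * J ≤ m)
    (h2 : 2 * (J * t) ≤ s) :
    (a m s : ℝ) ≤ ((1 + 4 * (m : ℝ) / s) ^ t * (1 + 4 * (s : ℝ) / m)) ^ J *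
      a (m - J) (s - J * t) := by
  induction J with
  | zero => simp
  | succ J ih =>
    have h5 : (J + 1) * t = J * t + t := by ring
    rw [h5] at h2 ⊢
    have h3 := ih (by omega) (by omega)
    refine h3.trans ?_
    obtain ⟨n, hn⟩ : ∃ n, m - J = n + 1 := ⟨m - J - 1, by omega⟩
    have h4 : (a (m - J) (s - J * t) : ℝ) ≤
        (1 + 4 * (m : ℝ) / s) ^ t * a (m - J) (s - J * t - t) :=
      L4_si hs (Nat.sub_le _ _) t (by omega) (by omega)
    have h6 : (a (m - J) (s - J * t - t) : ℝ) ≤ (1 + 4 * (s : ℝ) / m) * a n (s - J * t - t) := by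
      rw [hn]
      exact L4_m hm (by omega) (by omega)
    have h7 : m - (J + 1) = n := by omega
    have h8 : s - (J * t + t) = s - J * t - t := by omega
    rw [h7, h8, pow_succ, mul_assoc]
    apply mul_le_mul_of_nonneg_left _ (by positivity)
    refine h4.trans ?_
    rw [mul_assoc]
    exact mul_le_mul_of_nonneg_left h6 (by positivity)

end Pool.Agent.SG
end

section

/-!
# L5: the case `m ≤ s ≤ m^4`, `m ≥ 32`, with a loss polynomial in the logarithm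

PROOF. `e := Nat.log 2 m ≥ 5`, `2^e ≤ m < 2^(e+1)`. `ℓ := Nat.log 2 (a m s) + 1`: `a m s < 2^ℓ`. `a m s ≤ (2s+1)^m` (`a_le_pow`),
`2s + 1 ≤ 2m^4 + 1 ≤ m^5 < 2^(5(e+1))`, so `ℓ ≤ 5 m (e+1) ≤ 2^(e+1) * 2^(e+1)` (`5(e+1) ≤ 2^(e+1)`), so `J := Nat.clog 2 ℓ ≤ 2(e+1)`,
`ℓ ≤ 2^J` (`Nat.le_pow_clog`), `2^J < 2ℓ` or `2^J ≤ 2ℓ` (`Nat.clog`; `ℓ ≥ 2`: `Nat.pow_pred_clog_lt_self`). For `e ≥ 6`: `4(e+1) ≤ 2^e ≤ m`,
so `2J ≤ m`. For `e = 5` (`32 ≤ m < 64`): `ℓ ≤ 30 m < 2048 = 2^11`, so `J ≤ 11` and `2J ≤ 22 ≤ m` (numbers: `5 * m * 6 ≤ 30 * 63 = 1890`).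
(Q2.lean has the same computation with `m ≥ 64`.)
`choose_t`: `t`, `t m ≤ s`, so `2Jt ≤ m t ≤ s`. `k := m - J ≥ m/2 ≥ 16`, `r := s - J t`. `lemR2`: `a m s ≤ (128 t)^J a k r`.
Prime: `X := a k r / 2 ≥ 1` (`a k r ≥ 3^..` or `four_mul_le_a`; `r ≥ s/2 ≥ 1`), Bertrand (`Nat.exists_prime_lt_and_le_two_mul`): `p` prime,
`X < p ≤ 2X ≤ a k r`. So `a k r ≤ 2X + 1 < 2p`, `2r ≤ a k r / 2 = X < p` (`four_mul_le_a : 4 * r ≤ a k r`).
`complete2`: `(1 + a k r/p)^(2^J) ≥ 2^(2^J) ≥ 2^ℓ > a m s ≥ t^J * a k r ≥ t^J * p` (`a_layers` with `k + J = m`, `r + J t = s`). So there is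
`N = t^J p` and `b : Fin m → ZMod N` with `Sp b s` everything (transport along `k + J = m`, `r + J * t = s` by `obtain rfl`/`subst`, best done
by introducing `k`, `r` with `m = k + J`, `s = r + J * t` and `subst`).
`a m s ≤ (128 t)^J * 2p = 2 * 128^J * N`, `128^J = (2^J)^7 ≤ (2ℓ)^7 = 128 ℓ^7`. Total `256 ℓ^7 N`.
-/

set_option autoImplicit false

namespace Pool.Agent.SG

private theorem L5_pow1 {l : ℕ} (hl : 5 ≤ l) : 4 * (l + 1) ≤ 2 ^ l := by
  induction l, hl using Nat.le_induction with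
  | base => norm_num
  | succ n hn ih =>
    rw [pow_succ]
    omega

private theorem L5_pow2 {l : ℕ} (hl : 5 ≤ l) : 5 * l ≤ 2 ^ l := by
  have h1 := L5_pow1 hl
  induction l, hl using Nat.le_induction with
  | base => norm_num
  | succ n hn ih =>
    have h3 := ih (L5_pow1 hn)
    have h4 := L5_pow1 hn
    rw [pow_succ]
    omega

theorem q3a {m s : ℕ} (hm : 32 ≤ m) (h1 : m ≤ s) (h2 : s ≤ m ^ 4) :
    ∃ N : ℕ, 1 ≤ N ∧ (∃ b : Fin m → ZMod N, ∀ x, x ∈ Sp b s) ∧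
      (a m s : ℝ) ≤ 256 * ((Nat.log 2 (a m s) + 1 : ℕ) : ℝ) ^ 7 * N := by
  have ha1 : 1 ≤ a m s := one_le_a m s
  obtain ⟨l, hl5, hl1, hl2⟩ : ∃ l : ℕ, 5 ≤ l ∧ 2 ^ l ≤ m ∧ m < 2 ^ (l + 1) := by
    refine ⟨Nat.log 2 m, ?_, Nat.pow_log_le_self 2 (by omega), Nat.lt_pow_succ_log_self (by norm_num) m⟩
    exact Nat.le_log_of_pow_le (by norm_num) (by norm_num; exact hm)
  obtain ⟨ℓ, hℓ⟩ : ∃ ℓ : ℕ, ℓ = Nat.log 2 (a m s) + 1 := ⟨_, rfl⟩
  have ha : a m s < 2 ^ ℓ := by rw [hℓ]; exact Nat.lt_pow_succ_log_self (by norm_num) _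
  have h4s : 4 * s ≤ a m s := four_mul_le_a (by omega) s
  have hℓ1 : 2 ≤ ℓ := by
    have : 1 ≤ Nat.log 2 (a m s) := Nat.le_log_of_pow_le (by norm_num) (by omega)
    omega
  have hℓ2 : ℓ ≤ 5 * m * (l + 1) := by
    have e1 : a m s < 2 ^ (5 * m * (l + 1)) := by
      have e2 : 2 * s + 1 ≤ m ^ 5 := by
        have : m ^ 5 = m * m ^ 4 := by ring
        rw [this]
        have h4 : 1 ≤ m ^ 4 := Nat.one_le_pow _ _ (by omega)
        have h5 : 32 * m ^ 4 ≤ m * m ^ 4 := Nat.mul_le_mul_right _ hm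
        omega
      calc a m s ≤ (2 * s + 1) ^ m := a_le_pow m s
        _ ≤ (m ^ 5) ^ m := Nat.pow_le_pow_left e2 m
        _ = m ^ (5 * m) := by rw [← pow_mul]
        _ < (2 ^ (l + 1)) ^ (5 * m) := Nat.pow_lt_pow_left hl2 (by omega)
        _ = 2 ^ (5 * m * (l + 1)) := by rw [← pow_mul]; ring_nf
    have e3 := Nat.log_lt_of_lt_pow (by omega) e1
    omega
  obtain ⟨J, hJ1, hJ2, hJ3⟩ : ∃ J : ℕ, ℓ ≤ 2 ^ J ∧ J ≤ 2 * (l + 1) ∧ 2 ^ J ≤ 2 * ℓ := by
    refine ⟨Nat.clog 2 ℓ, Nat.le_pow_clog (by norm_num) ℓ, ?_, ?_⟩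
    · refine Nat.clog_le_of_le_pow ?_
      have e1 : 5 * (l + 1) ≤ 2 ^ (l + 1) := L5_pow2 (by omega)
      calc ℓ ≤ 5 * m * (l + 1) := hℓ2
        _ = 5 * (l + 1) * m := by ring
        _ ≤ 2 ^ (l + 1) * 2 ^ (l + 1) := Nat.mul_le_mul e1 hl2.le
        _ = 2 ^ (2 * (l + 1)) := by rw [← pow_add]; ring_nf
    · have e1 : 2 ^ (Nat.clog 2 ℓ).pred < ℓ := Nat.pow_pred_clog_lt_self (by norm_num) (by omega)
      have e2 : 0 < Nat.clog 2 ℓ := Nat.clog_pos (by norm_num) (by omega)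
      obtain ⟨j, hj⟩ : ∃ j, Nat.clog 2 ℓ = j + 1 := ⟨Nat.clog 2 ℓ - 1, by omega⟩
      rw [hj] at e1 ⊢
      rw [Nat.pred_succ] at e1
      rw [pow_succ]
      omega
  have hLm : 4 * (l + 1) ≤ m := (L5_pow1 (by omega)).trans hl1
  have hJm : 2 * J ≤ m := by omega
  obtain ⟨t, ht1, htα, htm, htb⟩ := choose_t (m := m) (s := s) (by omega) h1
  have hJs : 2 * (J * t) ≤ s := by
    calc 2 * (J * t) = (2 * J) * t := by ring
      _ ≤ m * t := Nat.mul_le_mul_right _ hJm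
      _ = t * m := mul_comm _ _
      _ ≤ s := htm
  have hR := lemR2 (m := m) (s := s) (t := t) (by omega) (by omega) J hJm hJs
  have hA : (a m s : ℝ) ≤ (128 * (t : ℝ)) ^ J * a (m - J) (s - J * t) := by
    refine hR.trans ?_
    refine mul_le_mul_of_nonneg_right ?_ (Nat.cast_nonneg _)
    exact pow_le_pow_left₀ (by positivity) htb J
  obtain ⟨k, hk⟩ : ∃ k, m = k + J := ⟨m - J, by omega⟩
  obtain ⟨r, hr⟩ : ∃ r, s = r + J * t := ⟨s - J * t, by omega⟩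
  have hk2 : m - J = k := by omega
  have hr2 : s - J * t = r := by omega
  rw [hk2, hr2] at hA
  have hkk : 2 ≤ k := by omega
  have hrr : 1 ≤ r := by omega
  have h4r : 4 * r ≤ a k r := four_mul_le_a hkk r
  obtain ⟨p, hp, hp1, hp2⟩ := Nat.exists_prime_lt_and_le_two_mul (a k r / 2) (by omega)
  have hp3 : a k r ≤ 2 * p := by omega
  have hp4 : 2 * r < p := by omega
  have hp5 : p ≤ a k r := by omega
  have hp0 : (0 : ℝ) < p := by exact_mod_cast hp.pos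
  have hlay : t ^ J * a k r ≤ a m s := by
    rw [hk, hr]
    exact a_layers k r t J
  have hbig : (t : ℝ) ^ J * p < (1 + (a k r : ℝ) / p) ^ (2 ^ J) := by
    have e1 : (2 : ℝ) ≤ 1 + (a k r : ℝ) / p := by
      have : (1 : ℝ) ≤ (a k r : ℝ) / p := by
        rw [le_div_iff₀ hp0, one_mul]
        exact_mod_cast hp5
      linarith
    have e2 : t ^ J * p < 2 ^ (2 ^ J) := by
      calc t ^ J * p ≤ t ^ J * a k r := Nat.mul_le_mul_left _ hp5
        _ ≤ a m s := hlay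
        _ < 2 ^ ℓ := ha
        _ ≤ 2 ^ (2 ^ J) := Nat.pow_le_pow_right (by norm_num) hJ1
    calc (t : ℝ) ^ J * p < (2 : ℝ) ^ (2 ^ J) := by exact_mod_cast e2
      _ ≤ _ := pow_le_pow_left₀ (by norm_num) e1 _
  obtain ⟨N, hN, b, hb⟩ := complete2 hp hp4 htα J hbig
  have hN1 : 1 ≤ N := by
    rw [hN]
    exact Nat.mul_pos (pow_pos (by omega) J) hp.pos
  refine ⟨N, hN1, ?_, ?_⟩
  · rw [hk, hr]
    exact ⟨b, hb⟩
  · rw [← hℓ]
    have e1 : ((2 : ℝ) ^ J) ≤ 2 * ℓ := by exact_mod_cast hJ3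
    have e2 : (128 : ℝ) ^ J ≤ 128 * (ℓ : ℝ) ^ 7 := by
      calc (128 : ℝ) ^ J = ((2 : ℝ) ^ J) ^ 7 := by
            rw [← pow_mul, mul_comm J 7, pow_mul]
            norm_num
        _ ≤ (2 * (ℓ : ℝ)) ^ 7 := pow_le_pow_left₀ (by positivity) e1 7
        _ = 128 * (ℓ : ℝ) ^ 7 := by ring
    have e3 : (a k r : ℝ) ≤ 2 * p := by exact_mod_cast hp3
    have e4 : (N : ℝ) = (t : ℝ) ^ J * p := by rw [hN]; push_cast; ring
    have e5 : (0 : ℝ) ≤ (N : ℝ) := Nat.cast_nonneg _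
    calc (a m s : ℝ) ≤ (128 * (t : ℝ)) ^ J * a k r := hA
      _ ≤ (128 * (t : ℝ)) ^ J * (2 * p) := mul_le_mul_of_nonneg_left e3 (by positivity)
      _ = 2 * (128 : ℝ) ^ J * N := by rw [e4, mul_pow]; ring
      _ ≤ 2 * (128 * (ℓ : ℝ) ^ 7) * N := by
          refine mul_le_mul_of_nonneg_right ?_ e5
          exact mul_le_mul_of_nonneg_left e2 (by norm_num)
      _ = 256 * (ℓ : ℝ) ^ 7 * N := by ring

end Pool.Agent.SG
end

section

/-!
# P1: the choice of the prime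

PROOF. `T := (t+1)^J`, `q := T / ℓ` (natural division), `q ≥ 1` (`Nat.div_pos`). `A := a (k+J*t) (r+J)`, `α := a k r`, `A ≥ α` (`a_mono`).
`X := min (q * α) A / 2`. `X ≥ 1`: `q * α ≥ 2` (hypothesis) and `A ≥ 2` (`three_pow_le_a` with `1 ≤ k + J*t`, `1 ≤ r + J`: `A ≥ 3`).
Bertrand (`Nat.exists_prime_lt_and_le_two_mul`): a prime `p` with `X < p ≤ 2 X`. So `p ≤ q * α`, `p ≤ A < 2^ℓ`, and `min (q*α) A < 2 * p` (`X + 1 ≤ p`).
`2 r < p`: `q α ≥ α ≥ 4 r` and `A ≥ α ≥ 4 r` (`four_mul_le_a`), so `X ≥ 2 r`.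
`(1 + α/p)^T ≥ ((1 + α/p)^q)^ℓ ≥ (1 + q α/p)^ℓ ≥ 2^ℓ > p`: `q * ℓ ≤ T` (`Nat.div_mul_le_self`), Bernoulli (`one_add_mul_le_pow`),
`q α ≥ p`. Apply `complete` (`Fact p.Prime`).
-/

set_option autoImplicit false

namespace Pool.Agent.SG

open Finset

theorem propP {k r t J ℓ : ℕ} (hk : 2 ≤ k) (hs : 1 ≤ r + J) (hℓ : 1 ≤ ℓ)
    (ha : a (k + J * t) (r + J) < 2 ^ ℓ) (hT : ℓ ≤ (t + 1) ^ J)
    (h2 : 2 ≤ ((t + 1) ^ J / ℓ) * a k r) :
    ∃ p : ℕ, p.Prime ∧ (∃ b : Fin (k + J * t) → ZMod p, ∀ x, x ∈ Sp b (r + J)) ∧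
      min (((t + 1) ^ J / ℓ) * a k r) (a (k + J * t) (r + J)) < 2 * p := by
  set T := (t + 1) ^ J with hTdef
  set q := T / ℓ with hq
  set A := a (k + J * t) (r + J) with hA
  set α := a k r with hα
  have hq1 : 1 ≤ q := Nat.div_pos hT hℓ
  have hαA : α ≤ A := a_mono (Nat.le_add_right _ _) (Nat.le_add_right _ _)
  have h3 : 3 ^ 1 ≤ A := three_pow_le_a (by omega) hs
  have h4 : 4 * r ≤ α := four_mul_le_a hk r
  have hqα : α ≤ q * α := Nat.le_mul_of_pos_left _ hq1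
  set M := min (q * α) A with hM
  have hM2 : 2 ≤ M := le_min h2 (by omega)
  have hM4 : 4 * r ≤ M := le_min (h4.trans hqα) (h4.trans hαA)
  obtain ⟨p, hp, hp1, hp2⟩ := Nat.exists_prime_lt_and_le_two_mul (M / 2) (by omega)
  have hpM : p ≤ M := by omega
  have hpq : p ≤ q * α := hpM.trans (min_le_left _ _)
  have hpA : p ≤ A := hpM.trans (min_le_right _ _)
  have hp2l : p < 2 ^ ℓ := lt_of_le_of_lt hpA ha
  have hfact : Fact p.Prime := ⟨hp⟩
  have hp0 : (0 : ℝ) < p := by exact_mod_cast hp.pos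
  have hx : (0 : ℝ) ≤ (α : ℝ) / p := by positivity
  have hb1 : (2 : ℝ) ≤ (1 + (α : ℝ) / p) ^ q := by
    have h5 := one_add_mul_le_pow (show (-2 : ℝ) ≤ (α : ℝ) / p by linarith) q
    have h6 : (1 : ℝ) ≤ (q : ℝ) * ((α : ℝ) / p) := by
      rw [← mul_div_assoc, le_div_iff₀ hp0, one_mul]
      exact_mod_cast hpq
    linarith
  have hb2 : (2 : ℝ) ^ ℓ ≤ (1 + (α : ℝ) / p) ^ T := by
    calc (2 : ℝ) ^ ℓ ≤ ((1 + (α : ℝ) / p) ^ q) ^ ℓ := pow_le_pow_left₀ (by norm_num) hb1 ℓ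
      _ = (1 + (α : ℝ) / p) ^ (q * ℓ) := by rw [← pow_mul]
      _ ≤ (1 + (α : ℝ) / p) ^ T :=
        pow_le_pow_right₀ (by linarith) (Nat.div_mul_le_self T ℓ)
  have hlt : (p : ℝ) < (1 + (α : ℝ) / p) ^ T := by
    have h7 : (p : ℝ) < (2 : ℝ) ^ ℓ := by exact_mod_cast hp2l
    linarith
  exact ⟨p, hp, complete (by omega) t J hlt, by omega⟩

end Pool.Agent.SG
end

section

/-!
# R1: the loss in one stage

PROOF. `lemR`: induction on `J`. Step from `J` to `J + 1` (so `2(J+1)t ≤ m`, `2(J+1) ≤ s+1`): put `m' = m - J t`, `s' = s - J`; then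
`m' - t ≥ m/2`, `s' ≥ (s+1)/2 ≥ 1`. `a m' s' ≤ (1 + 2m'/s') a m' (s'-1) ≤ (1 + 4m/s) a m' (s'-1)` (`a_step`, `m' ≤ m`, `s' ≥ s/2`), and for every
`i ≤ t`: `a m' (s'-1) ≤ (1 + 4s/m)^i a (m'-i) (s'-1)` (induction on `i`; `a_step'` with `m'-i-1 + 1 ≥ m/2`: ratio
`1 + 2(s'-1)/(m'-i) ≤ 1 + 4s/m`).
`EA`: `(1 + 4s/m)^t ≤ exp(4st/m) ≤ exp 2 < 8` (`Real.add_one_le_exp`, `Real.exp_one_lt_d9`), `1 + 4m/s ≤ 1 + 8(t+1) ≤ 9(t+1)`.
`EB`: `1 + 4m/s ≤ 9`, `1 + 4s/m ≤ 5`. `EC`: `1 + 4m/s ≤ 5` and `1 + 4s/m ≤ 5s/m`.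
-/

set_option autoImplicit false

namespace Pool.Agent.SG

private theorem R1_s {m s m' r : ℕ} (hs : 1 ≤ s) (h1 : m' ≤ m) (h2 : s ≤ 2 * (r + 1)) :
    (a m' (r + 1) : ℝ) ≤ (1 + 4 * (m : ℝ) / s) * a m' r := by
  have h : ((r : ℝ) + 1) * a m' (r + 1) ≤ (r + 1 + 2 * m') * a m' r := by
    exact_mod_cast a_step m' r
  have hs0 : (0 : ℝ) < s := by exact_mod_cast hs
  have hr : (0 : ℝ) < (r : ℝ) + 1 := by positivity
  have h3 : (a m' (r + 1) : ℝ) ≤ ((r + 1 + 2 * m') / (r + 1)) * a m' r := by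
    rw [div_mul_eq_mul_div, le_div_iff₀ hr]
    linarith
  refine h3.trans (mul_le_mul_of_nonneg_right ?_ (Nat.cast_nonneg _))
  rw [div_le_iff₀ hr]
  have h4 : (s : ℝ) ≤ 2 * (r + 1) := by exact_mod_cast h2
  have h5 : (m' : ℝ) ≤ m := by exact_mod_cast h1
  have h6 : 2 * (m : ℝ) ≤ 4 * m / s * (r + 1) := by
    rw [div_mul_eq_mul_div, le_div_iff₀ hs0]
    have : (0 : ℝ) ≤ m := Nat.cast_nonneg _
    nlinarith
  linarith

private theorem R1_m {m s n r : ℕ} (hm : 1 ≤ m) (h1 : r ≤ s) (h2 : m ≤ 2 * (n + 1)) :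
    (a (n + 1) r : ℝ) ≤ (1 + 4 * (s : ℝ) / m) * a n r := by
  have h : ((n : ℝ) + 1) * a (n + 1) r ≤ (n + 1 + 2 * r) * a n r := by
    exact_mod_cast a_step' n r
  have hm0 : (0 : ℝ) < m := by exact_mod_cast hm
  have hr : (0 : ℝ) < (n : ℝ) + 1 := by positivity
  have h3 : (a (n + 1) r : ℝ) ≤ ((n + 1 + 2 * r) / (n + 1)) * a n r := by
    rw [div_mul_eq_mul_div, le_div_iff₀ hr]
    linarith
  refine h3.trans (mul_le_mul_of_nonneg_right ?_ (Nat.cast_nonneg _))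
  rw [div_le_iff₀ hr]
  have h4 : (m : ℝ) ≤ 2 * (n + 1) := by exact_mod_cast h2
  have h5 : (r : ℝ) ≤ s := by exact_mod_cast h1
  have h6 : 2 * (s : ℝ) ≤ 4 * s / m * (n + 1) := by
    rw [div_mul_eq_mul_div, le_div_iff₀ hm0]
    have : (0 : ℝ) ≤ s := Nat.cast_nonneg _
    nlinarith
  linarith

private theorem R1_mi {m s m' r : ℕ} (hm : 1 ≤ m) (h1 : r ≤ s) (t : ℕ) (h0 : t ≤ m')
    (h2 : m ≤ 2 * (m' - t)) :
    (a m' r : ℝ) ≤ (1 + 4 * (s : ℝ) / m) ^ t * a (m' - t) r := by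
  induction t with
  | zero => simp
  | succ t ih =>
    have h3 := ih (by omega) (by omega)
    refine h3.trans ?_
    have h4 : m' - t = (m' - (t + 1)) + 1 := by omega
    have h5 := R1_m (s := s) (n := m' - (t + 1)) (r := r) hm h1 (by omega)
    rw [h4, pow_succ, mul_assoc]
    exact mul_le_mul_of_nonneg_left h5 (by positivity)

theorem lemR {m s t : ℕ} (hm : 1 ≤ m) (hs : 1 ≤ s) (J : ℕ) (h1 : 2 * (J * t) ≤ m)
    (h2 : 2 * J ≤ s + 1) :
    (a m s : ℝ) ≤ ((1 + 4 * (m : ℝ) / s) * (1 + 4 * (s : ℝ) / m) ^ t) ^ J *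
      a (m - J * t) (s - J) := by
  induction J with
  | zero => simp
  | succ J ih =>
    have h5 : (J + 1) * t = J * t + t := by ring
    rw [h5] at h1 ⊢
    have h3 := ih (by omega) (by omega)
    refine h3.trans ?_
    obtain ⟨r, hr⟩ : ∃ r, s - J = r + 1 := ⟨s - J - 1, by omega⟩
    have h4 : (a (m - J * t) (s - J) : ℝ) ≤ (1 + 4 * (m : ℝ) / s) * a (m - J * t) r := by
      rw [hr]
      exact R1_s hs (Nat.sub_le _ _) (by omega)
    have h6 : (a (m - J * t) r : ℝ) ≤ (1 + 4 * (s : ℝ) / m) ^ t * a (m - J * t - t) r :=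
      R1_mi hm (by omega) t (by omega) (by omega)
    have h7 : m - (J * t + t) = m - J * t - t := by omega
    have h8 : s - (J + 1) = r := by omega
    rw [h7, h8, pow_succ, mul_assoc]
    apply mul_le_mul_of_nonneg_left _ (by positivity)
    refine h4.trans ?_
    rw [mul_assoc]
    exact mul_le_mul_of_nonneg_left h6 (by positivity)

theorem EA {m s t : ℕ} (hs : 1 ≤ s) (ht : 1 ≤ t) (h1 : 2 * s * t ≤ m) (h2 : m < 2 * s * (t + 1)) :
    (1 + 4 * (m : ℝ) / s) * (1 + 4 * (s : ℝ) / m) ^ t ≤ 72 * (t + 1) := by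
  have hs0 : (0 : ℝ) < s := by exact_mod_cast hs
  have hm1 : 1 ≤ m := by nlinarith
  have hm0 : (0 : ℝ) < m := by exact_mod_cast hm1
  have h3 : 2 * (s : ℝ) * t ≤ m := by exact_mod_cast h1
  have h4 : (m : ℝ) ≤ 2 * s * (t + 1) := by exact_mod_cast h2.le
  have h5 : (1 + 4 * (s : ℝ) / m) ^ t ≤ 8 := by
    have h6 : 1 + 4 * (s : ℝ) / m ≤ Real.exp (4 * s / m) := by
      linarith [Real.add_one_le_exp (4 * (s : ℝ) / m)]
    have h7 : (1 + 4 * (s : ℝ) / m) ^ t ≤ Real.exp (4 * s / m) ^ t :=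
      pow_le_pow_left₀ (by positivity) h6 t
    refine h7.trans ?_
    rw [← Real.exp_nat_mul]
    have h8 : (t : ℝ) * (4 * s / m) ≤ 2 := by
      rw [← mul_div_assoc, div_le_iff₀ hm0]
      nlinarith
    have h9 : Real.exp ((t : ℝ) * (4 * s / m)) ≤ Real.exp 2 := Real.exp_le_exp.2 h8
    refine h9.trans ?_
    have h10 : Real.exp 2 = Real.exp 1 * Real.exp 1 := by
      rw [← Real.exp_add]; norm_num
    have h11 := Real.exp_one_lt_d9
    have h12 := Real.exp_pos 1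
    rw [h10]
    nlinarith
  have h6 : 1 + 4 * (m : ℝ) / s ≤ 9 * (t + 1) := by
    have h7 : 4 * (m : ℝ) / s ≤ 8 * (t + 1) := by
      rw [div_le_iff₀ hs0]
      nlinarith
    have h8 : (0 : ℝ) ≤ t := Nat.cast_nonneg _
    linarith
  calc (1 + 4 * (m : ℝ) / s) * (1 + 4 * (s : ℝ) / m) ^ t ≤ (9 * (t + 1)) * 8 :=
        mul_le_mul h6 h5 (by positivity) (by positivity)
    _ = 72 * (t + 1) := by ring

theorem EB {m s : ℕ} (hs : 1 ≤ s) (h1 : s ≤ m) (h2 : m < 2 * s) :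
    (1 + 4 * (m : ℝ) / s) * (1 + 4 * (s : ℝ) / m) ^ 1 ≤ 144 := by
  have hs0 : (0 : ℝ) < s := by exact_mod_cast hs
  have hm0 : (0 : ℝ) < m := by exact_mod_cast (hs.trans h1)
  have h3 : (s : ℝ) ≤ m := by exact_mod_cast h1
  have h4 : (m : ℝ) ≤ 2 * s := by exact_mod_cast h2.le
  have h5 : 1 + 4 * (m : ℝ) / s ≤ 9 := by
    have : 4 * (m : ℝ) / s ≤ 8 := by
      rw [div_le_iff₀ hs0]; linarith
    linarith
  have h6 : (1 + 4 * (s : ℝ) / m) ^ 1 ≤ 5 := by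
    rw [pow_one]
    have : 4 * (s : ℝ) / m ≤ 4 := by
      rw [div_le_iff₀ hm0]; linarith
    linarith
  calc (1 + 4 * (m : ℝ) / s) * (1 + 4 * (s : ℝ) / m) ^ 1 ≤ 9 * 5 :=
        mul_le_mul h5 h6 (by positivity) (by positivity)
    _ ≤ 144 := by norm_num

theorem EC {m s : ℕ} (hm : 1 ≤ m) (h1 : m ≤ s) :
    (1 + 4 * (m : ℝ) / s) * (1 + 4 * (s : ℝ) / m) ^ 1 ≤ 25 * (s : ℝ) / m := by
  have hm0 : (0 : ℝ) < m := by exact_mod_cast hm
  have hs0 : (0 : ℝ) < s := by exact_mod_cast (hm.trans h1)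
  have h3 : (m : ℝ) ≤ s := by exact_mod_cast h1
  have h5 : 1 + 4 * (m : ℝ) / s ≤ 5 := by
    have : 4 * (m : ℝ) / s ≤ 4 := by
      rw [div_le_iff₀ hs0]; linarith
    linarith
  have h6 : (1 + 4 * (s : ℝ) / m) ^ 1 ≤ 5 * (s : ℝ) / m := by
    rw [pow_one, le_div_iff₀ hm0, add_mul, div_mul_cancel₀ _ hm0.ne']
    linarith
  calc (1 + 4 * (m : ℝ) / s) * (1 + 4 * (s : ℝ) / m) ^ 1 ≤ 5 * (5 * (s : ℝ) / m) :=
        mul_le_mul h5 h6 (by positivity) (by positivity)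
    _ = 25 * (s : ℝ) / m := by ring

end Pool.Agent.SG
end
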