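import Pool.Agent.Lib.MP_fa6223_co.Mg.G002
import Pool.Agent.Lib.MP_fa6223_co.Mg.G003

section

/-!
# L7: the size of `log a(m,s)` for `s ≤ m^4`

PROOF. `a m s ≤ (2s+1)^m` (`a_le_pow`), `2s + 1 ≤ 2m^4 + 1 ≤ 3m^4 ≤ m^4 * m^2 = m^6` for `m ≥ 2` (for `m = 1`: `s ≤ 1`, `a 1 s ≤ 3`). So
`Nat.log 2 (a m s) + 1 ≤ log (a m s)/log 2 + 1 ≤ 6 m log m/log 2 + 1 ≤ 9 m log m + 1` (`Nat.pow_log_le_self`, `Real.log_two_gt_d9`), and
`log m ≤ 7 m^(1/7)` (`Real.log_le_rpow_div`), so `(log m)^7 ≤ 7^7 m` and the 7th power is at most `(63 m * m^(1/7) + 1)^7 ≤ 64^7 m^8`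
(`1 ≤ m * m^(1/7)`). Take `C = 64^7` (or any other constant).
-/

set_option autoImplicit false

namespace Pool.Agent.SG

theorem size7 : ∃ C : ℝ, 0 < C ∧ ∀ m s : ℕ, 1 ≤ m → s ≤ m ^ 4 →
    ((Nat.log 2 (a m s) + 1 : ℕ) : ℝ) ^ 7 ≤ C * (m : ℝ) ^ 8 := by
  refine ⟨2 * 85 ^ 7, by positivity, fun m s hm hs => ?_⟩
  have hm1 : (1 : ℝ) ≤ (m : ℝ) := by exact_mod_cast hm
  set y : ℝ := (2 * (m : ℝ)) ^ (1 / 7 : ℝ) with hy
  have hy1 : 1 ≤ y := Real.one_le_rpow (by linarith) (by norm_num)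
  have hy7 : y ^ 7 = 2 * (m : ℝ) := by
    rw [hy, ← Real.rpow_natCast, ← Real.rpow_mul (by linarith)]
    norm_num
  have hlog : Real.log (2 * (m : ℝ)) ≤ 7 * y := by
    have h1 := Real.log_le_rpow_div (x := 2 * (m : ℝ)) (ε := 1 / 7) (by linarith) (by norm_num)
    rw [← hy] at h1
    linarith
  have hlog0 : 0 ≤ Real.log (2 * (m : ℝ)) := Real.log_nonneg (by linarith)
  have hA : a m s ≤ (2 * m) ^ (6 * m) := by
    refine (a_le_pow m s).trans ?_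
    rw [pow_mul]
    apply Nat.pow_le_pow_left
    have h1 : 1 ≤ m ^ 4 := Nat.one_le_pow _ _ hm
    have h2 : m ^ 4 ≤ m ^ 6 := Nat.pow_le_pow_right hm (by norm_num)
    calc 2 * s + 1 ≤ 3 * m ^ 4 := by omega
      _ ≤ 64 * m ^ 6 := by omega
      _ = (2 * m) ^ 6 := by ring
  have hk : (Nat.log 2 (a m s) : ℝ) * Real.log 2 ≤ 6 * m * Real.log (2 * (m : ℝ)) := by
    rcases Nat.eq_zero_or_pos (a m s) with h0 | h0
    · rw [h0]
      simp only [Nat.log_zero_right, Nat.cast_zero, zero_mul]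
      positivity
    · have h1 : 2 ^ Nat.log 2 (a m s) ≤ (2 * m) ^ (6 * m) := (Nat.pow_log_le_self 2 h0.ne').trans hA
      have h2 : (2 : ℝ) ^ Nat.log 2 (a m s) ≤ (2 * (m : ℝ)) ^ (6 * m) := by exact_mod_cast h1
      have h3 := Real.log_le_log (by positivity) h2
      rw [Real.log_pow, Real.log_pow] at h3
      push_cast at h3
      exact h3
  have hlog2 : (1 / 2 : ℝ) ≤ Real.log 2 := by
    have := Real.log_two_gt_d9
    linarith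
  have hk0 : (0 : ℝ) ≤ (Nat.log 2 (a m s) : ℝ) := Nat.cast_nonneg _
  have hmy : 1 ≤ (m : ℝ) * y := by nlinarith
  have hk2 : (Nat.log 2 (a m s) : ℝ) ≤ 84 * (m * y) := by
    have h1 : (Nat.log 2 (a m s) : ℝ) * (1 / 2) ≤ (Nat.log 2 (a m s) : ℝ) * Real.log 2 :=
      mul_le_mul_of_nonneg_left hlog2 hk0
    have h2 : 6 * (m : ℝ) * Real.log (2 * (m : ℝ)) ≤ 6 * m * (7 * y) :=
      mul_le_mul_of_nonneg_left hlog (by linarith)
    nlinarith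
  have hk3 : ((Nat.log 2 (a m s) + 1 : ℕ) : ℝ) ≤ 85 * (m * y) := by
    push_cast
    linarith
  calc ((Nat.log 2 (a m s) + 1 : ℕ) : ℝ) ^ 7 ≤ (85 * (m * y)) ^ 7 :=
        pow_le_pow_left₀ (Nat.cast_nonneg _) hk3 7
    _ = 85 ^ 7 * (m : ℝ) ^ 7 * y ^ 7 := by ring
    _ = 2 * 85 ^ 7 * (m : ℝ) ^ 8 := by rw [hy7]; ring

end Pool.Agent.SG
end

section

/-!
# Q0: the general inequality

PROOF. `k := m - J*t ≥ m/2 ≥ 2`, `r := s - J`, `J ≤ s` (as `2J ≤ s + 1 ≤ 2s`), so `m = k + J*t`, `s = r + J` (obtain `k`, `r` with these equations and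
`subst`, or `generalize`). `T := (t+1)^J`, `q := T/ℓ ≥ 1`, `T < (q+1) ℓ ≤ 2 q ℓ` (`Nat.lt_div_mul_add` / `Nat.div_add_mod`).
`lemR`: `a m s ≤ E^J a k r = (E/(t+1))^J T a k r ≤ (E/(t+1))^J 2 ℓ q a k r`; put `D := (E/(t+1))^J ≥ 1`.
If `q * a k r ≤ 1`: `a m s ≤ 2 ℓ D ≤ 4 ℓ D f` (`one_le_f`). Otherwise `propP`: a prime `p ≤ f m s` (`le_f_of_Sp`) with
`min (q * a k r) (a m s) < 2p`. If `q * a k r < 2p`: `a m s ≤ 2 ℓ D · 2 f`. If `a m s < 2p`: `a m s ≤ 2 f ≤ 4 ℓ D f`.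
-/

set_option autoImplicit false

namespace Pool.Agent.SG

theorem star {m s t J ℓ : ℕ} (hm : 4 ≤ m) (hs : 1 ≤ s) (h1 : 2 * (J * t) ≤ m)
    (h2 : 2 * J ≤ s + 1) (hℓ : 1 ≤ ℓ) (ha : a m s < 2 ^ ℓ) (hT : ℓ ≤ (t + 1) ^ J) {E : ℝ}
    (hE : (1 + 4 * (m : ℝ) / s) * (1 + 4 * (s : ℝ) / m) ^ t ≤ E) (hE1 : (t : ℝ) + 1 ≤ E) :
    (a m s : ℝ) ≤ 4 * ℓ * (E / (t + 1)) ^ J * f m s := by
  have hR := lemR (m := m) (s := s) (t := t) (by omega) hs J h1 h2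
  obtain ⟨k, hk⟩ : ∃ k, m = k + J * t := ⟨m - J * t, by omega⟩
  obtain ⟨r, hr⟩ : ∃ r, s = r + J := ⟨s - J, by omega⟩
  have hk2 : m - J * t = k := by omega
  have hr2 : s - J = r := by omega
  rw [hk2, hr2] at hR
  have hkk : 2 ≤ k := by omega
  obtain ⟨q, hq⟩ : ∃ q, q = (t + 1) ^ J / ℓ := ⟨_, rfl⟩
  have hq1 : 1 ≤ q := by
    rw [hq]
    exact Nat.div_pos hT hℓ
  have hTq : (t + 1) ^ J < (q + 1) * ℓ := by
    rw [hq, add_mul, one_mul, mul_comm]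
    have h3 := Nat.div_add_mod ((t + 1) ^ J) ℓ
    have h4 := Nat.mod_lt ((t + 1) ^ J) hℓ
    omega
  have ht0 : (0 : ℝ) < (t : ℝ) + 1 := by positivity
  have hD1 : (1 : ℝ) ≤ (E / (t + 1)) ^ J := by
    apply one_le_pow₀
    rw [le_div_iff₀ ht0, one_mul]
    exact hE1
  obtain ⟨D, hD⟩ : ∃ D : ℝ, D = (E / (t + 1)) ^ J := ⟨_, rfl⟩
  rw [← hD] at hD1 ⊢
  have hEJ : E ^ J = D * ((t : ℝ) + 1) ^ J := by
    rw [hD, ← mul_pow, div_mul_cancel₀ _ ht0.ne']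
  have hE0 : (0 : ℝ) ≤ (1 + 4 * (m : ℝ) / s) * (1 + 4 * (s : ℝ) / m) ^ t := by positivity
  have hpow : ((1 + 4 * (m : ℝ) / s) * (1 + 4 * (s : ℝ) / m) ^ t) ^ J ≤ E ^ J :=
    pow_le_pow_left₀ hE0 hE J
  have hTR : ((t : ℝ) + 1) ^ J ≤ 2 * ℓ * q := by
    have h3 : (t + 1) ^ J ≤ 2 * ℓ * q := by
      have h4 : (q + 1) * ℓ ≤ 2 * ℓ * q := by
        have : (q + 1) * ℓ ≤ (q + q) * ℓ := Nat.mul_le_mul_right _ (by omega)
        calc (q + 1) * ℓ ≤ (q + q) * ℓ := this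
          _ = 2 * ℓ * q := by ring
      exact hTq.le.trans h4
    exact_mod_cast h3
  have hα0 : (0 : ℝ) ≤ (a k r : ℝ) := Nat.cast_nonneg _
  have hD0 : (0 : ℝ) ≤ D := zero_le_one.trans hD1
  have hℓ1 : (1 : ℝ) ≤ ℓ := by exact_mod_cast hℓ
  have hmain : (a m s : ℝ) ≤ 2 * ℓ * D * (q * a k r) := by
    calc (a m s : ℝ) ≤ _ := hR
      _ ≤ E ^ J * a k r := mul_le_mul_of_nonneg_right hpow hα0
      _ = D * ((t : ℝ) + 1) ^ J * a k r := by rw [hEJ]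
      _ ≤ D * (2 * ℓ * q) * a k r :=
        mul_le_mul_of_nonneg_right (mul_le_mul_of_nonneg_left hTR hD0) hα0
      _ = 2 * ℓ * D * (q * a k r) := by ring
  have hLD : (1 : ℝ) ≤ ℓ * D := one_le_mul_of_one_le_of_one_le hℓ1 hD1
  rcases Nat.lt_or_ge (q * a k r) 2 with hlt | hge
  · have hf1 : (1 : ℝ) ≤ f m s := by exact_mod_cast one_le_f m s
    have hqa : (q : ℝ) * a k r ≤ 1 := by
      have : q * a k r ≤ 1 := by omega
      exact_mod_cast this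
    calc (a m s : ℝ) ≤ 2 * ℓ * D * (q * a k r) := hmain
      _ ≤ 2 * ℓ * D * 1 := mul_le_mul_of_nonneg_left hqa (by positivity)
      _ ≤ 4 * ℓ * D * f m s := by nlinarith
  · have ha' : a (k + J * t) (r + J) < 2 ^ ℓ := by rw [← hk, ← hr]; exact ha
    have hge' : 2 ≤ ((t + 1) ^ J / ℓ) * a k r := by rw [← hq]; exact hge
    obtain ⟨p, hp, ⟨b, hb⟩, hmin⟩ := propP hkk (by omega) hℓ ha' hT hge'
    rw [← hq, ← hk, ← hr] at hmin
    have hpf : p ≤ f m s := by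
      rw [hk, hr]
      exact le_f_of_Sp hp.one_lt.le b hb
    have hpf' : (p : ℝ) ≤ f m s := by exact_mod_cast hpf
    rcases min_lt_iff.1 hmin with h3 | h3
    · have h4 : (q : ℝ) * a k r ≤ 2 * f m s := by
        have h5 : (q : ℝ) * a k r ≤ 2 * p := by exact_mod_cast h3.le
        linarith
      calc (a m s : ℝ) ≤ 2 * ℓ * D * (q * a k r) := hmain
        _ ≤ 2 * ℓ * D * (2 * f m s) := mul_le_mul_of_nonneg_left h4 (by positivity)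
        _ = 4 * ℓ * D * f m s := by ring
    · have h5 : (a m s : ℝ) ≤ 2 * p := by exact_mod_cast h3.le
      have hf0 : (0 : ℝ) ≤ f m s := Nat.cast_nonneg _
      calc (a m s : ℝ) ≤ 2 * f m s := by linarith
        _ ≤ 4 * ℓ * D * f m s := by nlinarith

end Pool.Agent.SG
end

section

/-!
# Q1: the case `s ≤ m`

PROOF. `ℓ := Nat.log 2 (a m s) + 1`, so `2^(ℓ-1) ≤ a m s < 2^ℓ` (`Nat.pow_log_le_self`, `Nat.lt_pow_succ_log_self`). If `a m s < 2^512` the claim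
is trivial (`one_le_f`, `1 ≤ ℓ`). Otherwise `ℓ ≥ 513`, and `m ≥ 4` (for `m ≤ 3`: `a m s ≤ a 3 3 ≤ 7^3` by `a_le_pow`). `J₀ := Nat.clog 2 ℓ`:
`ℓ ≤ 2^J₀` (`Nat.le_pow_clog`), `2^(J₀-1) < ℓ` (`Nat.pow_pred_clog_lt_self`), so `J₀ ≥ 10` (`2^9 < 513 ≤ ℓ ≤ 2^J₀`).
`t := m/(2s)` if `2s ≤ m` (then `t ≥ 1`, `2 s t ≤ m < 2 s (t+1)`, `EA`), `t := 1` if `m < 2s` (`EB`). In both cases the hypothesis of `star` holds
with `E = 72 (t+1)`, `E/(t+1) = 72`.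
Case 1, `2 J₀ ≤ s`: `star` with `J = J₀`: `2 J₀ t ≤ s t ≤ m` in the first case, `2 J₀ ≤ s ≤ m` in the second; `ℓ ≤ 2^J₀ ≤ (t+1)^J₀`. So
`a ≤ 4 ℓ 72^J₀ f`, `72^J₀ ≤ (2^7)^J₀ = (2^J₀)^7 ≤ (2ℓ)^7`, `a ≤ 512 ℓ^8 f`.
Case 2, `s < 2 J₀`, `2s ≤ m` and `ℓ ≤ m/(2s) + 1`: `star` with `J = 1`: `a ≤ 4 ℓ 72 f`.
Case 3, otherwise: `s < 2 J₀` and `m < 2 s ℓ` (if `m < 2s` clear, otherwise `m/(2s) < ℓ`, `Nat.div_lt_iff_lt_mul`). So
`2m + 1 ≤ 4 s ℓ ≤ 8 J₀ 2^J₀ ≤ 2^(2J₀)` (`8 J₀ ≤ 2^J₀` as `J₀ ≥ 10`), `2^(ℓ-1) ≤ a m s ≤ (2m+1)^s ≤ 2^(2 J₀ · 2 J₀)` (`a_le_pow'`), so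
`2^(J₀-1) < ℓ ≤ 4 J₀^2 + 1`; but `4 n^2 + 1 ≤ 2^(n-1)` for `n ≥ 10` (induction). Contradiction.
-/

set_option autoImplicit false

namespace Pool.Agent.SG

private theorem Q1_pow {n : ℕ} (hn : 10 ≤ n) : 4 * n ^ 2 + 1 ≤ 2 ^ (n - 1) := by
  induction n, hn using Nat.le_induction with
  | base => norm_num
  | succ k hk ih =>
    have h1 : 2 ^ (k + 1 - 1) = 2 * 2 ^ (k - 1) := by
      have h2 : k + 1 - 1 = (k - 1) + 1 := by omega
      rw [h2, pow_succ, mul_comm]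
    rw [h1]
    nlinarith

private theorem Q1_lin {n : ℕ} (hn : 10 ≤ n) : 8 * n ≤ 2 ^ n := by
  induction n, hn using Nat.le_induction with
  | base => norm_num
  | succ k hk ih =>
    rw [pow_succ]
    omega

/-- the choice of `t` -/
private theorem Q1_t {m s : ℕ} (hs : 1 ≤ s) (hsm : s ≤ m) (hm : 4 ≤ m) :
    ∃ t : ℕ, 1 ≤ t ∧ s * t ≤ m ∧ 2 * t ≤ m ∧ m < 2 * s * (t + 1) ∧
      (1 + 4 * (m : ℝ) / s) * (1 + 4 * (s : ℝ) / m) ^ t ≤ 72 * ((t : ℝ) + 1) := by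
  by_cases h : m < 2 * s
  · refine ⟨1, le_rfl, by omega, by omega, by omega, ?_⟩
    refine (EB hs hsm h).trans ?_
    norm_num
  · have h' : 2 * s ≤ m := not_lt.1 h
    have hpos : 0 < 2 * s := by omega
    have ht1 : 1 ≤ m / (2 * s) := (Nat.one_le_div_iff hpos).2 h'
    have h1 : 2 * s * (m / (2 * s)) ≤ m := Nat.mul_div_le m (2 * s)
    have h2 : m < 2 * s * (m / (2 * s) + 1) := Nat.lt_mul_div_succ m hpos
    refine ⟨m / (2 * s), ht1, ?_, ?_, h2, EA hs ht1 h1 h2⟩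
    · refine le_trans ?_ h1
      exact Nat.mul_le_mul_right _ (by omega)
    · refine le_trans ?_ h1
      exact Nat.mul_le_mul_right _ (by omega)

theorem q1 {m s : ℕ} (hs : 1 ≤ s) (hsm : s ≤ m) :
    (a m s : ℝ) ≤ 2 ^ 512 * ((Nat.log 2 (a m s) + 1 : ℕ) : ℝ) ^ 8 * f m s := by
  have hf : (1 : ℝ) ≤ (f m s : ℝ) := by exact_mod_cast one_le_f m s
  have hA1 : 1 ≤ a m s := one_le_a m s
  have ha : a m s < 2 ^ (Nat.log 2 (a m s) + 1) := Nat.lt_pow_succ_log_self one_lt_two _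
  have ha' : 2 ^ Nat.log 2 (a m s) ≤ a m s := Nat.pow_log_le_self 2 (by omega)
  obtain ⟨L, hL⟩ : ∃ L, Nat.log 2 (a m s) = L := ⟨_, rfl⟩
  rw [hL] at ha ha' ⊢
  have hL1 : (1 : ℝ) ≤ ((L + 1 : ℕ) : ℝ) := by exact_mod_cast Nat.succ_le_succ (Nat.zero_le L)
  have hL8 : (1 : ℝ) ≤ ((L + 1 : ℕ) : ℝ) ^ 8 := one_le_pow₀ hL1
  by_cases hsmall : a m s < 2 ^ 512
  · have h1 : (a m s : ℝ) ≤ 2 ^ 512 := by exact_mod_cast hsmall.le
    have h2 : (2 : ℝ) ^ 512 * 1 ≤ 2 ^ 512 * (((L + 1 : ℕ) : ℝ) ^ 8 * f m s) :=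
      mul_le_mul_of_nonneg_left (one_le_mul_of_one_le_of_one_le hL8 hf) (by positivity)
    rw [mul_one, ← mul_assoc] at h2
    exact h1.trans h2
  have hbig : 2 ^ 512 ≤ a m s := not_lt.1 hsmall
  have hL512 : 512 ≤ L := by
    by_contra hcon
    have h1 : 2 ^ (L + 1) ≤ 2 ^ 512 := Nat.pow_le_pow_right (by norm_num) (by omega)
    omega
  have h29 : 2 ^ 9 ≤ a m s := le_trans (Nat.pow_le_pow_right (by norm_num) (by norm_num)) hbig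
  have hm : 4 ≤ m := by
    by_contra hcon
    have h1 : m ≤ 3 := by omega
    have h2 : a m s ≤ (2 * s + 1) ^ m := a_le_pow m s
    have h3 : (2 * s + 1) ^ m ≤ 7 ^ 3 :=
      (Nat.pow_le_pow_left (by omega) m).trans (Nat.pow_le_pow_right (by norm_num) h1)
    norm_num at h29 h3
    omega
  -- the exponent
  obtain ⟨J, hJ⟩ : ∃ J, Nat.clog 2 (L + 1) = J := ⟨_, rfl⟩
  have hJ1 : L + 1 ≤ 2 ^ J := by rw [← hJ]; exact Nat.le_pow_clog one_lt_two _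
  have hJ2 : 2 ^ (J - 1) < L + 1 := by
    rw [← hJ]
    exact Nat.pow_pred_clog_lt_self one_lt_two (by omega)
  have hJ10 : 10 ≤ J := by
    by_contra hcon
    have h1 : 2 ^ J ≤ 2 ^ 9 := Nat.pow_le_pow_right (by norm_num) (by omega)
    norm_num at h1
    omega
  obtain ⟨t, ht1, hst, h2t, hmt, hE⟩ := Q1_t hs hsm hm
  have htpos : (0 : ℝ) < (t : ℝ) + 1 := by positivity
  have hdiv : 72 * ((t : ℝ) + 1) / ((t : ℝ) + 1) = 72 := by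
    rw [mul_div_assoc, div_self htpos.ne', mul_one]
  have hE1 : (t : ℝ) + 1 ≤ 72 * ((t : ℝ) + 1) := by linarith
  by_cases hc1 : 2 * J ≤ s
  · -- case 1
    have h1 : 2 * (J * t) ≤ m := by
      calc 2 * (J * t) = (2 * J) * t := by ring
        _ ≤ s * t := Nat.mul_le_mul_right _ hc1
        _ ≤ m := hst
    have hT : L + 1 ≤ (t + 1) ^ J := hJ1.trans (Nat.pow_le_pow_left (by omega) J)
    have h3 := star hm hs h1 (by omega) (by omega : 1 ≤ L + 1) ha hT hE hE1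
    rw [hdiv] at h3
    refine h3.trans ?_
    have h4 : (2 : ℝ) ^ J ≤ 2 * ((L + 1 : ℕ) : ℝ) := by
      have h5 : 2 ^ J ≤ 2 * (L + 1) := by
        have h6 : 2 ^ J = 2 * 2 ^ (J - 1) := by
          have h7 : J = (J - 1) + 1 := by omega
          conv_lhs => rw [h7]
          rw [pow_succ, mul_comm]
        omega
      exact_mod_cast h5
    have h5 : (72 : ℝ) ^ J ≤ (2 * ((L + 1 : ℕ) : ℝ)) ^ 7 := by
      calc (72 : ℝ) ^ J ≤ (2 ^ 7) ^ J := pow_le_pow_left₀ (by norm_num) (by norm_num) J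
        _ = (2 ^ J) ^ 7 := by rw [← pow_mul, ← pow_mul, mul_comm]
        _ ≤ _ := pow_le_pow_left₀ (by positivity) h4 7
    have h6 : 4 * ((L + 1 : ℕ) : ℝ) * (72 : ℝ) ^ J ≤ 2 ^ 512 * ((L + 1 : ℕ) : ℝ) ^ 8 := by
      calc 4 * ((L + 1 : ℕ) : ℝ) * (72 : ℝ) ^ J ≤ 4 * ((L + 1 : ℕ) : ℝ) * (2 * ((L + 1 : ℕ) : ℝ)) ^ 7 :=
            mul_le_mul_of_nonneg_left h5 (by positivity)
        _ = 2 ^ 9 * ((L + 1 : ℕ) : ℝ) ^ 8 := by ring
        _ ≤ _ := mul_le_mul_of_nonneg_right (pow_le_pow_right₀ (by norm_num) (by norm_num)) (by positivity)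
    exact mul_le_mul_of_nonneg_right h6 (by linarith)
  by_cases hc2 : L + 1 ≤ t + 1
  · -- case 2
    have h1 : 2 * (1 * t) ≤ m := by omega
    have hT : L + 1 ≤ (t + 1) ^ 1 := by rw [pow_one]; exact hc2
    have h3 := star hm hs h1 (by omega) (by omega : 1 ≤ L + 1) ha hT hE hE1
    rw [hdiv, pow_one] at h3
    refine h3.trans ?_
    have h6 : 4 * ((L + 1 : ℕ) : ℝ) * 72 ≤ 2 ^ 512 * ((L + 1 : ℕ) : ℝ) ^ 8 := by
      calc 4 * ((L + 1 : ℕ) : ℝ) * 72 ≤ 2 ^ 9 * ((L + 1 : ℕ) : ℝ) := by linarith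
        _ = 2 ^ 9 * ((L + 1 : ℕ) : ℝ) ^ 1 := by rw [pow_one]
        _ ≤ 2 ^ 9 * ((L + 1 : ℕ) : ℝ) ^ 8 :=
          mul_le_mul_of_nonneg_left (pow_le_pow_right₀ hL1 (by norm_num)) (by positivity)
        _ ≤ _ := mul_le_mul_of_nonneg_right (pow_le_pow_right₀ (by norm_num) (by norm_num)) (by positivity)
    exact mul_le_mul_of_nonneg_right h6 (by linarith)
  · -- case 3
    exfalso
    have h1 : m < 2 * s * (L + 1) := lt_of_lt_of_le hmt (Nat.mul_le_mul_left _ (by omega))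
    have h2 : 2 * m + 1 ≤ 4 * s * (L + 1) := by
      have : 4 * s * (L + 1) = 2 * (2 * s * (L + 1)) := by ring
      omega
    have h3 : 4 * s * (L + 1) ≤ 2 ^ (2 * J) := by
      calc 4 * s * (L + 1) ≤ 4 * (2 * J) * 2 ^ J :=
            Nat.mul_le_mul (Nat.mul_le_mul_left _ (by omega)) hJ1
        _ = (8 * J) * 2 ^ J := by ring
        _ ≤ 2 ^ J * 2 ^ J := Nat.mul_le_mul_right _ (Q1_lin hJ10)
        _ = 2 ^ (2 * J) := by rw [← pow_add]; ring_nf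
    have h4 : 2 ^ L ≤ 2 ^ (2 * J * (2 * J)) := by
      calc 2 ^ L ≤ a m s := ha'
        _ ≤ (2 * m + 1) ^ s := a_le_pow' m s
        _ ≤ (2 ^ (2 * J)) ^ s := Nat.pow_le_pow_left (h2.trans h3) s
        _ ≤ (2 ^ (2 * J)) ^ (2 * J) := Nat.pow_le_pow_right (by positivity) (by omega)
        _ = _ := by rw [← pow_mul]
    have h5 : L ≤ 2 * J * (2 * J) := (Nat.pow_le_pow_iff_right (by norm_num)).1 h4
    have h6 := Q1_pow hJ10
    have h7 : 2 * J * (2 * J) = 4 * J ^ 2 := by ring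
    omega

end Pool.Agent.SG
end

section

/-!
# Q4: the case `m < 64`, `m ≤ s`

PROOF. If `s < 3(m+1)`: `a m s ≤ (2s+1)^m ≤ (6(m+1))^m ≤ 768^64`, `f ≥ 1`. Otherwise `K := s/(m+1) - 2 ≥ 1`, `(K+2)(m+1) ≤ s < (K+3)(m+1) ≤ 4K(m+1)`.
`p = 3`, `b = Pi.single 0 1` (`b 0 = 1`, the others `0`; use `Fin m`, `m ≥ 1`), `s₀ = 1`: the three elements of `ℤ_3` are `l * b_0` with `l ∈ {0, 1, -1}`
(`fin_cases`/`decide`). `scale_f` with `R = s`: `(K+2)(2+m) ≤ 2(K+2)(m+1) ≤ 2s`: `3 K^m ≤ f m s`.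
`a m s ≤ (2s+1)^m ≤ (3s)^m ≤ (12 K (m+1))^m ≤ 768^m K^m ≤ 768^64 f m s` (`a_le_pow`, `m + 1 ≤ 64`).
-/

set_option autoImplicit false

namespace Pool.Agent.SG

private theorem Q4_base {m : ℕ} (hm : 1 ≤ m) :
    ∀ x : ZMod 3, x ∈ Sp (fun i : Fin m => if i.val = 0 then (1 : ZMod 3) else 0) 1 := by
  have key : ∀ x : ZMod 3, ∃ z : ℤ, z.natAbs ≤ 1 ∧ (z : ZMod 3) = x := by
    intro x
    have h3 : x = 0 ∨ x = 1 ∨ x = -1 := by
      revert x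
      decide
    rcases h3 with h3 | h3 | h3
    · exact ⟨0, by norm_num, by rw [h3]; norm_num⟩
    · exact ⟨1, by norm_num, by rw [h3]; norm_num⟩
    · exact ⟨-1, by norm_num, by rw [h3]; norm_num⟩
  intro x
  obtain ⟨z, hz, hzx⟩ := key x
  obtain ⟨m, rfl⟩ : ∃ k, m = k + 1 := ⟨m - 1, by omega⟩
  refine ⟨fun i => if i.val = 0 then z else 0, ?_, ?_⟩
  · rw [Fin.sum_univ_succ]
    simpa using hz
  · rw [Fin.sum_univ_succ]
    simpa using hzx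

private theorem Q4_nat {m s : ℕ} (hm : 1 ≤ m) (hm' : m < 64) (h : m ≤ s) :
    a m s ≤ 768 ^ 64 * f m s := by
  by_cases hs : s < 3 * (m + 1)
  · have h1 : a m s ≤ (2 * s + 1) ^ m := a_le_pow m s
    have h2 : (2 * s + 1) ^ m ≤ 768 ^ m := Nat.pow_le_pow_left (by omega) m
    have h3 : 768 ^ m ≤ 768 ^ 64 := Nat.pow_le_pow_right (by norm_num) (by omega)
    have h4 : 1 ≤ f m s := one_le_f m s
    calc a m s ≤ 768 ^ 64 := le_trans h1 (le_trans h2 h3)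
      _ = 768 ^ 64 * 1 := (mul_one _).symm
      _ ≤ 768 ^ 64 * f m s := Nat.mul_le_mul_left _ h4
  · push Not at hs
    obtain ⟨K, hK1, hK2, hK3⟩ : ∃ K : ℕ, 1 ≤ K ∧ (K + 2) * (m + 1) ≤ s ∧ s < (K + 3) * (m + 1) := by
      have h3 : 3 ≤ s / (m + 1) := (Nat.le_div_iff_mul_le (by omega)).2 hs
      refine ⟨s / (m + 1) - 2, by omega, ?_, ?_⟩
      · rw [show s / (m + 1) - 2 + 2 = s / (m + 1) by omega]
        exact Nat.div_mul_le_self s (m + 1)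
      · rw [show s / (m + 1) - 2 + 3 = s / (m + 1) + 1 by omega]
        have h5 := Nat.div_add_mod s (m + 1)
        have h6 := Nat.mod_lt s (show 0 < m + 1 by omega)
        nlinarith
    have hf : K ^ m * 3 ≤ f m s := by
      refine scale_f (p := 3) (s₀ := 1) Nat.prime_three hm hK1 _ (Q4_base hm) ?_
      nlinarith
    have h1 : a m s ≤ (2 * s + 1) ^ m := a_le_pow m s
    have h2 : (2 * s + 1) ^ m ≤ (768 * K) ^ m := by
      apply Nat.pow_le_pow_left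
      have h5 : s < 4 * K * (m + 1) := by nlinarith
      have h6 : 4 * K * (m + 1) ≤ 256 * K := by nlinarith
      omega
    have h3 : 768 ^ m ≤ 768 ^ 64 := Nat.pow_le_pow_right (by norm_num) (by omega)
    calc a m s ≤ (768 * K) ^ m := le_trans h1 h2
      _ = 768 ^ m * K ^ m := mul_pow _ _ _
      _ ≤ 768 ^ 64 * f m s := Nat.mul_le_mul h3 (by omega)

theorem q2c {m s : ℕ} (hm : 1 ≤ m) (hm' : m < 64) (h : m ≤ s) :
    (a m s : ℝ) ≤ 768 ^ 64 * f m s := by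
  have h1 := Q4_nat hm hm' h
  exact_mod_cast h1

end Pool.Agent.SG
end
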