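import Pool.Agent.Lib.MP_fa6223_co.Mg.G002
import Pool.Agent.Lib.MP_fa6223_co.Mg.G003
import Pool.Agent.Lib.MP_fa6223_co.Mg.G005

section

/-!
# Q2: the case `m ≤ s ≤ m^4`, `m ≥ 64`

PROOF. `L := Nat.log 2 m + 1`: `m < 2^L`, `2^(L-1) ≤ m`, `L ≥ 7`. `ℓ := Nat.log 2 (a m s) + 1`, `a m s < 2^ℓ`. `a m s ≤ (2s+1)^m ≤ (m^5)^m < 2^(5 m L)`
(`a_le_pow`, `2 m^4 + 1 ≤ m^5`), so `ℓ ≤ 5 m L ≤ 2^L · 2^L` (`5 L ≤ 2^L` for `L ≥ 5`), so `J := Nat.clog 2 ℓ ≤ 2 L` (`Nat.clog_le_of_le_pow`) and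
`ℓ ≤ 2^J` (`Nat.le_pow_clog`). `4 L ≤ 2^(L-1) ≤ m` (`L ≥ 7`), so `2 (J * 1) ≤ m` and `2 J ≤ s + 1`. `k := m - J ≥ m/2 ≥ 2`,
`r := s - J ≥ 1`. `t = 1`, `E := 25 s/m ≥ 1` (`EC`), `lemR`: `a m s ≤ E^J a k r`. `T := 2^J`, `q := T/ℓ ≥ 1`, `q * a k r ≥ a k r ≥ 4 r ≥ 2`
(`four_mul_le_a`). `propP` (with `m = k + J * 1`, `s = r + J`): `p` prime, `min (q * a k r) (a m s) < 2p`. As `E^J ≥ 1`:
`a m s ≤ E^J min (q * a k r) (a m s) ≤ 2 E^J p`. `E ≤ 25 m^3 ≤ m^4` (`m ≥ 64`), `E^J ≤ (m^4)^(2L) = exp (8 L log m)` and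
`L ≤ log m / log 2 + 1 ≤ 3 log m` (`Real.log_two_gt_d9`, `log m ≥ 1`; `2^(L-1) ≤ m`), so `E^J ≤ exp (24 (log m)^2)`.
-/

set_option autoImplicit false

namespace Pool.Agent.SG

private theorem Q2_pow1 {l : ℕ} (hl : 5 ≤ l) : 4 * (l + 1) ≤ 2 ^ l := by
  induction l, hl using Nat.le_induction with
  | base => norm_num
  | succ n hn ih =>
    rw [pow_succ]
    omega

private theorem Q2_pow2 {l : ℕ} (hl : 5 ≤ l) : 5 * l ≤ 2 ^ l := by
  have h := Q2_pow1 hl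
  have h2 : 5 * l ≤ 2 ^ l := by
    induction l, hl using Nat.le_induction with
    | base => norm_num
    | succ n hn ih =>
      have h3 := ih (Q2_pow1 hn)
      have h4 := Q2_pow1 hn
      rw [pow_succ]
      omega
  exact h2

theorem q2a {m s : ℕ} (hm : 64 ≤ m) (h1 : m ≤ s) (h2 : s ≤ m ^ 4) :
    ∃ p : ℕ, p.Prime ∧ (∃ b : Fin m → ZMod p, ∀ x, x ∈ Sp b s) ∧
      (a m s : ℝ) ≤ 2 * Real.exp (30 * Real.log m ^ 2) * p := by
  have ha1 : 1 ≤ a m s := one_le_a m s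
  obtain ⟨l, hl6, hl1, hl2⟩ : ∃ l : ℕ, 6 ≤ l ∧ 2 ^ l ≤ m ∧ m < 2 ^ (l + 1) := by
    refine ⟨Nat.log 2 m, ?_, Nat.pow_log_le_self 2 (by omega), Nat.lt_pow_succ_log_self (by norm_num) m⟩
    exact Nat.le_log_of_pow_le (by norm_num) (by norm_num; exact hm)
  obtain ⟨ℓ, hℓ1, ha, hℓ2⟩ : ∃ ℓ : ℕ, 1 ≤ ℓ ∧ a m s < 2 ^ ℓ ∧ ℓ ≤ 5 * m * (l + 1) := by
    refine ⟨Nat.log 2 (a m s) + 1, by omega, Nat.lt_pow_succ_log_self (by norm_num) _, ?_⟩
    have e1 : a m s < 2 ^ (5 * m * (l + 1)) := by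
      have e2 : 2 * s + 1 ≤ m ^ 5 := by
        have : m ^ 5 = m * m ^ 4 := by ring
        rw [this]
        have h4 : 1 ≤ m ^ 4 := Nat.one_le_pow _ _ (by omega)
        have h5 : 64 * m ^ 4 ≤ m * m ^ 4 := Nat.mul_le_mul_right _ hm
        omega
      calc a m s ≤ (2 * s + 1) ^ m := a_le_pow m s
        _ ≤ (m ^ 5) ^ m := Nat.pow_le_pow_left e2 m
        _ = m ^ (5 * m) := by rw [← pow_mul]
        _ < (2 ^ (l + 1)) ^ (5 * m) := Nat.pow_lt_pow_left hl2 (by omega)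
        _ = 2 ^ (5 * m * (l + 1)) := by rw [← pow_mul]; ring_nf
    have e3 := Nat.log_lt_of_lt_pow (by omega) e1
    omega
  obtain ⟨J, hJ1, hJ2⟩ : ∃ J : ℕ, ℓ ≤ 2 ^ J ∧ J ≤ 2 * (l + 1) := by
    refine ⟨Nat.clog 2 ℓ, Nat.le_pow_clog (by norm_num) ℓ, ?_⟩
    refine Nat.clog_le_of_le_pow ?_
    have e1 : 5 * (l + 1) ≤ 2 ^ (l + 1) := Q2_pow2 (by omega)
    calc ℓ ≤ 5 * m * (l + 1) := hℓ2
      _ = 5 * (l + 1) * m := by ring
      _ ≤ 2 ^ (l + 1) * 2 ^ (l + 1) := Nat.mul_le_mul e1 hl2.le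
      _ = 2 ^ (2 * (l + 1)) := by rw [← pow_add]; ring_nf
  have hLm : 4 * (l + 1) ≤ m := (Q2_pow1 (by omega)).trans hl1
  -- the factor `E`
  have hm0 : (0 : ℝ) < m := by
    have : 0 < m := by omega
    exact_mod_cast this
  have hmR : (64 : ℝ) ≤ m := by exact_mod_cast hm
  have hsR : (m : ℝ) ≤ s := by exact_mod_cast h1
  have hs4 : (s : ℝ) ≤ (m : ℝ) ^ 4 := by exact_mod_cast h2
  have hE1 : (1 : ℝ) ≤ 25 * (s : ℝ) / m := by
    rw [le_div_iff₀ hm0]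
    linarith
  have hEJ1 : (1 : ℝ) ≤ (25 * (s : ℝ) / m) ^ J := one_le_pow₀ hE1
  have hEm : 25 * (s : ℝ) / m ≤ (m : ℝ) ^ 4 := by
    rw [div_le_iff₀ hm0]
    have h3 : (0 : ℝ) ≤ (m : ℝ) ^ 4 := by positivity
    nlinarith
  have hlog2 : (0.6931471803 : ℝ) < Real.log 2 := Real.log_two_gt_d9
  have hllog : (l : ℝ) * Real.log 2 ≤ Real.log m := by
    rw [← Real.log_pow]
    refine Real.log_le_log (by positivity) ?_
    exact_mod_cast hl1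
  have hl6R : (6 : ℝ) ≤ l := by exact_mod_cast hl6
  have hlogm : (l : ℝ) * 0.6931471803 ≤ Real.log m := by
    refine le_trans ?_ hllog
    exact mul_le_mul_of_nonneg_left hlog2.le (by linarith)
  have hL3 : ((l : ℝ) + 1) ≤ 3 * Real.log m := by nlinarith
  have hlog0 : 0 ≤ Real.log m := by nlinarith
  have hEexp : (25 * (s : ℝ) / m) ^ J ≤ Real.exp (30 * Real.log m ^ 2) := by
    have hm4 : (1 : ℝ) ≤ (m : ℝ) ^ 4 := one_le_pow₀ (by linarith)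
    calc (25 * (s : ℝ) / m) ^ J ≤ ((m : ℝ) ^ 4) ^ J :=
          pow_le_pow_left₀ (zero_le_one.trans hE1) hEm J
      _ ≤ ((m : ℝ) ^ 4) ^ (2 * (l + 1)) := pow_le_pow_right₀ hm4 hJ2
      _ = Real.exp (((4 * (2 * (l + 1)) : ℕ) : ℝ) * Real.log m) := by
          rw [← pow_mul, Real.exp_nat_mul, Real.exp_log hm0]
      _ ≤ Real.exp (30 * Real.log m ^ 2) := by
          apply Real.exp_le_exp.mpr
          push_cast
          nlinarith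
  have hR := lemR (m := m) (s := s) (t := 1) (by omega) (by omega) J (by omega) (by omega)
  have hC := EC (m := m) (s := s) (by omega) h1
  have hA : (a m s : ℝ) ≤ (25 * (s : ℝ) / m) ^ J * a (m - J * 1) (s - J) := by
    refine hR.trans ?_
    refine mul_le_mul_of_nonneg_right ?_ (Nat.cast_nonneg _)
    exact pow_le_pow_left₀ (by positivity) hC J
  obtain ⟨E, hE⟩ : ∃ E : ℝ, E = (25 * (s : ℝ) / m) ^ J := ⟨_, rfl⟩
  rw [← hE] at hA hEexp hEJ1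
  obtain ⟨X, hX⟩ : ∃ X : ℝ, X = Real.exp (30 * Real.log m ^ 2) := ⟨_, rfl⟩
  rw [← hX] at hEexp ⊢
  clear hE hX hR hC
  obtain ⟨k, hk⟩ : ∃ k, m = k + J * 1 := ⟨m - J * 1, by omega⟩
  obtain ⟨r, hr⟩ : ∃ r, s = r + J := ⟨s - J, by omega⟩
  have hk2 : m - J * 1 = k := by omega
  have hr2 : s - J = r := by omega
  rw [hk2, hr2] at hA
  have hkk : 2 ≤ k := by omega
  have hrr : 1 ≤ r := by omega
  have hq1 : 1 ≤ (1 + 1) ^ J / ℓ := by
    refine Nat.div_pos ?_ (by omega)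
    simpa using hJ1
  have hα : 4 ≤ a k r := by
    have := four_mul_le_a hkk r
    omega
  have hge : 2 ≤ ((1 + 1) ^ J / ℓ) * a k r := by
    calc 2 ≤ 1 * a k r := by omega
      _ ≤ ((1 + 1) ^ J / ℓ) * a k r := Nat.mul_le_mul_right _ hq1
  have ha' : a (k + J * 1) (r + J) < 2 ^ ℓ := by rw [← hk, ← hr]; exact ha
  obtain ⟨p, hp, hb, hmin⟩ := propP hkk (by omega) hℓ1 ha' (by simpa using hJ1) hge
  rw [← hk, ← hr] at hb hmin
  refine ⟨p, hp, hb, ?_⟩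
  have hp0 : (0 : ℝ) ≤ p := Nat.cast_nonneg p
  have hE0 : (0 : ℝ) ≤ E := zero_le_one.trans hEJ1
  rcases min_lt_iff.1 hmin with h3 | h3
  · have h4 : (a k r : ℝ) ≤ 2 * p := by
      have h5 : a k r ≤ 2 * p := by
        calc a k r = 1 * a k r := (one_mul _).symm
          _ ≤ ((1 + 1) ^ J / ℓ) * a k r := Nat.mul_le_mul_right _ hq1
          _ ≤ 2 * p := h3.le
      exact_mod_cast h5
    calc (a m s : ℝ) ≤ E * a k r := hA
      _ ≤ X * (2 * p) := mul_le_mul hEexp h4 (Nat.cast_nonneg _) (hE0.trans hEexp)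
      _ = 2 * X * p := by ring
  · have h5 : (a m s : ℝ) ≤ 2 * p := by exact_mod_cast h3.le
    have hX1 : (1 : ℝ) ≤ X := hEJ1.trans hEexp
    calc (a m s : ℝ) ≤ 1 * (2 * p) := by rw [one_mul]; exact h5
      _ ≤ X * (2 * p) := mul_le_mul_of_nonneg_right hX1 (by positivity)
      _ = 2 * X * p := by ring

end Pool.Agent.SG
end

section

/-!
# Q3: the case `s ≥ m^4`, `m ≥ 64`

PROOF. `q2a` at `s = m^2`: `p`, `b`, `a m (m^2) ≤ 2 exp(30 log^2 m) p`. `K := s/(m^2+m) - 2`; `(K+2)(m^2+m) ≤ s < (K+3)(m^2+m)`.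
`K ≥ m`: `(m+3)(m^2+m) ≤ m^4 ≤ s` so `s/(m^2+m) ≥ m + 3`. `scale_f` with `s₀ = m^2`, `R = s`: `(K+2)(2m^2+m) ≤ 2(K+2)(m^2+m) ≤ 2s`; so
`K^m p ≤ f m s`.
`ratio`: `a m s ≤ 2^m C(m+s,m) ≤ 2^m (m+s)^m/m!` (`a_le_choose`, `Nat.choose_le_pow_div`), `a m (m^2) ≥ 2^m C(m^2,m) ≥ 2^m (m^2+1-m)^m/m!`
(`choose_le_a`, `Nat.pow_le_choose`); `m + s ≤ (K+4)(m^2+m)`; so `a m s ≤ a m (m^2) ((K+4)(m^2+m)/(m^2+1-m))^m`,
`(1 + 4/K)^m ≤ exp(4m/K) ≤ exp 4` and `((m^2+m)/(m^2+1-m))^m = (1 + (2m-1)/(m^2-m+1))^m ≤ exp(m(2m-1)/(m^2-m+1)) ≤ exp 3`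
(`Real.add_one_le_exp`; `m(2m-1) ≤ 3(m^2-m+1)`). Together `a m s ≤ exp 7 K^m a m (m^2)`.
-/

set_option autoImplicit false

namespace Pool.Agent.SG

theorem ratio {m s K : ℕ} (hm : 1 ≤ m) (hK : m ≤ K) (h : s ≤ (K + 3) * (m ^ 2 + m)) :
    (a m s : ℝ) ≤ Real.exp 7 * K ^ m * a m (m ^ 2) := by
  have hmR : (1 : ℝ) ≤ m := by exact_mod_cast hm
  have hKR : (m : ℝ) ≤ K := by exact_mod_cast hK
  have hK0 : (0 : ℝ) < K := by linarith
  have hm2 : m ≤ m ^ 2 + 1 := by nlinarith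
  have hd : ((m ^ 2 + 1 - m : ℕ) : ℝ) = (m : ℝ) ^ 2 + 1 - m := by
    rw [Nat.cast_sub hm2]; push_cast; ring
  have hd0 : (0 : ℝ) < (m : ℝ) ^ 2 + 1 - m := by nlinarith
  have hfac : (0 : ℝ) < (m.factorial : ℝ) := by exact_mod_cast Nat.factorial_pos m
  -- upper bound
  have h1 : (a m s : ℝ) ≤ 2 ^ m * (((m + s : ℕ) : ℝ) ^ m / (m.factorial : ℝ)) := by
    have e1 : (a m s : ℝ) ≤ 2 ^ m * (((m + s).choose m : ℕ) : ℝ) := by
      exact_mod_cast a_le_choose m s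
    have e2 : (((m + s).choose m : ℕ) : ℝ) ≤ (((m + s : ℕ) : ℝ) ^ m / (m.factorial : ℝ)) :=
      Nat.choose_le_pow_div m (m + s)
    exact e1.trans (mul_le_mul_of_nonneg_left e2 (by positivity))
  -- lower bound
  have h2 : 2 ^ m * (((m : ℝ) ^ 2 + 1 - m) ^ m / (m.factorial : ℝ)) ≤ (a m (m ^ 2) : ℝ) := by
    have e1 : (2 : ℝ) ^ m * (((m ^ 2).choose m : ℕ) : ℝ) ≤ (a m (m ^ 2) : ℝ) := by
      exact_mod_cast choose_le_a m (m ^ 2)
    have e2 : (((m ^ 2 + 1 - m : ℕ) : ℝ) ^ m / (m.factorial : ℝ)) ≤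
        (((m ^ 2).choose m : ℕ) : ℝ) := Nat.pow_le_choose m (m ^ 2)
    rw [hd] at e2
    exact (mul_le_mul_of_nonneg_left e2 (by positivity)).trans e1
  have h3 : ((m + s : ℕ) : ℝ) ≤ ((K : ℝ) + 4) * ((m : ℝ) ^ 2 + m) := by
    have : m + s ≤ (K + 4) * (m ^ 2 + m) := by nlinarith
    exact_mod_cast this
  have h4 : ((m + s : ℕ) : ℝ) ^ m ≤ (((K : ℝ) + 4) * ((m : ℝ) ^ 2 + m)) ^ m :=
    pow_le_pow_left₀ (by positivity) h3 m
  -- the factors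
  have h5 : (K : ℝ) + 4 ≤ K * Real.exp (4 / K) := by
    have e := Real.add_one_le_exp (4 / (K : ℝ))
    calc (K : ℝ) + 4 = K * (4 / K + 1) := by field_simp; ring
      _ ≤ K * Real.exp (4 / K) := mul_le_mul_of_nonneg_left e hK0.le
  have h6 : (m : ℝ) ^ 2 + m ≤
      ((m : ℝ) ^ 2 + 1 - m) * Real.exp ((2 * m - 1) / ((m : ℝ) ^ 2 + 1 - m)) := by
    have e := Real.add_one_le_exp ((2 * m - 1) / ((m : ℝ) ^ 2 + 1 - m))
    calc (m : ℝ) ^ 2 + m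
        = ((m : ℝ) ^ 2 + 1 - m) * ((2 * m - 1) / ((m : ℝ) ^ 2 + 1 - m) + 1) := by
          rw [mul_add, mul_div_cancel₀ _ hd0.ne']; ring
      _ ≤ _ := mul_le_mul_of_nonneg_left e hd0.le
  have h7 : Real.exp (4 / K) ^ m ≤ Real.exp 4 := by
    rw [← Real.exp_nat_mul]
    apply Real.exp_le_exp.mpr
    rw [← mul_div_assoc, div_le_iff₀ hK0]
    linarith
  have h8 : Real.exp ((2 * m - 1) / ((m : ℝ) ^ 2 + 1 - m)) ^ m ≤ Real.exp 3 := by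
    rw [← Real.exp_nat_mul]
    apply Real.exp_le_exp.mpr
    rw [← mul_div_assoc, div_le_iff₀ hd0]
    nlinarith [sq_nonneg ((m : ℝ) - 1)]
  have h9 : (((K : ℝ) + 4) * ((m : ℝ) ^ 2 + m)) ^ m ≤
      Real.exp 7 * (K : ℝ) ^ m * ((m : ℝ) ^ 2 + 1 - m) ^ m := by
    have e1 : ((K : ℝ) + 4) ^ m ≤ (K : ℝ) ^ m * Real.exp 4 := by
      calc ((K : ℝ) + 4) ^ m ≤ (K * Real.exp (4 / K)) ^ m :=
            pow_le_pow_left₀ (by positivity) h5 m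
        _ = (K : ℝ) ^ m * Real.exp (4 / K) ^ m := mul_pow _ _ _
        _ ≤ (K : ℝ) ^ m * Real.exp 4 := mul_le_mul_of_nonneg_left h7 (by positivity)
    have e2 : ((m : ℝ) ^ 2 + m) ^ m ≤ ((m : ℝ) ^ 2 + 1 - m) ^ m * Real.exp 3 := by
      calc ((m : ℝ) ^ 2 + m) ^ m
          ≤ (((m : ℝ) ^ 2 + 1 - m) * Real.exp ((2 * m - 1) / ((m : ℝ) ^ 2 + 1 - m))) ^ m :=
            pow_le_pow_left₀ (by positivity) h6 m
        _ = ((m : ℝ) ^ 2 + 1 - m) ^ m *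
            Real.exp ((2 * m - 1) / ((m : ℝ) ^ 2 + 1 - m)) ^ m := mul_pow _ _ _
        _ ≤ _ := mul_le_mul_of_nonneg_left h8 (pow_nonneg hd0.le m)
    have e3 : Real.exp 7 = Real.exp 4 * Real.exp 3 := by
      rw [← Real.exp_add]; norm_num
    calc (((K : ℝ) + 4) * ((m : ℝ) ^ 2 + m)) ^ m
        = ((K : ℝ) + 4) ^ m * ((m : ℝ) ^ 2 + m) ^ m := mul_pow _ _ _
      _ ≤ ((K : ℝ) ^ m * Real.exp 4) * (((m : ℝ) ^ 2 + 1 - m) ^ m * Real.exp 3) :=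
          mul_le_mul e1 e2 (by positivity) (by positivity)
      _ = Real.exp 7 * (K : ℝ) ^ m * ((m : ℝ) ^ 2 + 1 - m) ^ m := by rw [e3]; ring
  calc (a m s : ℝ) ≤ 2 ^ m * (((m + s : ℕ) : ℝ) ^ m / (m.factorial : ℝ)) := h1
    _ ≤ 2 ^ m * ((Real.exp 7 * (K : ℝ) ^ m * ((m : ℝ) ^ 2 + 1 - m) ^ m) /
          (m.factorial : ℝ)) := by
        apply mul_le_mul_of_nonneg_left _ (by positivity)
        exact div_le_div_of_nonneg_right (h4.trans h9) hfac.le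
    _ = Real.exp 7 * K ^ m * (2 ^ m * (((m : ℝ) ^ 2 + 1 - m) ^ m / (m.factorial : ℝ))) := by
        ring
    _ ≤ Real.exp 7 * K ^ m * a m (m ^ 2) := mul_le_mul_of_nonneg_left h2 (by positivity)

theorem q2b {m s : ℕ} (hm : 64 ≤ m) (h : m ^ 4 ≤ s) :
    (a m s : ℝ) ≤ 2 * Real.exp 7 * Real.exp (30 * Real.log m ^ 2) * f m s := by
  obtain ⟨p, hp, ⟨b, hb⟩, hle⟩ := q2a (m := m) (s := m ^ 2) hm (by nlinarith)
    (Nat.pow_le_pow_right (by omega) (by norm_num))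
  have hpos : 0 < m ^ 2 + m := by positivity
  obtain ⟨Q, hQ⟩ : ∃ Q, Q = s / (m ^ 2 + m) := ⟨_, rfl⟩
  have hQ1 : m + 3 ≤ Q := by
    rw [hQ, Nat.le_div_iff_mul_le hpos]
    refine le_trans ?_ h
    have e1 : m + 3 ≤ 2 * m := by omega
    have e2 : m ^ 2 + m ≤ 2 * m ^ 2 := by nlinarith
    calc (m + 3) * (m ^ 2 + m) ≤ (2 * m) * (2 * m ^ 2) := Nat.mul_le_mul e1 e2
      _ = 4 * m ^ 3 := by ring
      _ ≤ m * m ^ 3 := Nat.mul_le_mul_right _ (by omega)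
      _ = m ^ 4 := by ring
  have hQ2 : Q * (m ^ 2 + m) ≤ s := by rw [hQ]; exact Nat.div_mul_le_self _ _
  have hQ3 : s < (Q + 1) * (m ^ 2 + m) := by
    rw [hQ, add_mul, one_mul]
    exact Nat.lt_div_mul_add hpos
  obtain ⟨K, rfl⟩ : ∃ K, Q = K + 2 := ⟨Q - 2, by omega⟩
  have hKm : m ≤ K := by omega
  have hr := ratio (m := m) (s := s) (K := K) (by omega) hKm (by
    have : K + 2 + 1 = K + 3 := by ring
    rw [this] at hQ3
    exact hQ3.le)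
  have hf : K ^ m * p ≤ f m s := scale_f hp (by omega) (by omega) b hb (by
    nlinarith)
  have hfR : (K : ℝ) ^ m * p ≤ f m s := by exact_mod_cast hf
  calc (a m s : ℝ) ≤ Real.exp 7 * K ^ m * a m (m ^ 2) := hr
    _ ≤ Real.exp 7 * K ^ m * (2 * Real.exp (30 * Real.log m ^ 2) * p) :=
        mul_le_mul_of_nonneg_left hle (by positivity)
    _ = 2 * Real.exp 7 * Real.exp (30 * Real.log m ^ 2) * ((K : ℝ) ^ m * p) := by ring
    _ ≤ 2 * Real.exp 7 * Real.exp (30 * Real.log m ^ 2) * f m s :=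
        mul_le_mul_of_nonneg_left hfR (by positivity)

end Pool.Agent.SG
end

section

/-!
# L6: the case `s ≥ m^4`, `m ≥ 64`

PROOF. `q3a` for `(m-1, m^2)` (`32 ≤ m-1`, `m-1 ≤ m^2 ≤ (m-1)^4`): `N ≥ 1`, `b : Fin (m-1) → ZMod N`, `Sp b (m^2)` everything,
`a (m-1) (m^2) ≤ 256 ℓ^7 N`, `ℓ = Nat.log 2 (a (m-1) (m^2)) + 1`. Write `m = n + 1`. `b' := Fin.cons 1 b : Fin (n+1) → ZMod N` has `b' 0 = 1` and
`Sp b' (m^2)` everything (coefficients `Fin.cons 0 l`; `Fin.sum_univ_succ`). `K := s/(m^2+m) - 2 ≥ m` and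
`(K+2)(m^2+m) ≤ s < (K+3)(m^2+m)` (exactly as in Q3.lean, `q2b`). `scale` (S1.lean; `m := n`, `s₀ = m^2`, `R = s`):
`(K+2)(2m^2 + m) ≤ 2(K+2)(m^2+m) ≤ 2s`, so there is `N'` with `K^m N ≤ N'` and `g : Fin m → ZMod N'`, `Sp g s` everything; `le_f_of_Sp`
(`1 ≤ N'`): `K^m N ≤ N' ≤ f m s`. `ratio`: `a m s ≤ exp 7 K^m a m (m^2)`. `a_step'` (`n+1 = m`): `m a m (m^2) ≤ (m + 2m^2) a (m-1) (m^2)`, so
`a m (m^2) ≤ (2m+1) a (m-1) (m^2)`. Together `a m s ≤ exp 7 (2m+1) 256 ℓ^7 K^m N ≤ exp 7 (2m+1) 256 ℓ^7 f m s`.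
-/

set_option autoImplicit false

namespace Pool.Agent.SG

theorem q3b {m s : ℕ} (hm : 64 ≤ m) (h : m ^ 4 ≤ s) :
    (a m s : ℝ) ≤ Real.exp 7 * (2 * m + 1) *
      (256 * ((Nat.log 2 (a (m - 1) (m ^ 2)) + 1 : ℕ) : ℝ) ^ 7) * f m s := by
  obtain ⟨n, rfl⟩ : ∃ n, m = n + 1 := ⟨m - 1, by omega⟩
  have hn1 : n + 1 - 1 = n := by omega
  rw [hn1]
  have hn4 : (n + 1) ^ 2 ≤ n ^ 4 := by
    have e1 : (n + 1) ^ 2 ≤ (2 * n) ^ 2 := Nat.pow_le_pow_left (by omega) 2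
    have e2 : (2 * n) ^ 2 = 4 * n ^ 2 := by ring
    have e3 : 4 * n ^ 2 ≤ n ^ 2 * n ^ 2 := Nat.mul_le_mul_right _ (by nlinarith)
    have e4 : n ^ 2 * n ^ 2 = n ^ 4 := by ring
    omega
  obtain ⟨N, hN, ⟨b, hb⟩, hle⟩ := q3a (m := n) (s := (n + 1) ^ 2) (by omega) (by nlinarith) hn4
  -- add the generator `1`
  obtain ⟨b', hb'⟩ : ∃ b' : Fin (n + 1) → ZMod N, b' = Fin.cons 1 b := ⟨_, rfl⟩
  have hb0 : b' 0 = 1 := by rw [hb']; rfl
  have hcov : ∀ x, x ∈ Sp b' ((n + 1) ^ 2) := by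
    intro x
    obtain ⟨l, hl1, hl2⟩ := hb x
    refine ⟨Fin.cons 0 l, ?_, ?_⟩
    · rw [Fin.sum_univ_succ]
      simpa using hl1
    · rw [Fin.sum_univ_succ, hb']
      simpa using hl2
  have hpos : 0 < (n + 1) ^ 2 + (n + 1) := by positivity
  obtain ⟨Q, hQ⟩ : ∃ Q, Q = s / ((n + 1) ^ 2 + (n + 1)) := ⟨_, rfl⟩
  have hQ1 : (n + 1) + 3 ≤ Q := by
    rw [hQ, Nat.le_div_iff_mul_le hpos]
    refine le_trans ?_ h
    have e1 : (n + 1) + 3 ≤ 2 * (n + 1) := by omega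
    have e2 : (n + 1) ^ 2 + (n + 1) ≤ 2 * (n + 1) ^ 2 := by nlinarith
    calc ((n + 1) + 3) * ((n + 1) ^ 2 + (n + 1)) ≤ (2 * (n + 1)) * (2 * (n + 1) ^ 2) :=
          Nat.mul_le_mul e1 e2
      _ = 4 * (n + 1) ^ 3 := by ring
      _ ≤ (n + 1) * (n + 1) ^ 3 := Nat.mul_le_mul_right _ (by omega)
      _ = (n + 1) ^ 4 := by ring
  have hQ2 : Q * ((n + 1) ^ 2 + (n + 1)) ≤ s := by rw [hQ]; exact Nat.div_mul_le_self _ _
  have hQ3 : s < (Q + 1) * ((n + 1) ^ 2 + (n + 1)) := by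
    rw [hQ, add_mul, one_mul]
    exact Nat.lt_div_mul_add hpos
  obtain ⟨K, rfl⟩ : ∃ K, Q = K + 2 := ⟨Q - 2, by omega⟩
  have hKm : n + 1 ≤ K := by omega
  have hr := ratio (m := n + 1) (s := s) (K := K) (by omega) hKm (by
    have : K + 2 + 1 = K + 3 := by ring
    rw [this] at hQ3
    exact hQ3.le)
  obtain ⟨N', hN', g, hg⟩ := scale (m := n) (s₀ := (n + 1) ^ 2) (K := K) (R := s) hN (by omega)
    b' hcov hb0 (by nlinarith)
  have hK1 : 1 ≤ K ^ (n + 1) * N := Nat.mul_pos (pow_pos (by omega) _) hN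
  have hf : K ^ (n + 1) * N ≤ f (n + 1) s := hN'.trans (le_f_of_Sp (hK1.trans hN') g hg)
  have hfR : (K : ℝ) ^ (n + 1) * N ≤ f (n + 1) s := by exact_mod_cast hf
  have hstep : (a (n + 1) ((n + 1) ^ 2) : ℝ) ≤
      (2 * ((n + 1 : ℕ) : ℝ) + 1) * a n ((n + 1) ^ 2) := by
    have e1 := a_step' n ((n + 1) ^ 2)
    have e2 : (n + 1) * a (n + 1) ((n + 1) ^ 2) ≤
        (n + 1) * ((2 * (n + 1) + 1) * a n ((n + 1) ^ 2)) := by
      refine e1.trans (le_of_eq ?_)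
      ring
    have e3 := Nat.le_of_mul_le_mul_left e2 (by omega)
    exact_mod_cast e3
  obtain ⟨X, hX⟩ : ∃ X : ℝ,
    X = 256 * ((Nat.log 2 (a n ((n + 1) ^ 2)) + 1 : ℕ) : ℝ) ^ 7 := ⟨_, rfl⟩
  rw [← hX] at hle ⊢
  have hX0 : 0 ≤ X := by rw [hX]; positivity
  calc (a (n + 1) s : ℝ) ≤ Real.exp 7 * K ^ (n + 1) * a (n + 1) ((n + 1) ^ 2) := hr
    _ ≤ Real.exp 7 * K ^ (n + 1) * ((2 * ((n + 1 : ℕ) : ℝ) + 1) * a n ((n + 1) ^ 2)) :=
        mul_le_mul_of_nonneg_left hstep (by positivity)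
    _ ≤ Real.exp 7 * K ^ (n + 1) * ((2 * ((n + 1 : ℕ) : ℝ) + 1) * (X * N)) := by
        refine mul_le_mul_of_nonneg_left ?_ (by positivity)
        exact mul_le_mul_of_nonneg_left hle (by positivity)
    _ = Real.exp 7 * (2 * ((n + 1 : ℕ) : ℝ) + 1) * X * ((K : ℝ) ^ (n + 1) * N) := by ring
    _ ≤ Real.exp 7 * (2 * ((n + 1 : ℕ) : ℝ) + 1) * X * f (n + 1) s :=
        mul_le_mul_of_nonneg_left hfR (by positivity)

end Pool.Agent.SG
end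

section

/-!
# Z: the theorem

PROOF. `main1`: `q1`; `a m s ≥ 3` (`three_pow_le_a`), `log (a m s) ≥ 1` and `Nat.log 2 (a m s) + 1 ≤ log a / log 2 + 1 ≤ 3 log a`
(`Nat.pow_log_le_self`, `Real.log_two_gt_d9`); `C = 2^512 3^8`.
`main2`: `q2a` (with `le_f_of_Sp`), `q2b`, `q2c`; `C = 768^64`.
`main3`: it is enough: `a ≤ a^ε f`. For `s ≤ m`: `C (log a)^8 ≤ a^ε` for all large `a`
and `a ≥ 3^min(m,s)` is large. For `m ≤ s`: `C exp(C log^2 m) ≤ exp(ε m log 3) ≤ a^ε`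
for all large `m`, since `log C + C log^2 m ≤ ε m log 3` eventually.
-/

set_option autoImplicit false

namespace Pool.Agent.SG

private theorem Z_log {m s : ℕ} (hm : 1 ≤ m) (hs : 1 ≤ s) : 1 ≤ Real.log (a m s) := by
  have h3 : 3 ^ 1 ≤ a m s := three_pow_le_a hm hs
  have h3' : (3 : ℝ) ≤ (a m s : ℝ) := by exact_mod_cast h3
  rw [Real.le_log_iff_exp_le (by linarith)]
  have := Real.exp_one_lt_d9
  linarith

theorem main1 : ∃ C : ℝ, 0 < C ∧ ∀ m s : ℕ, 1 ≤ s → s ≤ m →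
    (a m s : ℝ) ≤ C * Real.log (a m s) ^ 8 * f m s := by
  obtain ⟨D, hD⟩ : ∃ D : ℝ, D = (2 : ℝ) ^ 512 := ⟨_, rfl⟩
  have hD0 : 0 < D := by rw [hD]; positivity
  refine ⟨D * 3 ^ 8, by positivity, fun m s hs hsm => ?_⟩
  have hx : 1 ≤ Real.log (a m s) := Z_log (hs.trans hsm) hs
  have ha : (0 : ℝ) < a m s := by
    have := one_le_a m s
    exact_mod_cast this
  have h1 := q1 hs hsm
  rw [← hD] at h1
  have h2 : ((Nat.log 2 (a m s) : ℕ) : ℝ) * Real.log 2 ≤ Real.log (a m s) := by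
    have h3 : 2 ^ (Nat.log 2 (a m s)) ≤ a m s :=
      Nat.pow_log_le_self 2 (by have := one_le_a m s; omega)
    have h4 : ((2 : ℝ)) ^ (Nat.log 2 (a m s)) ≤ a m s := by exact_mod_cast h3
    have h5 := Real.log_le_log (by positivity) h4
    rwa [Real.log_pow] at h5
  have h3 : ((Nat.log 2 (a m s) + 1 : ℕ) : ℝ) ≤ 3 * Real.log (a m s) := by
    have hl := Real.log_two_gt_d9
    have h4 : ((Nat.log 2 (a m s) : ℕ) : ℝ) ≤ 2 * Real.log (a m s) := by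
      have h5 : (0 : ℝ) ≤ ((Nat.log 2 (a m s) : ℕ) : ℝ) := Nat.cast_nonneg _
      nlinarith
    push_cast
    linarith
  have h4 : ((Nat.log 2 (a m s) + 1 : ℕ) : ℝ) ^ 8 ≤ (3 * Real.log (a m s)) ^ 8 :=
    pow_le_pow_left₀ (Nat.cast_nonneg _) h3 8
  refine h1.trans ?_
  refine mul_le_mul_of_nonneg_right ?_ (Nat.cast_nonneg _)
  calc D * ((Nat.log 2 (a m s) + 1 : ℕ) : ℝ) ^ 8
      ≤ D * (3 * Real.log (a m s)) ^ 8 := mul_le_mul_of_nonneg_left h4 hD0.le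
    _ = D * 3 ^ 8 * Real.log (a m s) ^ 8 := by rw [mul_pow]; ring

theorem main2 : ∃ C : ℝ, 0 < C ∧ ∀ m s : ℕ, 1 ≤ m → m ≤ s →
    (a m s : ℝ) ≤ C * Real.exp (C * Real.log m ^ 2) * f m s := by
  obtain ⟨D, hD⟩ : ∃ D : ℝ, D = (768 : ℝ) ^ 64 := ⟨_, rfl⟩
  have hD0 : 0 < D := by rw [hD]; positivity
  have hC1 : 2 * Real.exp 7 ≤ D := by
    have h1 : Real.exp 7 = Real.exp 1 ^ 7 := by rw [← Real.exp_nat_mul]; norm_num
    have h2 : Real.exp 1 ^ 7 ≤ 3 ^ 7 :=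
      pow_le_pow_left₀ (Real.exp_pos _).le (by have := Real.exp_one_lt_d9; linarith) 7
    rw [h1, hD]
    calc 2 * Real.exp 1 ^ 7 ≤ 2 * 3 ^ 7 := by linarith
      _ ≤ (768 : ℝ) ^ 64 := by norm_num
  have hC2 : (30 : ℝ) ≤ D := by rw [hD]; norm_num
  have hC3 : (2 : ℝ) ≤ D := by linarith
  refine ⟨D, hD0, fun m s hm hms => ?_⟩
  have hf : (0 : ℝ) ≤ f m s := Nat.cast_nonneg _
  have hL : 0 ≤ Real.log m ^ 2 := sq_nonneg _
  have hexp : Real.exp (30 * Real.log m ^ 2) ≤ Real.exp (D * Real.log m ^ 2) :=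
    Real.exp_le_exp.2 (mul_le_mul_of_nonneg_right hC2 hL)
  by_cases hm64 : m < 64
  · have h1 := q2c hm hm64 hms
    rw [← hD] at h1
    refine h1.trans (mul_le_mul_of_nonneg_right ?_ hf)
    have h2 : 1 ≤ Real.exp (D * Real.log m ^ 2) := Real.one_le_exp (by positivity)
    exact le_mul_of_one_le_right hD0.le h2
  · have hm' : 64 ≤ m := by omega
    by_cases h4 : s ≤ m ^ 4
    · obtain ⟨p, hp, ⟨b, hb⟩, h5⟩ := q2a hm' hms h4
      have h6 : p ≤ f m s := le_f_of_Sp hp.one_lt.le b hb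
      have h6' : (p : ℝ) ≤ f m s := by exact_mod_cast h6
      refine h5.trans ?_
      exact mul_le_mul (mul_le_mul hC3 hexp (Real.exp_pos _).le hD0.le) h6'
        (Nat.cast_nonneg _) (by positivity)
    · have h5 := q2b hm' (by omega : m ^ 4 ≤ s)
      refine h5.trans (mul_le_mul_of_nonneg_right ?_ hf)
      exact mul_le_mul hC1 hexp (Real.exp_pos _).le hD0.le

theorem main3 : ∀ ε : ℝ, 0 < ε → ∃ M : ℕ, ∀ m s : ℕ, M ≤ m → M ≤ s →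
    (a m s : ℝ) ^ (1 - ε) ≤ f m s := by
  intro ε hε
  obtain ⟨C1, hC1, h1⟩ := main1
  obtain ⟨C2, hC2, h2⟩ := main2
  -- claim A
  have hA : ∀ᶠ x : ℝ in Filter.atTop, C1 * Real.log x ^ 8 ≤ x ^ ε := by
    have h3 := (isLittleO_log_rpow_rpow_atTop (8 : ℝ) hε).def (c := 1 / C1) (by positivity)
    filter_upwards [h3, Filter.eventually_ge_atTop (1 : ℝ)] with x hx hx1
    have hl : 0 ≤ Real.log x := Real.log_nonneg hx1
    rw [Real.norm_of_nonneg (by positivity), Real.norm_of_nonneg (by positivity)] at hx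
    have h8 : Real.log x ^ (8 : ℝ) = Real.log x ^ 8 := by
      rw [← Real.rpow_natCast]; norm_num
    rw [h8, div_mul_eq_mul_div, one_mul, le_div_iff₀ hC1] at hx
    linarith
  -- claim B
  have hB : ∀ᶠ x : ℝ in Filter.atTop,
      C2 * Real.exp (C2 * Real.log x ^ 2) ≤ Real.exp (ε * Real.log 3 * x) := by
    have hl3 : 0 < Real.log 3 := Real.log_pos (by norm_num)
    have h3 := (Real.isLittleO_pow_log_id_atTop (n := 2)).def
      (c := ε * Real.log 3 / (2 * C2)) (by positivity)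
    filter_upwards [h3, Filter.eventually_ge_atTop (1 : ℝ),
      Filter.eventually_ge_atTop (2 * Real.log C2 / (ε * Real.log 3))] with x hx hx1 hx2
    rw [Real.norm_of_nonneg (by positivity), id, Real.norm_of_nonneg (by linarith)] at hx
    have h4 : C2 * Real.log x ^ 2 ≤ ε * Real.log 3 * x / 2 := by
      calc C2 * Real.log x ^ 2 ≤ C2 * (ε * Real.log 3 / (2 * C2) * x) :=
            mul_le_mul_of_nonneg_left hx hC2.le
        _ = ε * Real.log 3 * x / 2 := by field_simp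
    have h5 : Real.log C2 ≤ ε * Real.log 3 * x / 2 := by
      rw [div_le_iff₀ (by positivity)] at hx2
      linarith
    calc C2 * Real.exp (C2 * Real.log x ^ 2)
        = Real.exp (Real.log C2 + C2 * Real.log x ^ 2) := by
          rw [Real.exp_add, Real.exp_log hC2]
      _ ≤ Real.exp (ε * Real.log 3 * x) := Real.exp_le_exp.2 (by linarith)
  obtain ⟨A0, hA0⟩ := Filter.eventually_atTop.1 hA
  obtain ⟨B0, hB0⟩ := Filter.eventually_atTop.1 hB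
  obtain ⟨M, hM⟩ := exists_nat_ge (max (max A0 B0) 1)
  have hMA : A0 ≤ M := ((le_max_left _ _).trans (le_max_left _ _)).trans hM
  have hMB : B0 ≤ M := ((le_max_right _ _).trans (le_max_left _ _)).trans hM
  have hM1 : 1 ≤ M := by
    have : (1 : ℝ) ≤ M := (le_max_right _ _).trans hM
    exact_mod_cast this
  refine ⟨M, fun m s hm hs => ?_⟩
  have ha : (0 : ℝ) < a m s := by
    have := one_le_a m s
    exact_mod_cast this
  have hf : (0 : ℝ) ≤ f m s := Nat.cast_nonneg _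
  have key : (a m s : ℝ) ≤ (a m s : ℝ) ^ ε * f m s → (a m s : ℝ) ^ (1 - ε) ≤ f m s := by
    intro h
    rw [Real.rpow_sub ha, Real.rpow_one, div_le_iff₀ (Real.rpow_pos_of_pos ha _), mul_comm]
    exact h
  apply key
  rcases le_total s m with h | h
  · refine (h1 m s (hM1.trans hs) h).trans (mul_le_mul_of_nonneg_right ?_ hf)
    apply hA0
    have h3 : 3 ^ M ≤ a m s := three_pow_le_a hm hs
    have h4 : M ≤ 3 ^ M := (Nat.lt_pow_self (by norm_num)).le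
    have h5 : (M : ℝ) ≤ a m s := by exact_mod_cast h4.trans h3
    exact hMA.trans h5
  · refine (h2 m s (hM1.trans hm) h).trans (mul_le_mul_of_nonneg_right ?_ hf)
    have hm' : (M : ℝ) ≤ m := by exact_mod_cast hm
    refine (hB0 m (hMB.trans hm')).trans ?_
    have h3 : 3 ^ m ≤ a m s := three_pow_le_a le_rfl h
    have h3' : (3 : ℝ) ^ m ≤ a m s := by exact_mod_cast h3
    have h4 : ((3 : ℝ) ^ m) ^ ε ≤ (a m s : ℝ) ^ ε := Real.rpow_le_rpow (by positivity) h3' hε.le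
    refine le_trans (le_of_eq ?_) h4
    rw [← Real.rpow_natCast, ← Real.rpow_mul (by norm_num), Real.rpow_def_of_pos (by norm_num)]
    congr 1
    ring

end Pool.Agent.SG
end
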